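import Pool.Agent.R228.MM.Stm

/-!
# Critical multicolour Poisson matchings: assembly of the lower bound for arrays (MM-AKT)
-/

universe u

namespace Pool.Agent.R228.MM

open MeasureTheory ProbabilityTheory Filter Set
open scoped ENNReal Topology

open scoped Classical in
theorem akt (hG : S_GAIN.{u}) (hR : S_RE) : S_AKT.{u} := by
  intro s2 M4 hs hM
  obtain ⟨D, hD⟩ : ∃ D : ℝ, D = 300 * s2 * M4 := ⟨_, rfl⟩
  have hD0 : 0 < D := by rw [hD]; positivity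
  obtain ⟨δ, hδ⟩ : ∃ δ : ℝ, δ = (s2 / 512) / √D := ⟨_, rfl⟩
  have hδ0 : 0 < δ := by rw [hδ]; positivity
  have hδD : δ ^ 2 * D = (s2 / 512) ^ 2 := by
    rw [hδ, div_pow, Real.sq_sqrt hD0.le]
    field_simp
  refine ⟨δ * s2 / 1024, by positivity, fun K hK => ⟨δ / √(K : ℝ), ?_⟩⟩
  intro Ω _ P _ X hX
  obtain ⟨cK, hcK⟩ : ∃ cK : ℝ, cK = δ / √(K : ℝ) := ⟨_, rfl⟩
  have hK0 : (0 : ℝ) < K := by exact_mod_cast (by omega : 0 < K)
  have hK2 : (2 : ℝ) ≤ K := by exact_mod_cast hK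
  have hsK : 0 < √(K : ℝ) := Real.sqrt_pos.2 hK0
  have hc0 : 0 < cK := by rw [hcK]; positivity
  have hcond : 300 * cK ^ 2 * K * s2 * M4 ≤ (s2 / 512) ^ 2 := by
    have h1 : 300 * cK ^ 2 * K * s2 * M4 = δ ^ 2 * D := by
      rw [hcK, div_pow, Real.sq_sqrt hK0.le, hD]
      field_simp
    rw [h1, hδD]
  rw [← hcK]
  obtain ⟨T, hT⟩ : ∃ T : ℕ → ℕ × ℕ → Ω → ℝ, T = fun k p ω =>
      if Nst cK K (fun q => X q ω) k (2 ^ k * p.1, 2 ^ k * p.2) then
        co (fun q => X q ω) k p * ∑ a ∈ Finset.range (2 ^ k), ∑ b ∈ Finset.range (2 ^ k),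
          prof k a b * X (2 ^ k * p.1 + a, 2 ^ k * p.2 + b) ω else 0 := ⟨_, rfl⟩
  have hTi : ∀ k ∈ Finset.Icc 2 K, ∀ p, Integrable (T k p) P ∧ 4 ^ k * s2 / 512 ≤ ∫ ω, T k p ω ∂P := by
    intro k hk p
    rw [Finset.mem_Icc] at hk
    rw [hT]
    exact hG P X s2 M4 hX hs cK K k p hc0.le hk.1 hk.2 hcond
  have hre : (fun ω => ∑ z ∈ Finset.range (2 ^ K) ×ˢ Finset.range (2 ^ K),
      X z ω * testf cK K (fun q => X q ω) z) = fun ω => ∑ k ∈ Finset.Icc 2 K,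
        ∑ p ∈ Finset.range (2 ^ (K - k)) ×ˢ Finset.range (2 ^ (K - k)), cK * T k p ω := by
    funext ω
    rw [hT]
    exact hR cK K (fun q => X q ω)
  have hint : ∀ k ∈ Finset.Icc 2 K, Integrable (fun ω =>
      ∑ p ∈ Finset.range (2 ^ (K - k)) ×ˢ Finset.range (2 ^ (K - k)), cK * T k p ω) P := by
    intro k hk
    exact integrable_finsetSum _ fun p _ => ((hTi k hk p).1.const_mul cK)
  rw [hre]
  refine ⟨integrable_finsetSum _ hint, ?_⟩
  rw [integral_finsetSum _ hint]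
  have hk : ∀ k ∈ Finset.Icc 2 K, cK * (4 ^ K * s2 / 512) ≤ ∫ ω,
      ∑ p ∈ Finset.range (2 ^ (K - k)) ×ˢ Finset.range (2 ^ (K - k)), cK * T k p ω ∂P := by
    intro k hk
    rw [integral_finsetSum _ fun p _ => ((hTi k hk p).1.const_mul cK)]
    have h1 : ∀ p ∈ Finset.range (2 ^ (K - k)) ×ˢ Finset.range (2 ^ (K - k)),
        cK * (4 ^ k * s2 / 512) ≤ ∫ ω, cK * T k p ω ∂P := by
      intro p _
      rw [integral_const_mul]
      exact mul_le_mul_of_nonneg_left (hTi k hk p).2 hc0.le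
    refine le_trans (le_of_eq ?_) (Finset.sum_le_sum h1)
    rw [Finset.sum_const, Finset.card_product, Finset.card_range, nsmul_eq_mul]
    rw [Finset.mem_Icc] at hk
    have h2 : (4 : ℝ) ^ K = (((2 ^ (K - k) * 2 ^ (K - k) : ℕ)) : ℝ) * 4 ^ k := by
      push_cast
      rw [← mul_pow, ← show (4 : ℝ) = 2 * 2 by norm_num, ← pow_add]
      congr 1
      omega
    rw [h2]
    ring
  refine le_trans ?_ (Finset.sum_le_sum hk)
  rw [Finset.sum_const, Nat.card_Icc, nsmul_eq_mul]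
  have h3 : ((K + 1 - 2 : ℕ) : ℝ) = K - 1 := by
    have : K + 1 - 2 + 1 = K := by omega
    have h4 : ((K + 1 - 2 : ℕ) : ℝ) + 1 = K := by exact_mod_cast this
    linarith
  rw [h3]
  have h5 : δ * s2 / 1024 * √(K : ℝ) * 4 ^ K = (K / 2) * (cK * (4 ^ K * s2 / 512)) := by
    rw [hcK]
    have h6 : √(K : ℝ) * √(K : ℝ) = K := Real.mul_self_sqrt hK0.le
    field_simp
    nlinarith [h6]
  rw [h5]
  refine mul_le_mul_of_nonneg_right (by linarith) (by positivity)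

end Pool.Agent.R228.MM
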