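import Pool.Agent.R228.MM.Stm

/-!
# Critical multicolour Poisson matchings: the array of a Poisson process
-/

universe u

namespace Pool.Agent.R228.MM

open MeasureTheory ProbabilityTheory Filter Set
open scoped ENNReal Topology NNReal Nat

/-- independence of the blocks of an independent family -/
theorem arr_blocks {Ω : Type*} [MeasurableSpace Ω] {P : Measure Ω} {ι κ 𝓧 : Type*}
    [MeasurableSpace 𝓧] {X : ι → κ → Ω → 𝓧} (mX : ∀ i j, Measurable (X i j))
    (h : iIndepFun (fun (p : (_ : ι) × κ) ω => X p.1 p.2 ω) P) :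
    iIndepFun (fun i ω j => X i j ω) P := by
  have hP := h.isProbabilityMeasure
  have : ∀ i j, IsProbabilityMeasure (P.map (X i j)) :=
    fun i j ↦ Measure.isProbabilityMeasure_map (mX i j).aemeasurable
  have hc : (MeasurableEquiv.piCurry (fun (_ : ι) (_ : κ) => 𝓧)) ∘ (fun ω p ↦ X p.1 p.2 ω)
      = fun ω i j ↦ X i j ω := by
    ext; simp [Sigma.curry]
  have h1 := (iIndepFun_iff_map_fun_eq_infinitePi_map (by fun_prop)).1 h
  rw [iIndepFun_iff_map_fun_eq_infinitePi_map (by fun_prop)]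
  have h2 : ∀ i, P.map (fun ω j => X i j ω) = Measure.infinitePi (fun j => P.map (X i j)) := by
    intro i
    have h3 : iIndepFun (fun j ω => X i j ω) P :=
      h.precomp (g := fun j => (⟨i, j⟩ : (_ : ι) × κ)) (fun a b hab => by simpa using hab)
    exact (iIndepFun_iff_map_fun_eq_infinitePi_map (by fun_prop)).1 h3
  simp_rw [h2]
  rw [← Measure.infinitePi_map_piCurry (fun i j ↦ P.map (X i j)), ← h1,
    Measure.map_map (by fun_prop) (by fun_prop), hc]

theorem pois_int (r : ℝ≥0) (p : ℕ) :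
    Integrable (fun n : ℕ => (n : ℝ) ^ p) (poissonMeasure r) := by
  rw [integrable_poissonMeasure_iff]
  have hs : Summable fun n : ℕ => Real.exp (-r) * (p ! : ℝ) * (((r : ℝ) * Real.exp 1) ^ n / (n ! : ℝ)) :=
    (Real.summable_pow_div_factorial _).mul_left _
  refine Summable.of_nonneg_of_le (fun n => by positivity) (fun n => ?_) hs
  have h1 : (n : ℝ) ^ p ≤ (p ! : ℝ) * Real.exp n := by
    have := Real.pow_div_factorial_le_exp (x := (n : ℝ)) (Nat.cast_nonneg n) p
    rw [div_le_iff₀ (by positivity)] at this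
    linarith
  rw [Real.norm_of_nonneg (by positivity)]
  calc Real.exp (-r) * (r : ℝ) ^ n / (n ! : ℝ) * (n : ℝ) ^ p
      ≤ Real.exp (-r) * (r : ℝ) ^ n / (n ! : ℝ) * ((p ! : ℝ) * Real.exp n) := by gcongr
    _ = _ := by
      rw [mul_pow, ← Real.exp_nat_mul, mul_one]
      ring

theorem pois_mean (r : ℝ≥0) : ∫ n : ℕ, (n : ℝ) ∂(poissonMeasure r) = r := by
  have h := hasSum_integral_poissonMeasure (r := r) (f := fun n : ℕ => (n : ℝ))
    (by simpa using pois_int r 1)
  have h1 : HasSum (fun n : ℕ => (Real.exp (-r) * (r : ℝ) ^ (n + 1) / ((n + 1)! : ℝ)) • ((n + 1 : ℕ) : ℝ))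
      ((r : ℝ) * 1) := by
    have h2 := (hasSum_one_poissonMeasure r).mul_left (r : ℝ)
    refine h2.congr_fun ?_ |> fun h => h
    intro n
    simp only [smul_eq_mul]
    rw [Nat.factorial_succ]
    push_cast
    field_simp
    try ring
  have h3 := (hasSum_nat_add_iff (f := fun n : ℕ => (Real.exp (-r) * (r : ℝ) ^ n / (n ! : ℝ)) • (n : ℝ)) 1).1 h1
  simp only [mul_one, Finset.range_one, Finset.sum_singleton, Nat.cast_zero, smul_zero, add_zero] at h3
  exact h.unique h3


/-- the law of the vector of the numbers of points of the colours in a cell -/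
noncomputable def mu0 {q : ℕ} (lam : Fin q → ℝ) : Measure (Fin q → ℕ) :=
  Measure.pi fun i => poissonMeasure (lam i).toNNReal

instance {q : ℕ} (lam : Fin q → ℝ) : IsProbabilityMeasure (mu0 lam) := by
  unfold mu0; infer_instance

/-- the linear form on vectors of numbers -/
noncomputable def lf {q : ℕ} (l : Fin q → ℝ) (n : Fin q → ℕ) : ℝ := ∑ i, l i * (n i : ℝ)

theorem lf_meas {q : ℕ} (l : Fin q → ℝ) : Measurable (lf l) := by
  unfold lf
  refine Finset.measurable_sum _ fun i _ => ?_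
  exact ((Measurable.of_discrete (f := fun n : ℕ => (n : ℝ))).comp (measurable_pi_apply i)).const_mul _

theorem coord_memLp {q : ℕ} (lam : Fin q → ℝ) (i : Fin q) :
    MemLp (fun n : Fin q → ℕ => (n i : ℝ)) 4 (mu0 lam) := by
  have h : MemLp (fun n : ℕ => (n : ℝ)) 4 (poissonMeasure (lam i).toNNReal) := by
    refine ⟨Measurable.of_discrete.aestronglyMeasurable, ?_⟩
    have := (pois_int (lam i).toNNReal 4)
    have h4 : (4 : ℝ≥0∞) ≠ 0 := by norm_num
    have h4' : (4 : ℝ≥0∞) ≠ ⊤ := by norm_num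
    rw [eLpNorm_lt_top_iff_lintegral_rpow_enorm_lt_top h4 h4']
    have h5 := this.2
    rw [hasFiniteIntegral_iff_enorm] at h5
    convert h5 using 3 with n
    simp only [enorm_pow]
    norm_num
  exact h.comp_measurePreserving (measurePreserving_eval _ i)

theorem lf_memLp {q : ℕ} (lam l : Fin q → ℝ) : MemLp (lf l) 4 (mu0 lam) := by
  unfold lf
  exact memLp_finset_sum _ fun i _ => (coord_memLp lam i).const_mul (l i)

theorem lf_int4 {q : ℕ} (lam l : Fin q → ℝ) : Integrable (fun n => lf l n ^ 4) (mu0 lam) := by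
  have := (lf_memLp lam l).integrable_norm_pow (p := 4) (by norm_num)
  refine this.congr (Eventually.of_forall fun n => ?_)
  show ‖lf l n‖ ^ 4 = lf l n ^ 4
  rw [Real.norm_eq_abs]
  exact Even.pow_abs (by decide) _

theorem lf_int2 {q : ℕ} (lam l : Fin q → ℝ) : Integrable (fun n => lf l n ^ 2) (mu0 lam) := by
  have h2 : MemLp (lf l) 2 (mu0 lam) := (lf_memLp lam l).mono_exponent (by norm_num)
  have := h2.integrable_norm_pow (p := 2) (by norm_num)
  refine this.congr (Eventually.of_forall fun n => ?_)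
  show ‖lf l n‖ ^ 2 = lf l n ^ 2
  rw [Real.norm_eq_abs]
  exact Even.pow_abs (by decide) _

theorem lf_mean {q : ℕ} (lam l : Fin q → ℝ) (hlam : ∀ i, 0 < lam i) :
    ∫ n, lf l n ∂(mu0 lam) = ∑ i, l i * lam i := by
  unfold lf
  rw [integral_finset_sum]
  · refine Finset.sum_congr rfl fun i _ => ?_
    rw [integral_const_mul]
    congr 1
    have h1 : ∫ n : Fin q → ℕ, (n i : ℝ) ∂(mu0 lam)
        = ∫ n : ℕ, (n : ℝ) ∂(poissonMeasure (lam i).toNNReal) := by
      rw [← (measurePreserving_eval (fun i => poissonMeasure (lam i).toNNReal) i).map_eq,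
        integral_map (measurable_pi_apply i).aemeasurable
          Measurable.of_discrete.aestronglyMeasurable]
      rfl
    rw [h1, pois_mean]
    exact Real.coe_toNNReal _ (hlam i).le
  · intro i _
    exact ((coord_memLp lam i).integrable (by norm_num)).const_mul _

theorem lf_var_pos {q : ℕ} (lam l : Fin q → ℝ) (hlam : ∀ i, 0 < lam i) (hl : l ≠ 0) :
    0 < ∫ n, lf l n ^ 2 ∂(mu0 lam) := by
  obtain ⟨i0, hi0⟩ := Function.ne_iff.1 hl
  rw [integral_pos_iff_support_of_nonneg (fun n => sq_nonneg _) (lf_int2 lam l)]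
  have hsub : {(Pi.single i0 1 : Fin q → ℕ)} ⊆ Function.support fun n => lf l n ^ 2 := by
    intro n hn
    rw [Set.mem_singleton_iff] at hn
    subst hn
    rw [Function.mem_support]
    have : lf l (Pi.single i0 1) = l i0 := by
      unfold lf
      rw [Finset.sum_eq_single i0]
      · simp
      · intro b _ hb
        simp [Pi.single_eq_of_ne hb]
      · simp
    rw [this]
    exact pow_ne_zero _ hi0
  refine lt_of_lt_of_le ?_ (measure_mono hsub)
  have h1 : ({(Pi.single i0 1 : Fin q → ℕ)} : Set (Fin q → ℕ))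
      = Set.univ.pi fun i => {(Pi.single i0 1 : Fin q → ℕ) i} := by
    ext n; simp [funext_iff, Set.mem_pi]
  rw [h1]
  unfold mu0
  rw [Measure.pi_pi]
  refine pos_iff_ne_zero.2 (Finset.prod_ne_zero_iff.2 fun i _ => ?_)
  rw [poissonMeasure_singleton]
  rw [Ne, ENNReal.ofReal_eq_zero, not_le]
  have : 0 < ((lam i).toNNReal : ℝ) := by
    rw [Real.coe_toNNReal _ (hlam i).le]; exact hlam i
  positivity

/-- the number of points of colour `p.2` in the cell `p.1` -/
noncomputable def cntA {Ω : Type*} {q : ℕ} (Pi : Fin q → Ω → Set Pt) (m : ℕ × ℕ) (i : Fin q)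
    (ω : Ω) : ℕ := (Pi i ω ∩ cell m).encard.toNat

theorem cell_disj {m m' : ℕ × ℕ} (h : m ≠ m') : Disjoint (cell m) (cell m') := by
  rw [Set.disjoint_left]
  rintro x ⟨h1, h2, h3, h4⟩ ⟨h5, h6, h7, h8⟩
  apply h
  have a1 : (m.1 : ℝ) < m'.1 + 1 := lt_of_le_of_lt h1 h6
  have a2 : (m'.1 : ℝ) < m.1 + 1 := lt_of_le_of_lt h5 h2
  have a3 : (m.2 : ℝ) < m'.2 + 1 := lt_of_le_of_lt h3 h8
  have a4 : (m'.2 : ℝ) < m.2 + 1 := lt_of_le_of_lt h7 h4
  have b1 : m.1 < m'.1 + 1 := by exact_mod_cast a1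
  have b2 : m'.1 < m.1 + 1 := by exact_mod_cast a2
  have b3 : m.2 < m'.2 + 1 := by exact_mod_cast a3
  have b4 : m'.2 < m.2 + 1 := by exact_mod_cast a4
  exact Prod.ext (by omega) (by omega)

theorem cnt_meas (cell_meas : ∀ m, MeasurableSet (cell m)) {Ω : Type*} [MeasurableSpace Ω]
    {P : Measure Ω} {q : ℕ} {lam : Fin q → ℝ} {Pi : Fin q → Ω → Set Pt} (hP : IsPoisson P lam Pi)
    (m : ℕ × ℕ) (i : Fin q) : Measurable (cntA Pi m i) :=
  (Measurable.of_discrete (f := ENat.toNat)).comp (hP.meas i _ (cell_meas m))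

theorem cnt_law (cell_meas : ∀ m, MeasurableSet (cell m)) (cell_vol : ∀ m, volume (cell m) = 1)
    {Ω : Type*} [MeasurableSpace Ω]
    {P : Measure Ω} {q : ℕ} {lam : Fin q → ℝ} {Pi : Fin q → Ω → Set Pt} (hP : IsPoisson P lam Pi)
    (m : ℕ × ℕ) (i : Fin q) : P.map (cntA Pi m i) = poissonMeasure (lam i).toNNReal := by
  have h := hP.law i (cell m) (cell_meas m) (by rw [cell_vol]; simp)
  rw [cell_vol] at h
  simp only [ENNReal.toReal_one, mul_one] at h
  have h2 : P.map (cntA Pi m i)
      = (P.map (fun ω => (Pi i ω ∩ cell m).encard)).map ENat.toNat := by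
    rw [Measure.map_map Measurable.of_discrete (hP.meas i _ (cell_meas m))]
    rfl
  rw [h2, h, Measure.map_map Measurable.of_discrete Measurable.of_discrete]
  have h3 : (ENat.toNat ∘ fun n : ℕ => (n : ℕ∞)) = id := by
    ext n; simp
  rw [h3, Measure.map_id]

theorem cnt_indep (cell_meas : ∀ m, MeasurableSet (cell m)) {Ω : Type*} [MeasurableSpace Ω]
    {P : Measure Ω} {q : ℕ} {lam : Fin q → ℝ} {Pi : Fin q → Ω → Set Pt}
    (hP : IsPoisson P lam Pi) :
    iIndepFun (fun (p : (_ : ℕ × ℕ) × Fin q) ω => cntA Pi p.1 p.2 ω) P := by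
  rw [iIndepFun_iff_finset]
  intro s
  let e := s.equivFin
  have h1 := hP.indep s.card (fun k => ((e.symm k).1.2, cell (e.symm k).1.1))
    (fun k => cell_meas _) (by
      intro k l' hkl hc
      apply cell_disj
      intro hc2
      apply hkl
      apply e.symm.injective
      apply Subtype.ext
      exact Sigma.ext hc2 (heq_of_eq hc))
  have h2 := h1.comp (fun _ => ENat.toNat) (fun _ => Measurable.of_discrete)
  have h3 := h2.precomp (g := e) e.injective
  convert h3 using 1
  ext k ω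
  simp [cntA, Finset.restrict]

theorem arrs (cell_meas : ∀ m, MeasurableSet (cell m)) (cell_vol : ∀ m, volume (cell m) = 1) :
    S_ARR.{u} := by
  intro q lam l hlam hl hsum
  refine ⟨∫ n, lf l n ^ 2 ∂(mu0 lam), ∫ n, lf l n ^ 4 ∂(mu0 lam) + 1, lf_var_pos lam l hlam hl,
    ?_, ?_⟩
  · have : 0 ≤ ∫ n, lf l n ^ 4 ∂(mu0 lam) := integral_nonneg fun n => by positivity
    linarith
  intro Ω _ P _ Pi hP
  have hm := cnt_meas cell_meas hP
  have hI := cnt_indep cell_meas hP
  have hV : ∀ m, Measurable (fun ω i => cntA Pi m i ω) := fun m => measurable_pi_lambda _ (hm m)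
  have hmap : ∀ m, P.map (fun ω i => cntA Pi m i ω) = mu0 lam := by
    intro m
    have h3 : iIndepFun (fun i ω => cntA Pi m i ω) P :=
      hI.precomp (g := fun i => (⟨m, i⟩ : (_ : ℕ × ℕ) × Fin q)) (fun a b hab => by simpa using hab)
    rw [h3.map_fun_eq_pi_map (fun i => (hm m i).aemeasurable)]
    unfold mu0
    congr 1
    ext1 i
    exact cnt_law cell_meas cell_vol hP m i
  have hB := arr_blocks hm hI
  have harr : ∀ m, arr l Pi m = lf l ∘ (fun ω i => cntA Pi m i ω) := fun m => rfl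
  have hint : ∀ (f : (Fin q → ℕ) → ℝ), Measurable f → ∀ m,
      ∫ ω, f (fun i => cntA Pi m i ω) ∂P = ∫ n, f n ∂(mu0 lam) := by
    intro f hf m
    rw [← hmap m, integral_map (hV m).aemeasurable hf.aestronglyMeasurable]
  constructor
  · intro z
    rw [harr]
    exact (lf_meas l).comp (hV z)
  · have := hB.comp (fun _ => lf l) (fun _ => lf_meas l)
    exact this
  · intro z
    rw [harr, harr]
    have : IdentDistrib (fun ω i => cntA Pi z i ω) (fun ω i => cntA Pi (0, 0) i ω) P P :=
      ⟨(hV z).aemeasurable, (hV _).aemeasurable, by rw [hmap, hmap]⟩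
    exact this.comp (lf_meas l)
  · have h4 := lf_int4 lam l
    rw [← hmap (0, 0)] at h4
    rw [integrable_map_measure ((lf_meas l).pow_const 4).aestronglyMeasurable
      (hV _).aemeasurable] at h4
    exact h4
  · have := hint (lf l) (lf_meas l) (0, 0)
    rw [lf_mean lam l hlam, hsum] at this
    exact this
  · exact hint (fun n => lf l n ^ 2) ((lf_meas l).pow_const 2) (0, 0)
  · have := hint (fun n => lf l n ^ 4) ((lf_meas l).pow_const 4) (0, 0)
    have h2 : ∫ ω, arr l Pi (0, 0) ω ^ 4 ∂P = ∫ n, lf l n ^ 4 ∂(mu0 lam) := this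
    rw [h2]
    linarith

end Pool.Agent.R228.MM
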