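import Pool.Agent.R228.MM.Stm

/-! MM-CNT (helper164): the mean number of Poisson points in a cell. -/

universe u

namespace Pool.Agent.R228.MM

open MeasureTheory ProbabilityTheory Filter Set
open scoped ENNReal NNReal Topology

/-- mean of the Poisson law -/
theorem poisson_mean (ν : ℝ≥0) : ∫⁻ n, (n : ℝ≥0∞) ∂(poissonMeasure ν) = ν := by
  rw [lintegral_countable', tsum_eq_zero_add' ENNReal.summable]
  simp only [Nat.cast_zero, zero_mul, zero_add]
  have h1 : ∀ n : ℕ, ((n + 1 : ℕ) : ℝ≥0∞) * (poissonMeasure ν) {n + 1} =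
      ν * (poissonMeasure ν) {n} := by
    intro n
    rw [poissonMeasure_singleton, poissonMeasure_singleton, ← ENNReal.ofReal_natCast,
      ← ENNReal.ofReal_mul (by positivity), ← ENNReal.ofReal_coe_nnreal (p := ν),
      ← ENNReal.ofReal_mul (by positivity)]
    congr 1
    rw [Nat.factorial_succ, pow_succ]
    have : ((n.factorial : ℕ) : ℝ) ≠ 0 := by positivity
    have : ((n + 1 : ℕ) : ℝ) ≠ 0 := by positivity
    push_cast at *
    field_simp
  simp_rw [h1]
  rw [ENNReal.tsum_mul_left]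
  have h2 := lintegral_countable' (μ := poissonMeasure ν) (fun _ : ℕ => (1 : ℝ≥0∞))
  simp only [one_mul, lintegral_const, measure_univ] at h2
  rw [← h2, mul_one]

theorem cell_eq (m : ℕ × ℕ) : cell m = (WithLp.ofLp : Pt → (Fin 2 → ℝ)) ⁻¹'
    (Set.univ.pi fun i : Fin 2 => Set.Ico ((![(m.1 : ℝ), (m.2 : ℝ)] : Fin 2 → ℝ) i)
      ((![(m.1 : ℝ) + 1, (m.2 : ℝ) + 1] : Fin 2 → ℝ) i)) := by
  ext x
  simp only [cell, Set.mem_ofPred_eq, Set.mem_preimage, Set.mem_pi, Set.mem_univ, true_implies,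
    Fin.forall_fin_two, Set.mem_Ico]
  simp [and_assoc]

theorem cell_meas (m : ℕ × ℕ) : MeasurableSet (cell m) := by
  rw [cell_eq]
  exact (PiLp.volume_preserving_ofLp (Fin 2)).measurable
    (MeasurableSet.univ_pi fun i => measurableSet_Ico)

theorem cell_vol (m : ℕ × ℕ) : volume (cell m) = 1 := by
  rw [cell_eq, (PiLp.volume_preserving_ofLp (Fin 2)).measure_preimage
    (MeasurableSet.univ_pi fun i => measurableSet_Ico).nullMeasurableSet, Real.volume_pi_Ico,
    Fin.prod_univ_two]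
  simp

theorem cnt : S_CNT.{u} := by
  intro Ω _ P _ q lam Pi hlam hP i m
  have h1 := hP.law i (cell m) (cell_meas m) (by rw [cell_vol]; simp)
  have hm := hP.meas i (cell m) (cell_meas m)
  have e1 : ∫⁻ ω, ((Pi i ω ∩ cell m).encard : ℝ≥0∞) ∂P =
      ∫⁻ k : ℕ∞, (k : ℝ≥0∞) ∂(P.map (fun ω => (Pi i ω ∩ cell m).encard)) := by
    rw [lintegral_map (Measurable.of_discrete) hm]
  rw [e1, h1, lintegral_map (Measurable.of_discrete) (Measurable.of_discrete)]
  have e2 : ∫⁻ n : ℕ, (((n : ℕ∞)) : ℝ≥0∞) ∂(poissonMeasure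
      (lam i * (volume (cell m)).toReal).toNNReal) =
      ∫⁻ n : ℕ, (n : ℝ≥0∞) ∂(poissonMeasure (lam i * (volume (cell m)).toReal).toNNReal) := by
    refine lintegral_congr fun n => ?_
    simp
  rw [e2, poisson_mean, cell_vol]
  simp [ENNReal.ofReal]

end Pool.Agent.R228.MM
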