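import Mathlib

/-!
# Critical multicolour Poisson matchings in the plane: definitions
-/

namespace Pool.Agent.R228.MM

open MeasureTheory ProbabilityTheory Filter Set
open scoped ENNReal Topology

/-- the plane -/
abbrev Pt := EuclideanSpace ℝ (Fin 2)

/-- `Pi 0, Pi 1, …` are independent homogeneous Poisson point processes in the plane with
intensities `lam 0, lam 1, …`. A point process is a random set; its value on a Borel set `B` is the
number of points in `B`. Independence of the processes and complete independence of each of them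
are expressed together: the numbers of points of colours `(c k).1` in the Borel sets `(c k).2` are
independent whenever any two of the sets which carry the same colour are disjoint. -/
structure IsPoisson {Ω : Type*} [MeasurableSpace Ω] (P : Measure Ω) {q : ℕ} (lam : Fin q → ℝ)
    (Pi : Fin q → Ω → Set Pt) : Prop where
  meas : ∀ i, ∀ B : Set Pt, MeasurableSet B → Measurable fun ω => (Pi i ω ∩ B).encard
  law : ∀ i, ∀ B : Set Pt, MeasurableSet B → volume B ≠ ∞ →
    P.map (fun ω => (Pi i ω ∩ B).encard) =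
      (poissonMeasure (lam i * (volume B).toReal).toNNReal).map (fun n : ℕ => (n : ℕ∞))
  indep : ∀ (n : ℕ) (c : Fin n → Fin q × Set Pt), (∀ k, MeasurableSet (c k).2) →
    (∀ k l, k ≠ l → (c k).1 = (c l).1 → Disjoint (c k).2 (c l).2) →
    iIndepFun (fun k ω => (Pi (c k).1 ω ∩ (c k).2).encard) P

/-- The σ-algebra on finite sets of points generated by the counting maps
`F ↦ number of points of F in B`, `B` Borel. -/
@[reducible] noncomputable def famSpace : MeasurableSpace (Finset Pt) :=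
  ⨆ B : {B : Set Pt // MeasurableSet B},
    MeasurableSpace.comap (fun F : Finset Pt => ((F : Set Pt) ∩ B.1).encard) ⊤

/-- All the counts of a coloured configuration `S` with a system `M` of finite sets: for every
colour and every Borel set the number of points, and for every measurable class of finite sets the
number of members of `M` in this class. The target carries the product σ-algebra. -/
noncomputable def stat {q : ℕ} (S : Fin q → Set Pt) (M : Set (Finset Pt)) :
    (Fin q × {B : Set Pt // MeasurableSet B} → ℕ∞) ×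
      ({A : Set (Finset Pt) // MeasurableSet[famSpace] A} → ℕ∞) :=
  (fun p => (S p.1 ∩ p.2.1).encard, fun A => (M ∩ A.1).encard)

/-- `M` is a translation-invariant `V`-matching scheme for the coloured point process `Pi`: a random
partition of the points into finite families whose types lie in `V`, such that the joint law of
`(Pi, M)` is invariant under all translations. -/
structure IsScheme {Ω : Type*} [MeasurableSpace Ω] (P : Measure Ω) {q : ℕ}
    (V : Finset (Fin q → ℕ)) (Pi : Fin q → Ω → Set Pt) (M : Ω → Set (Finset Pt)) : Prop where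
  meas : ∀ A : Set (Finset Pt), MeasurableSet[famSpace] A →
    Measurable fun ω => (M ω ∩ A).encard
  sub : ∀ᵐ ω ∂P, ∀ F ∈ M ω, F.Nonempty ∧ (F : Set Pt) ⊆ ⋃ i, Pi i ω
  disj : ∀ᵐ ω ∂P, ∀ F ∈ M ω, ∀ G ∈ M ω, F ≠ G → Disjoint (F : Set Pt) (G : Set Pt)
  cover : ∀ᵐ ω ∂P, ∀ x ∈ ⋃ i, Pi i ω, ∃ F ∈ M ω, x ∈ F
  type : ∀ᵐ ω ∂P, ∀ F ∈ M ω, ∃ v ∈ V, ∀ i, ((F : Set Pt) ∩ Pi i ω).ncard = v i
  inv : ∀ t : Pt, P.map (fun ω => stat (fun i => Pi i ω) (M ω)) =
    P.map (fun ω => stat (fun i => (fun x => x + t) '' Pi i ω)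
      ((fun F => F.map (addRightEmbedding t)) '' M ω))

/-- `cone(V) = {∑ a_v v : a_v ≥ 0}` -/
def coneV {q : ℕ} (V : Finset (Fin q → ℕ)) : Set (Fin q → ℝ) :=
  {x | ∃ a : (Fin q → ℕ) → ℝ, (∀ v, 0 ≤ a v) ∧ ∀ i, x i = ∑ v ∈ V, a v * (v i : ℝ)}

/-- the cell `[m₁, m₁+1) × [m₂, m₂+1)` -/
def cell (m : ℕ × ℕ) : Set Pt :=
  {x | (m.1 : ℝ) ≤ x 0 ∧ x 0 < m.1 + 1 ∧ (m.2 : ℝ) ≤ x 1 ∧ x 1 < m.2 + 1}

/-- the points in the cell `m` whose family has diameter larger than `r` -/
def longPts {q : ℕ} (S : Fin q → Set Pt) (M : Set (Finset Pt)) (m : ℕ × ℕ) (r : ℝ) : Set Pt :=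
  {x | x ∈ cell m ∧ x ∈ ⋃ i, S i ∧ ∃ F ∈ M, x ∈ F ∧ r < Metric.diam (F : Set Pt)}

/-- The Palm probability `ℙ*(X > r)`: the mean number of points in the unit square whose family
has diameter larger than `r`, divided by the intensity of the union process. -/
noncomputable def palmTail {Ω : Type*} [MeasurableSpace Ω] (P : Measure Ω) {q : ℕ}
    (lam : Fin q → ℝ) (Pi : Fin q → Ω → Set Pt) (M : Ω → Set (Finset Pt)) (r : ℝ) : ℝ≥0∞ :=
  (∫⁻ ω, ((longPts (fun i => Pi i ω) (M ω) (0, 0) r).encard : ℝ≥0∞) ∂P) /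
    ENNReal.ofReal (∑ i, lam i)

end Pool.Agent.R228.MM

/-! ### The multiscale test function -/

namespace Pool.Agent.R228.MM

open MeasureTheory ProbabilityTheory Filter Set
open scoped ENNReal Topology

/-- sign: `+1` on the left half of a dyadic square, `-1` on the right half -/
noncomputable def psi (k a : ℕ) : ℝ := if a < 2 ^ (k - 1) then 1 else -1

/-- one-dimensional profile, positive on the left half, negative on the right half -/
noncomputable def uu (k a : ℕ) : ℝ :=
  if a ≤ 2 ^ (k - 1) then (a : ℝ) * (2 ^ (k - 1) - a)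
  else -(((a : ℝ) - 2 ^ (k - 1)) * (2 ^ k - a))

/-- one-dimensional profile, positive -/
noncomputable def vv (k b : ℕ) : ℝ := (b : ℝ) * (2 ^ k - b)

/-- the profile of a dyadic square of side `2^k` in local coordinates -/
noncomputable def prof (k a b : ℕ) : ℝ := uu k a * vv k b / 8 ^ k

/-- the index of the dyadic square of scale `k` which contains the cell `z` -/
def idx (k : ℕ) (z : ℕ × ℕ) : ℕ × ℕ := (z.1 / 2 ^ k, z.2 / 2 ^ k)

/-- the normalised difference of the sums of `ξ` over the left half and over the right half of the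
dyadic square of scale `k` and index `p` -/
noncomputable def co (ξ : ℕ × ℕ → ℝ) (k : ℕ) (p : ℕ × ℕ) : ℝ :=
  (∑ a ∈ Finset.range (2 ^ k), ∑ b ∈ Finset.range (2 ^ k),
    psi k a * ξ (2 ^ k * p.1 + a, 2 ^ k * p.2 + b)) / 2 ^ k

/-- value of the profile of the dyadic square of scale `k` containing the cell `z`, at the lower
left corner `z` -/
noncomputable def bmp (k : ℕ) (z : ℕ × ℕ) : ℝ := prof k (z.1 % 2 ^ k) (z.2 % 2 ^ k)

/-- horizontal increment of the profile -/
noncomputable def dx (k : ℕ) (z : ℕ × ℕ) : ℝ :=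
  prof k (z.1 % 2 ^ k + 1) (z.2 % 2 ^ k) - prof k (z.1 % 2 ^ k) (z.2 % 2 ^ k)

/-- vertical increment of the profile -/
noncomputable def dy (k : ℕ) (z : ℕ × ℕ) : ℝ :=
  prof k (z.1 % 2 ^ k) (z.2 % 2 ^ k + 1) - prof k (z.1 % 2 ^ k) (z.2 % 2 ^ k)

/-- horizontal increment of the (unstopped) sum over the scales above `k` -/
noncomputable def Ux (c : ℝ) (K : ℕ) (ξ : ℕ × ℕ → ℝ) (k : ℕ) (z : ℕ × ℕ) : ℝ :=
  ∑ j ∈ Finset.Icc (k + 1) K, c * co ξ j (idx j z) * dx j z

/-- vertical increment of the (unstopped) sum over the scales above `k` -/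
noncomputable def Uy (c : ℝ) (K : ℕ) (ξ : ℕ × ℕ → ℝ) (k : ℕ) (z : ℕ × ℕ) : ℝ :=
  ∑ j ∈ Finset.Icc (k + 1) K, c * co ξ j (idx j z) * dy j z

/-- the dyadic square of scale `k` containing `z` is not stopped -/
def Nst (c : ℝ) (K : ℕ) (ξ : ℕ × ℕ → ℝ) (k : ℕ) (z : ℕ × ℕ) : Prop :=
  (∀ k' ∈ Finset.Icc k K, ∀ w : ℕ × ℕ, idx k' w = idx k' z →
    |Ux c K ξ k' w| ≤ 1 ∧ |Uy c K ξ k' w| ≤ 1) ∧
  ∀ j ∈ Finset.Icc k K, |c * co ξ j (idx j z)| ≤ 1

open scoped Classical in
/-- the multiscale test function -/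
noncomputable def testf (c : ℝ) (K : ℕ) (ξ : ℕ × ℕ → ℝ) (z : ℕ × ℕ) : ℝ :=
  if z.1 < 2 ^ K ∧ z.2 < 2 ^ K then
    ∑ k ∈ Finset.Icc 2 K, (if Nst c K ξ k z then c * co ξ k (idx k z) * bmp k z else 0)
  else 0

/-- `X z`, `z ∈ ℕ × ℕ`, are independent, identically distributed, centred, with second moment `s2`
and fourth moment at most `M4` -/
structure IsArr {Ω : Type*} [MeasurableSpace Ω] (P : Measure Ω) (X : ℕ × ℕ → Ω → ℝ)
    (s2 M4 : ℝ) : Prop where
  meas : ∀ z, Measurable (X z)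
  indep : iIndepFun X P
  ident : ∀ z, IdentDistrib (X z) (X (0, 0)) P P
  int4 : Integrable (fun ω => X (0, 0) ω ^ 4) P
  mean : ∫ ω, X (0, 0) ω ∂P = 0
  var : ∫ ω, X (0, 0) ω ^ 2 ∂P = s2
  four : ∫ ω, X (0, 0) ω ^ 4 ∂P ≤ M4

/-- the array `ξ_m = ∑ i, ℓ i * (number of points of colour i in the cell m)` -/
noncomputable def arr {Ω : Type*} {q : ℕ} (l : Fin q → ℝ) (Pi : Fin q → Ω → Set Pt)
    (m : ℕ × ℕ) (ω : Ω) : ℝ :=
  ∑ i, l i * (((Pi i ω ∩ cell m).encard.toNat : ℕ) : ℝ)

end Pool.Agent.R228.MM
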