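import Pool.Agent.R228.MM.Stm

/-! # MP_47e84d_pr, piece MM-DET: the deterministic inequality -/

set_option autoImplicit false

open Set Filter Topology

namespace Pool.Agent.R228.MM

namespace DetAux

/-- the index of the cell of a point -/
noncomputable def ix (x : Pt) : ℕ × ℕ := (⌊x 0⌋₊, ⌊x 1⌋₊)

lemma mem_cell {x : Pt} {m : ℕ × ℕ} : x ∈ cell m ↔ 0 ≤ x 0 ∧ 0 ≤ x 1 ∧ ix x = m := by
  constructor
  · rintro ⟨h1, h2, h3, h4⟩
    have e1 : (0 : ℝ) ≤ x 0 := le_trans (Nat.cast_nonneg _) h1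
    have e2 : (0 : ℝ) ≤ x 1 := le_trans (Nat.cast_nonneg _) h3
    refine ⟨e1, e2, ?_⟩
    have f1 : ⌊x 0⌋₊ = m.1 := (Nat.floor_eq_iff e1).2 ⟨h1, h2⟩
    have f2 : ⌊x 1⌋₊ = m.2 := (Nat.floor_eq_iff e2).2 ⟨h3, h4⟩
    exact Prod.ext f1 f2
  · rintro ⟨e1, e2, h⟩
    have f1 : ⌊x 0⌋₊ = m.1 := congrArg Prod.fst h
    have f2 : ⌊x 1⌋₊ = m.2 := congrArg Prod.snd h
    have g1 := (Nat.floor_eq_iff e1).1 f1
    have g2 := (Nat.floor_eq_iff e2).1 f2
    exact ⟨g1.1, g1.2, g2.1, g2.2⟩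

lemma lip_add1 {g : ℕ × ℕ → ℝ} (h : ∀ z : ℕ × ℕ, |g (z.1 + 1, z.2) - g z| ≤ 4) (a b n : ℕ) :
    |g (a + n, b) - g (a, b)| ≤ 4 * (n : ℝ) := by
  induction n with
  | zero => simp
  | succ n ih =>
    have h1 := h (a + n, b)
    have e : g (a + (n + 1), b) - g (a, b) =
        (g (a + n + 1, b) - g (a + n, b)) + (g (a + n, b) - g (a, b)) := by
      rw [← add_assoc]; ring
    rw [e]
    refine (abs_add_le _ _).trans ?_
    push_cast
    have h2 : |g (a + n + 1, b) - g (a + n, b)| ≤ 4 := h1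
    linarith

lemma lip_add2 {g : ℕ × ℕ → ℝ} (h : ∀ z : ℕ × ℕ, |g (z.1, z.2 + 1) - g z| ≤ 4) (a b n : ℕ) :
    |g (a, b + n) - g (a, b)| ≤ 4 * (n : ℝ) := by
  induction n with
  | zero => simp
  | succ n ih =>
    have h1 := h (a, b + n)
    have e : g (a, b + (n + 1)) - g (a, b) =
        (g (a, b + n + 1) - g (a, b + n)) + (g (a, b + n) - g (a, b)) := by
      rw [← add_assoc]; ring
    rw [e]
    refine (abs_add_le _ _).trans ?_
    push_cast
    have h2 : |g (a, b + n + 1) - g (a, b + n)| ≤ 4 := h1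
    linarith

lemma lip1 {g : ℕ × ℕ → ℝ} (h : ∀ z : ℕ × ℕ, |g (z.1 + 1, z.2) - g z| ≤ 4) (a a' b : ℕ) :
    |g (a, b) - g (a', b)| ≤ 4 * |(a : ℝ) - a'| := by
  rcases le_total a' a with hle | hle
  · obtain ⟨n, rfl⟩ := Nat.exists_eq_add_of_le hle
    have h1 := lip_add1 h a' b n
    have e : |((a' + n : ℕ) : ℝ) - a'| = (n : ℝ) := by
      push_cast
      rw [add_sub_cancel_left, abs_of_nonneg (Nat.cast_nonneg n)]
    rw [e]; exact h1
  · obtain ⟨n, rfl⟩ := Nat.exists_eq_add_of_le hle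
    have h1 := lip_add1 h a b n
    have e : |(a : ℝ) - ((a + n : ℕ) : ℝ)| = (n : ℝ) := by
      push_cast
      rw [sub_add_cancel_left, abs_neg, abs_of_nonneg (Nat.cast_nonneg n)]
    rw [e, abs_sub_comm]; exact h1

lemma lip2 {g : ℕ × ℕ → ℝ} (h : ∀ z : ℕ × ℕ, |g (z.1, z.2 + 1) - g z| ≤ 4) (a b b' : ℕ) :
    |g (a, b) - g (a, b')| ≤ 4 * |(b : ℝ) - b'| := by
  rcases le_total b' b with hle | hle
  · obtain ⟨n, rfl⟩ := Nat.exists_eq_add_of_le hle
    have h1 := lip_add2 h a b' n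
    have e : |((b' + n : ℕ) : ℝ) - b'| = (n : ℝ) := by
      push_cast
      rw [add_sub_cancel_left, abs_of_nonneg (Nat.cast_nonneg n)]
    rw [e]; exact h1
  · obtain ⟨n, rfl⟩ := Nat.exists_eq_add_of_le hle
    have h1 := lip_add2 h a b n
    have e : |(b : ℝ) - ((b + n : ℕ) : ℝ)| = (n : ℝ) := by
      push_cast
      rw [sub_add_cancel_left, abs_neg, abs_of_nonneg (Nat.cast_nonneg n)]
    rw [e, abs_sub_comm]; exact h1

lemma floor_lip (s t : ℝ) : |((⌊s⌋₊ : ℕ) : ℝ) - ((⌊t⌋₊ : ℕ) : ℝ)| ≤ |s - t| + 1 := by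
  have key : ∀ s t : ℝ, t ≤ s → |((⌊s⌋₊ : ℕ) : ℝ) - ((⌊t⌋₊ : ℕ) : ℝ)| ≤ |s - t| + 1 := by
    intro s t hts
    have h1 : ⌊t⌋₊ ≤ ⌊s⌋₊ := Nat.floor_mono hts
    have h1' : ((⌊t⌋₊ : ℕ) : ℝ) ≤ ((⌊s⌋₊ : ℕ) : ℝ) := by exact_mod_cast h1
    rw [abs_of_nonneg (sub_nonneg.2 h1'), abs_of_nonneg (sub_nonneg.2 hts)]
    rcases le_total 0 s with hs | hs
    · have h2 : ((⌊s⌋₊ : ℕ) : ℝ) ≤ s := Nat.floor_le hs
      have h3 : t < ((⌊t⌋₊ : ℕ) : ℝ) + 1 := Nat.lt_floor_add_one t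
      linarith
    · have h2 : ⌊s⌋₊ = 0 := Nat.floor_of_nonpos hs
      have h3 : (0 : ℝ) ≤ ((⌊t⌋₊ : ℕ) : ℝ) := Nat.cast_nonneg _
      rw [h2]
      push_cast
      linarith
  rcases le_total t s with h | h
  · exact key s t h
  · rw [abs_sub_comm, abs_sub_comm s t]; exact key t s h

lemma coord_le (x y : Pt) (i : Fin 2) : |x i - y i| ≤ dist x y := by
  have h := PiLp.norm_apply_le (x - y) i
  rw [dist_eq_norm]
  rw [← Real.norm_eq_abs]
  exact h

lemma G_lip {g : ℕ × ℕ → ℝ} (h1 : ∀ z : ℕ × ℕ, |g (z.1 + 1, z.2) - g z| ≤ 4)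
    (h2 : ∀ z : ℕ × ℕ, |g (z.1, z.2 + 1) - g z| ≤ 4) (x y : Pt) :
    |g (ix x) - g (ix y)| ≤ 8 * (dist x y + 1) := by
  have e1 := lip1 h1 ⌊x 0⌋₊ ⌊y 0⌋₊ ⌊x 1⌋₊
  have e2 := lip2 h2 ⌊y 0⌋₊ ⌊x 1⌋₊ ⌊y 1⌋₊
  have f1 := floor_lip (x 0) (y 0)
  have f2 := floor_lip (x 1) (y 1)
  have c1 := coord_le x y 0
  have c2 := coord_le x y 1
  have tri : |g (ix x) - g (ix y)| ≤
      |g (⌊x 0⌋₊, ⌊x 1⌋₊) - g (⌊y 0⌋₊, ⌊x 1⌋₊)| +
      |g (⌊y 0⌋₊, ⌊x 1⌋₊) - g (⌊y 0⌋₊, ⌊y 1⌋₊)| := abs_sub_le _ _ _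
  linarith

lemma g_le {g : ℕ × ℕ → ℝ} {N : ℕ} (h1 : ∀ z : ℕ × ℕ, |g (z.1 + 1, z.2) - g z| ≤ 4)
    (hb : ∀ z : ℕ × ℕ, z.1 = 0 ∨ z.2 = 0 ∨ N ≤ z.1 ∨ N ≤ z.2 → g z = 0) (z : ℕ × ℕ) :
    g z ≤ 4 * (N : ℝ) := by
  have hN : (0 : ℝ) ≤ (N : ℝ) := Nat.cast_nonneg N
  by_cases hz : N ≤ z.1
  · rw [hb z (Or.inr (Or.inr (Or.inl hz)))]
    linarith
  · push Not at hz
    have e := lip1 h1 z.1 0 z.2
    rw [hb (0, z.2) (Or.inl rfl), sub_zero, Nat.cast_zero, sub_zero,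
      abs_of_nonneg (Nat.cast_nonneg z.1 : (0 : ℝ) ≤ (z.1 : ℝ))] at e
    have h3 : (z.1 : ℝ) ≤ N := by exact_mod_cast hz.le
    have h4 : g z ≤ |g (z.1, z.2)| := le_abs_self _
    linarith

lemma min_le_sum {D : ℝ} (hD : 0 ≤ D) (N : ℕ) :
    min D (N : ℝ) ≤ ∑ j ∈ Finset.range N, (if (j : ℝ) < D then (1 : ℝ) else 0) := by
  classical
  induction N with
  | zero => simp
  | succ n ih =>
    rw [Finset.sum_range_succ]
    split_ifs with h
    · have e : min D (n : ℝ) = n := min_eq_right h.le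
      have e2 : min D ((n + 1 : ℕ) : ℝ) ≤ n + 1 := by
        push_cast
        exact min_le_right _ _
      rw [e] at ih
      linarith
    · push Not at h
      have e : min D (n : ℝ) = D := min_eq_left h
      rw [e] at ih
      have e2 : min D ((n + 1 : ℕ) : ℝ) ≤ D := min_le_left _ _
      linarith

open scoped Classical in
/-- the weight of a family -/
noncomputable def T (N : ℕ) (F : Finset Pt) : ℝ :=
  1 + ∑ j ∈ Finset.range N, (if (j : ℝ) < Metric.diam (F : Set Pt) then (1 : ℝ) else 0)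

lemma one_le_T (N : ℕ) (F : Finset Pt) : 1 ≤ T N F := by
  classical
  unfold T
  have : 0 ≤ ∑ j ∈ Finset.range N, (if (j : ℝ) < Metric.diam (F : Set Pt) then (1 : ℝ) else 0) :=
    Finset.sum_nonneg fun j _ => by split_ifs <;> norm_num
  linarith

lemma G_osc {g : ℕ × ℕ → ℝ} {N : ℕ} (h0 : ∀ z, 0 ≤ g z)
    (h1 : ∀ z : ℕ × ℕ, |g (z.1 + 1, z.2) - g z| ≤ 4)
    (h2 : ∀ z : ℕ × ℕ, |g (z.1, z.2 + 1) - g z| ≤ 4)
    (hb : ∀ z : ℕ × ℕ, z.1 = 0 ∨ z.2 = 0 ∨ N ≤ z.1 ∨ N ≤ z.2 → g z = 0)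
    (F : Finset Pt) {x y : Pt} (hx : x ∈ F) (hy : y ∈ F) :
    |g (ix x) - g (ix y)| ≤ 8 * T N F := by
  classical
  have hD : dist x y ≤ Metric.diam (F : Set Pt) :=
    Metric.dist_le_diam_of_mem F.finite_toSet.isBounded hx hy
  have a1 := G_lip h1 h2 x y
  have a2 : |g (ix x) - g (ix y)| ≤ 4 * (N : ℝ) := by
    rw [abs_le]
    have b1 := h0 (ix x)
    have b2 := h0 (ix y)
    have b3 := g_le h1 hb (ix x)
    have b4 := g_le h1 hb (ix y)
    constructor <;> linarith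
  have hN : (0 : ℝ) ≤ (N : ℝ) := Nat.cast_nonneg N
  have a3 : |g (ix x) - g (ix y)| ≤ 8 * (1 + min (Metric.diam (F : Set Pt)) (N : ℝ)) := by
    rcases le_total (Metric.diam (F : Set Pt)) (N : ℝ) with h | h
    · rw [min_eq_left h]
      linarith
    · rw [min_eq_right h]
      linarith
  have a4 := min_le_sum (Metric.diam_nonneg (s := (F : Set Pt))) N
  unfold T
  linarith

/-- the sum over the cells as a sum over the points -/
lemma sum_cells {K : ℕ} (P : Finset Pt) (U : Set Pt)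
    (hP : ∀ x, x ∈ P ↔ x ∈ U ∧ 0 ≤ x 0 ∧ 0 ≤ x 1 ∧
      ix x ∈ Finset.range (2 ^ K) ×ˢ Finset.range (2 ^ K))
    (A : Set Pt) [DecidablePred (· ∈ A)] (hA : A ⊆ U) (f : ℕ × ℕ → ℝ) :
    ∑ m ∈ Finset.range (2 ^ K) ×ˢ Finset.range (2 ^ K),
      (((A ∩ cell m).encard.toNat : ℕ) : ℝ) * f m = ∑ x ∈ P, if x ∈ A then f (ix x) else 0 := by
  classical
  rw [← Finset.sum_fiberwise_of_maps_to
    (s := P) (t := Finset.range (2 ^ K) ×ˢ Finset.range (2 ^ K)) (g := ix)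
    (fun x hx => ((hP x).1 hx).2.2.2)]
  refine Finset.sum_congr rfl fun m hm => ?_
  have e : A ∩ cell m = ((P.filter (fun x => ix x = m)).filter (fun x => x ∈ A) : Finset Pt) := by
    ext x
    simp only [Set.mem_inter_iff, Finset.coe_filter, Finset.mem_filter]
    constructor
    · rintro ⟨hxA, hxc⟩
      obtain ⟨e1, e2, e3⟩ := mem_cell.1 hxc
      exact ⟨⟨(hP x).2 ⟨hA hxA, e1, e2, e3 ▸ hm⟩, e3⟩, hxA⟩
    · rintro ⟨⟨h1, h2⟩, h3⟩
      obtain ⟨_, e1, e2, _⟩ := (hP x).1 h1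
      exact ⟨h3, mem_cell.2 ⟨e1, e2, h2⟩⟩
  rw [e, Set.encard_coe_eq_coe_finsetCard, ENat.toNat_natCast, ← Finset.sum_filter]
  rw [Finset.sum_congr rfl (g := fun _ => f m), Finset.sum_const, nsmul_eq_mul]
  intro x hx
  rw [Finset.mem_filter, Finset.mem_filter] at hx
  rw [hx.1.2]

end DetAux

open DetAux

theorem det : S_DET := by
  classical
  intro q l V hV
  set C0 : ℝ := ∑ v ∈ V, ∑ i, |l i| * (v i : ℝ) with hC0
  have hC0n : 0 ≤ C0 := Finset.sum_nonneg fun v _ => Finset.sum_nonneg fun i _ =>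
    mul_nonneg (abs_nonneg _) (Nat.cast_nonneg _)
  refine ⟨8 * (1 + C0), by linarith, ?_⟩
  intro S M K g hfin hsub hdisj hcov htype hg0 hg1 hg2 hgb
  set box := Finset.range (2 ^ K) ×ˢ Finset.range (2 ^ K) with hbox
  set U : Set Pt := ⋃ i, S i with hU
  -- the points in the box
  have hPfin : {x : Pt | x ∈ U ∧ 0 ≤ x 0 ∧ 0 ≤ x 1 ∧ ix x ∈ box}.Finite := by
    have h1 : (⋃ m ∈ box, ⋃ i, (S i ∩ cell m)).Finite := by
      refine Set.Finite.biUnion box.finite_toSet fun m hm => ?_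
      refine Set.finite_iUnion fun i => ?_
      have hm' : m ∈ box := hm
      rw [hbox, Finset.mem_product, Finset.mem_range, Finset.mem_range] at hm'
      exact hfin i m hm'.1 hm'.2
    refine h1.subset ?_
    rintro x ⟨hx, h0, h1, h2⟩
    obtain ⟨i, hi⟩ := Set.mem_iUnion.1 hx
    refine Set.mem_iUnion₂.2 ⟨ix x, h2, Set.mem_iUnion.2 ⟨i, hi, mem_cell.2 ⟨h0, h1, rfl⟩⟩⟩
  set P : Finset Pt := hPfin.toFinset with hPdef
  have hP : ∀ x, x ∈ P ↔ x ∈ U ∧ 0 ≤ x 0 ∧ 0 ≤ x 1 ∧ ix x ∈ box := by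
    intro x
    rw [hPdef, Set.Finite.mem_toFinset]
    exact Iff.rfl
  choose! Fx hFx using hcov
  -- the colour weight of a point
  set a : Pt → ℝ := fun x => ∑ i, (if x ∈ S i then l i else 0) with ha
  -- left side
  have hL : ∑ m ∈ box, (∑ i, l i * (((S i ∩ cell m).encard.toNat : ℕ) : ℝ)) * g m =
      ∑ x ∈ P, a x * g (ix x) := by
    have e1 : ∀ m, (∑ i, l i * (((S i ∩ cell m).encard.toNat : ℕ) : ℝ)) * g m =
        ∑ i, l i * ((((S i ∩ cell m).encard.toNat : ℕ) : ℝ) * g m) := by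
      intro m
      rw [Finset.sum_mul]
      refine Finset.sum_congr rfl fun i _ => ?_
      ring
    rw [Finset.sum_congr rfl fun m _ => e1 m, Finset.sum_comm]
    have e2 : ∀ i, ∑ m ∈ box, l i * ((((S i ∩ cell m).encard.toNat : ℕ) : ℝ) * g m) =
        ∑ x ∈ P, (if x ∈ S i then l i else 0) * g (ix x) := by
      intro i
      rw [← Finset.mul_sum, hbox, sum_cells P U hP (S i) (Set.subset_iUnion S i) g, Finset.mul_sum]
      refine Finset.sum_congr rfl fun x _ => ?_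
      split_ifs
      · rfl
      · ring
    rw [Finset.sum_congr rfl fun i _ => e2 i, Finset.sum_comm]
    refine Finset.sum_congr rfl fun x _ => ?_
    rw [ha]
    beta_reduce
    rw [Finset.sum_mul]
  -- right side
  have hR : ∑ x ∈ P, T (2 ^ K) (Fx x) ≤
      ∑ m ∈ box, ((((U ∩ cell m).encard.toNat : ℕ) : ℝ) +
            ∑ j ∈ Finset.range (2 ^ K), (((longPts S M m j).encard.toNat : ℕ) : ℝ)) := by
    have e0 : ∑ m ∈ box, (((U ∩ cell m).encard.toNat : ℕ) : ℝ) = ∑ x ∈ P, (1 : ℝ) := by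
      have h := sum_cells (K := K) P U hP U subset_rfl (fun _ => 1)
      rw [← hbox] at h
      simp only [mul_one] at h
      rw [h]
      refine Finset.sum_congr rfl fun x hx => ?_
      rw [if_pos ((hP x).1 hx).1]
    have e1 : ∀ j : ℕ, ∑ x ∈ P, (if (j : ℝ) < Metric.diam (Fx x : Set Pt) then (1 : ℝ) else 0) ≤
        ∑ m ∈ box, (((longPts S M m j).encard.toNat : ℕ) : ℝ) := by
      intro j
      set L : Set Pt := {x | x ∈ U ∧ ∃ F ∈ M, x ∈ F ∧ (j : ℝ) < Metric.diam (F : Set Pt)} with hLdef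
      have hLm : ∀ m, longPts S M m j = L ∩ cell m := by
        intro m
        ext x
        constructor
        · rintro ⟨h1, h2, h3⟩
          exact ⟨⟨h2, h3⟩, h1⟩
        · rintro ⟨⟨h2, h3⟩, h1⟩
          exact ⟨h1, h2, h3⟩
      have h := sum_cells (K := K) P U hP L (fun x hx => hx.1) (fun _ => 1)
      rw [← hbox] at h
      simp only [mul_one] at h
      have h' : ∑ m ∈ box, (((longPts S M m j).encard.toNat : ℕ) : ℝ) =
          ∑ x ∈ P, (if x ∈ L then (1 : ℝ) else 0) := by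
        rw [← h]
        refine Finset.sum_congr rfl fun m _ => ?_
        rw [hLm m]
      rw [h']
      refine Finset.sum_le_sum fun x hx => ?_
      have hxU := ((hP x).1 hx).1
      by_cases hj : (j : ℝ) < Metric.diam (Fx x : Set Pt)
      · have hxL : x ∈ L := ⟨hxU, Fx x, (hFx x hxU).1, (hFx x hxU).2, hj⟩
        rw [if_pos hj, if_pos hxL]
      · rw [if_neg hj]
        split_ifs <;> norm_num
    rw [Finset.sum_add_distrib, e0, Finset.sum_comm (s := box)]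
    unfold T
    rw [Finset.sum_add_distrib, Finset.sum_comm (s := P)]
    exact add_le_add le_rfl (Finset.sum_le_sum fun j _ => e1 j)
  -- one family
  have hfam : ∀ F ∈ P.image Fx,
      -(8 * C0 * T (2 ^ K) F) ≤ ∑ x ∈ P with Fx x = F, a x * g (ix x) := by
    intro F hF
    obtain ⟨x₀, hx₀P, rfl⟩ := Finset.mem_image.1 hF
    have hx₀U := ((hP x₀).1 hx₀P).1
    obtain ⟨hFM, hx₀F⟩ := hFx x₀ hx₀U
    set F := Fx x₀ with hFdef
    have hext : ∑ x ∈ P with Fx x = F, a x * g (ix x) = ∑ x ∈ F, a x * g (ix x) := by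
      refine Finset.sum_subset ?_ ?_
      · intro x hx
        rw [Finset.mem_filter] at hx
        have := (hFx x ((hP x).1 hx.1).1).2
        rw [hx.2] at this
        exact this
      · intro x hxF hx
        have hxU : x ∈ U := (hsub F hFM).2 hxF
        have hFeq : Fx x = F := by
          by_contra hne
          have hd := hdisj (Fx x) (hFx x hxU).1 F hFM hne
          exact Set.disjoint_left.1 hd (hFx x hxU).2 hxF
        have hxP : x ∉ P := fun h => hx (Finset.mem_filter.2 ⟨h, hFeq⟩)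
        have hg : g (ix x) = 0 := by
          rw [hP x] at hxP
          by_cases c1 : 0 ≤ x 0
          · by_cases c2 : 0 ≤ x 1
            · have c3 : ix x ∉ box := fun h => hxP ⟨hxU, c1, c2, h⟩
              rw [hbox, Finset.mem_product, Finset.mem_range, Finset.mem_range, not_and_or] at c3
              push Not at c3
              rcases c3 with c3 | c3
              · exact hgb _ (Or.inr (Or.inr (Or.inl c3)))
              · exact hgb _ (Or.inr (Or.inr (Or.inr c3)))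
            · push Not at c2
              exact hgb _ (Or.inr (Or.inl (Nat.floor_of_nonpos c2.le)))
          · push Not at c1
            exact hgb _ (Or.inl (Nat.floor_of_nonpos c1.le))
        rw [hg, mul_zero]
    rw [hext]
    obtain ⟨v, hvV, hv⟩ := htype F hFM
    -- counting
    have hcount : ∀ w : Fin q → ℝ, ∑ x ∈ F, ∑ i, (if x ∈ S i then w i else 0) =
        ∑ i, w i * (v i : ℝ) := by
      intro w
      rw [Finset.sum_comm]
      refine Finset.sum_congr rfl fun i _ => ?_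
      rw [← Finset.sum_filter, Finset.sum_const, nsmul_eq_mul, mul_comm]
      congr 1
      have e : ((F : Set Pt) ∩ S i) = ((F.filter (fun x => x ∈ S i) : Finset Pt) : Set Pt) := by
        ext x
        simp only [Set.mem_inter_iff, Finset.coe_filter, Finset.mem_coe]
        exact Iff.rfl
      rw [← hv i, e, Set.ncard_coe_finset]
    have hsplit : ∑ x ∈ F, a x * g (ix x) =
        g (ix x₀) * ∑ i, l i * (v i : ℝ) + ∑ x ∈ F, a x * (g (ix x) - g (ix x₀)) := by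
      rw [← hcount l, Finset.mul_sum, ← Finset.sum_add_distrib]
      refine Finset.sum_congr rfl fun x _ => ?_
      rw [ha]
      ring
    have hfirst : 0 ≤ g (ix x₀) * ∑ i, l i * (v i : ℝ) := mul_nonneg (hg0 _) (hV v hvV)
    have hgb' : ∀ z : ℕ × ℕ, z.1 = 0 ∨ z.2 = 0 ∨ 2 ^ K ≤ z.1 ∨ 2 ^ K ≤ z.2 → g z = 0 := hgb
    have hT : 0 ≤ T (2 ^ K) F := by linarith [one_le_T (2 ^ K) F]
    have hsecond : |∑ x ∈ F, a x * (g (ix x) - g (ix x₀))| ≤ 8 * C0 * T (2 ^ K) F := by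
      refine (Finset.abs_sum_le_sum_abs _ _).trans ?_
      have hterm : ∀ x ∈ F, |a x * (g (ix x) - g (ix x₀))| ≤
          (∑ i, (if x ∈ S i then |l i| else 0)) * (8 * T (2 ^ K) F) := by
        intro x hx
        rw [abs_mul]
        have hosc := G_osc hg0 hg1 hg2 hgb' F hx hx₀F
        have haabs : |a x| ≤ ∑ i, (if x ∈ S i then |l i| else 0) := by
          rw [ha]
          beta_reduce
          refine (Finset.abs_sum_le_sum_abs _ _).trans (Finset.sum_le_sum fun i _ => ?_)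
          split_ifs
          · exact le_rfl
          · rw [abs_zero]
        exact mul_le_mul haabs hosc (abs_nonneg _) (le_trans (abs_nonneg _) haabs)
      refine (Finset.sum_le_sum hterm).trans ?_
      rw [← Finset.sum_mul, hcount (fun i => |l i|)]
      have hle : ∑ i, |l i| * (v i : ℝ) ≤ C0 :=
        Finset.single_le_sum (f := fun v : Fin q → ℕ => ∑ i, |l i| * (v i : ℝ))
          (fun w _ => Finset.sum_nonneg fun i _ => mul_nonneg (abs_nonneg _) (Nat.cast_nonneg _)) hvV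
      have := mul_le_mul_of_nonneg_right hle (by linarith : (0 : ℝ) ≤ 8 * T (2 ^ K) F)
      linarith
    rw [hsplit]
    have := (abs_le.1 hsecond).1
    linarith
  -- conclusion
  have hmain : -∑ x ∈ P, a x * g (ix x) ≤ 8 * C0 * ∑ x ∈ P, T (2 ^ K) (Fx x) := by
    have s1 : ∑ x ∈ P, a x * g (ix x) =
        ∑ F ∈ P.image Fx, ∑ x ∈ P with Fx x = F, a x * g (ix x) :=
      (Finset.sum_fiberwise_of_maps_to (fun x hx => Finset.mem_image_of_mem _ hx) _).symm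
    have s2 : ∑ x ∈ P, T (2 ^ K) (Fx x) =
        ∑ F ∈ P.image Fx, ∑ x ∈ P with Fx x = F, T (2 ^ K) (Fx x) :=
      (Finset.sum_fiberwise_of_maps_to (fun x hx => Finset.mem_image_of_mem _ hx) _).symm
    rw [s1, s2, ← Finset.sum_neg_distrib, Finset.mul_sum]
    refine Finset.sum_le_sum fun F hF => ?_
    have h1 := hfam F hF
    have h2 : T (2 ^ K) F ≤ ∑ x ∈ P with Fx x = F, T (2 ^ K) (Fx x) := by
      obtain ⟨x₀, hx₀P, hx₀⟩ := Finset.mem_image.1 hF
      have hmem : x₀ ∈ P.filter (fun x => Fx x = F) := Finset.mem_filter.2 ⟨hx₀P, hx₀⟩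
      have := Finset.single_le_sum (f := fun x => T (2 ^ K) (Fx x))
        (fun x _ => le_trans zero_le_one (one_le_T (2 ^ K) (Fx x))) hmem
      beta_reduce at this
      rw [hx₀] at this
      exact this
    have h3 : 8 * C0 * T (2 ^ K) F ≤ 8 * C0 * ∑ x ∈ P with Fx x = F, T (2 ^ K) (Fx x) :=
      mul_le_mul_of_nonneg_left h2 (by linarith)
    linarith
  have hTn : 0 ≤ ∑ x ∈ P, T (2 ^ K) (Fx x) :=
    Finset.sum_nonneg fun x _ => le_trans zero_le_one (one_le_T (2 ^ K) (Fx x))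
  rw [hL]
  calc -∑ x ∈ P, a x * g (ix x) ≤ 8 * C0 * ∑ x ∈ P, T (2 ^ K) (Fx x) := hmain
    _ ≤ 8 * (1 + C0) * ∑ x ∈ P, T (2 ^ K) (Fx x) :=
        mul_le_mul_of_nonneg_right (by linarith) hTn
    _ ≤ _ := mul_le_mul_of_nonneg_left hR (by linarith)

end Pool.Agent.R228.MM
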