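import Pool.Agent.R228.MM.Stm

/-!
# Piece MM-DIAM: measurability of the diameter of a finite set
-/

namespace Pool.Agent.R228.MM

open MeasureTheory Set

namespace DiamAux

/-- the class of the finite sets which meet a Borel set is measurable -/
theorem meets_meas (B : Set Pt) (hB : MeasurableSet B) :
    MeasurableSet[famSpace] {F : Finset Pt | ((F : Set Pt) ∩ B).Nonempty} := by
  have h1 : MeasurableSpace.comap (fun F : Finset Pt => ((F : Set Pt) ∩ B).encard) ⊤ ≤
      famSpace :=
    le_iSup (fun B : {B : Set Pt // MeasurableSet B} =>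
      MeasurableSpace.comap (fun F : Finset Pt => ((F : Set Pt) ∩ B.1).encard) ⊤) ⟨B, hB⟩
  apply h1
  refine ⟨{0}ᶜ, trivial, ?_⟩
  ext F
  simp [Set.nonempty_iff_ne_empty]

end DiamAux

open DiamAux in
/-- MM-DIAM -/
theorem diam_meas : S_DIAM := by
  intro r
  rcases lt_or_ge r 0 with hr | hr
  · have h : {F : Finset Pt | r < Metric.diam (F : Set Pt)} = Set.univ := by
      ext F
      simp only [Set.mem_ofPred_eq, Set.mem_univ, iff_true]
      exact hr.trans_le Metric.diam_nonneg
    rw [h]
    exact @MeasurableSet.univ _ famSpace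
  · set a : ℕ → Pt := TopologicalSpace.denseSeq Pt with ha
    have hdense : DenseRange a := TopologicalSpace.denseRange_denseSeq Pt
    have h : {F : Finset Pt | r < Metric.diam (F : Set Pt)} =
        ⋃ i : ℕ, ⋃ j : ℕ, ⋃ n : ℕ, ⋃ _ : r + 2 * (1 / ((n : ℝ) + 1)) < dist (a i) (a j),
          ({F : Finset Pt | ((F : Set Pt) ∩ Metric.ball (a i) (1 / ((n : ℝ) + 1))).Nonempty} ∩
          {F : Finset Pt | ((F : Set Pt) ∩ Metric.ball (a j) (1 / ((n : ℝ) + 1))).Nonempty}) := by
      ext F
      simp only [Set.mem_ofPred_eq, Set.mem_iUnion, Set.mem_inter_iff, exists_prop]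
      constructor
      · intro hF
        have h1 : ∃ x ∈ (F : Set Pt), ∃ y ∈ (F : Set Pt), r < dist x y := by
          by_contra hcon
          push Not at hcon
          exact absurd hF (not_lt.mpr (Metric.diam_le_of_forall_dist_le hr hcon))
        obtain ⟨x, hx, y, hy, hxy⟩ := h1
        obtain ⟨n, hn⟩ := exists_nat_one_div_lt (show (0 : ℝ) < (dist x y - r) / 4 by linarith)
        have hpos : (0 : ℝ) < 1 / ((n : ℝ) + 1) := by positivity
        obtain ⟨i, hi⟩ := hdense.exists_dist_lt x hpos
        obtain ⟨j, hj⟩ := hdense.exists_dist_lt y hpos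
        refine ⟨i, j, n, ?_, ⟨x, hx, ?_⟩, ⟨y, hy, ?_⟩⟩
        · have h2 := dist_triangle4 x (a i) (a j) y
          rw [dist_comm (a j) y] at h2
          linarith
        · exact hi
        · exact hj
      · rintro ⟨i, j, n, h1, ⟨x, hx, hx2⟩, ⟨y, hy, hy2⟩⟩
        rw [Metric.mem_ball] at hx2 hy2
        have h2 := dist_triangle4 (a i) x y (a j)
        rw [dist_comm (a i) x] at h2
        have h3 : dist x y ≤ Metric.diam (F : Set Pt) :=
          Metric.dist_le_diam_of_mem F.finite_toSet.isBounded hx hy
        linarith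
    rw [h]
    refine @MeasurableSet.iUnion _ _ famSpace _ _ fun i => ?_
    refine @MeasurableSet.iUnion _ _ famSpace _ _ fun j => ?_
    refine @MeasurableSet.iUnion _ _ famSpace _ _ fun n => ?_
    refine @MeasurableSet.iUnion _ _ famSpace _ _ fun _ => ?_
    exact @MeasurableSet.inter _ famSpace _ _ (meets_meas _ measurableSet_ball)
      (meets_meas _ measurableSet_ball)

end Pool.Agent.R228.MM
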