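import Pool.Agent.R228.MM.Stm

/-!
# MM-FIN: the final calculus
-/

namespace Pool.Agent.R228.MM

open MeasureTheory ProbabilityTheory Filter Set
open scoped ENNReal Topology

theorem fin_sum (T : ℝ → ℝ≥0∞) (hT : Antitone T) (N : ℕ) :
    ∑ j ∈ Finset.range N, T ((j : ℝ) + 1) ≤ ∫⁻ r in Set.Ioc (0 : ℝ) N, T r := by
  induction N with
  | zero => simp
  | succ N ih =>
    have hun : Set.Ioc (0 : ℝ) ((N + 1 : ℕ) : ℝ) = Set.Ioc (0 : ℝ) N ∪ Set.Ioc (N : ℝ) (N + 1) := by
      rw [Set.Ioc_union_Ioc_eq_Ioc (by positivity) (by linarith)]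
      push_cast
      rfl
    have hdis : Disjoint (Set.Ioc (0 : ℝ) N) (Set.Ioc (N : ℝ) (N + 1)) := by
      rw [Set.disjoint_left]
      intro x hx hx'
      exact absurd hx.2 (not_le.mpr hx'.1)
    rw [hun, lintegral_union measurableSet_Ioc hdis, Finset.sum_range_succ]
    refine add_le_add ih ?_
    calc T ((N : ℝ) + 1) = ∫⁻ _ in Set.Ioc (N : ℝ) (N + 1), T ((N : ℝ) + 1) := by
          rw [setLIntegral_const, Real.volume_Ioc]
          simp
      _ ≤ ∫⁻ r in Set.Ioc (N : ℝ) (N + 1), T r :=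
          setLIntegral_mono' measurableSet_Ioc fun x hx => hT hx.2

theorem fin_sum' (T : ℝ → ℝ≥0∞) (hT : Antitone T) (h1 : ∀ r, T r ≤ 1) (N : ℕ) :
    ∑ j ∈ Finset.range N, T (j : ℝ) ≤ (∫⁻ r in Set.Ioc (0 : ℝ) N, T r) + 1 := by
  have h : ∑ j ∈ Finset.range N, T (j : ℝ) ≤ ∑ j ∈ Finset.range (N + 1), T (j : ℝ) :=
    Finset.sum_le_sum_of_subset (Finset.range_mono (Nat.le_succ N))
  refine h.trans ?_
  rw [Finset.sum_range_succ']
  refine add_le_add ?_ (h1 _)
  have := fin_sum T hT N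
  push_cast
  exact this

theorem fin_low (c1 : ℝ) (hc1 : 0 < c1) (T : ℝ → ℝ≥0∞) (hT : Antitone T) (h1 : ∀ r, T r ≤ 1)
    (hK : ∀ K : ℕ, 2 ≤ K →
      ENNReal.ofReal (c1 * √K) ≤ (∑ j ∈ Finset.range (2 ^ K), T j) + 1)
    (R : ℝ) (hR4 : 4 ≤ R) (hR : 64 / c1 ^ 2 ≤ Real.log R) :
    ENNReal.ofReal (c1 / 4 * √(Real.log R)) ≤ ∫⁻ r in Set.Ioc 0 R, T r := by
  set K := Nat.log 2 ⌊R⌋₊ with hKdef
  have hR0 : (0 : ℝ) < R := by linarith
  have hfl : 4 ≤ ⌊R⌋₊ := Nat.le_floor (by exact_mod_cast hR4)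
  have hKtwo : 2 ≤ K := by
    rw [hKdef]
    have : Nat.log 2 4 ≤ Nat.log 2 ⌊R⌋₊ := Nat.log_mono_right hfl
    have h4 : Nat.log 2 4 = 2 := by
      rw [show (4 : ℕ) = 2 ^ 2 by norm_num]
      exact Nat.log_pow (by norm_num) 2
    omega
  have hpow : (2 : ℕ) ^ K ≤ ⌊R⌋₊ := Nat.pow_log_le_self 2 (by omega)
  have hpowR : ((2 ^ K : ℕ) : ℝ) ≤ R := by
    refine le_trans ?_ (Nat.floor_le hR0.le)
    exact_mod_cast hpow
  have hlt : R < 2 ^ (K + 1) := by
    have h2 : ⌊R⌋₊ < 2 ^ (K + 1) := Nat.lt_pow_succ_log_self (by norm_num) _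
    have h3 : R < (⌊R⌋₊ : ℝ) + 1 := Nat.lt_floor_add_one R
    have h4 : ((⌊R⌋₊ + 1 : ℕ) : ℝ) ≤ ((2 ^ (K + 1) : ℕ) : ℝ) := by exact_mod_cast h2
    push_cast at h4
    linarith
  have hlog : Real.log R ≤ 4 * K := by
    have h5 : Real.log R < Real.log (2 ^ (K + 1)) := Real.log_lt_log hR0 hlt
    rw [Real.log_pow] at h5
    have h6 : Real.log 2 ≤ 1 := by
      have := Real.log_two_lt_d9
      linarith
    have h7 : ((K + 1 : ℕ) : ℝ) * Real.log 2 ≤ ((K + 1 : ℕ) : ℝ) * 1 :=
      mul_le_mul_of_nonneg_left h6 (by positivity)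
    have h8 : (2 : ℝ) ≤ K := by exact_mod_cast hKtwo
    push_cast at h7 h5
    linarith
  have hsq : √(Real.log R) ≤ 2 * √K := by
    have h9 : √(Real.log R) ≤ √(4 * K) := Real.sqrt_le_sqrt hlog
    have h10 : √(4 * (K : ℝ)) = 2 * √K := by
      rw [Real.sqrt_mul (by norm_num)]
      congr 1
      rw [show (4 : ℝ) = 2 ^ 2 by norm_num]
      exact Real.sqrt_sq (by norm_num)
    linarith
  have hbig : 8 / c1 ≤ √(Real.log R) := by
    apply Real.le_sqrt_of_sq_le
    have : (8 / c1) ^ 2 = 64 / c1 ^ 2 := by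
      rw [div_pow]; norm_num
    linarith
  have hbig' : 8 ≤ c1 * √(Real.log R) := by
    rw [div_le_iff₀ hc1] at hbig
    linarith
  have hreal : c1 / 4 * √(Real.log R) ≤ c1 * √K - 2 := by
    have : c1 * √(Real.log R) ≤ c1 * (2 * √K) := mul_le_mul_of_nonneg_left hsq hc1.le
    linarith
  calc ENNReal.ofReal (c1 / 4 * √(Real.log R)) ≤ ENNReal.ofReal (c1 * √K - 2) :=
        ENNReal.ofReal_le_ofReal hreal
    _ = ENNReal.ofReal (c1 * √K) - ENNReal.ofReal 2 := ENNReal.ofReal_sub _ (by norm_num)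
    _ ≤ ∫⁻ r in Set.Ioc 0 R, T r := by
        rw [tsub_le_iff_right]
        refine (hK K hKtwo).trans ?_
        have h11 := fin_sum' T hT h1 (2 ^ K)
        have h12 : ∫⁻ r in Set.Ioc (0 : ℝ) ((2 ^ K : ℕ) : ℝ), T r ≤ ∫⁻ r in Set.Ioc 0 R, T r :=
          lintegral_mono_set (Set.Ioc_subset_Ioc_right hpowR)
        have h13 : ENNReal.ofReal 2 = 1 + 1 := by
          rw [show (2 : ℝ) = 1 + 1 by norm_num, ENNReal.ofReal_add (by norm_num) (by norm_num)]
          simp
        rw [h13, ← add_assoc]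
        exact add_le_add (h11.trans (add_le_add h12 le_rfl)) le_rfl

theorem fin_tendsto : Tendsto (fun r : ℝ => √(Real.log r)) atTop atTop :=
  Real.tendsto_sqrt_atTop.comp Real.tendsto_log_atTop

theorem fin_int (c a R : ℝ) (hc : 0 ≤ c) (ha : 3 ≤ a) (haR : a ≤ R) :
    ∫⁻ r in Set.Ioc a R, ENNReal.ofReal (c / (r * √(Real.log r))) ≤
      ENNReal.ofReal (2 * c * √(Real.log R)) := by
  have hderiv : ∀ r ∈ Set.uIcc a R,
      HasDerivAt (fun r : ℝ => 2 * c * √(Real.log r)) (c / (r * √(Real.log r))) r := by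
    intro r hr
    rw [Set.uIcc_of_le haR] at hr
    have hr3 : 3 ≤ r := ha.trans hr.1
    have hlog : 0 < Real.log r := Real.log_pos (by linarith)
    have h1 := (Real.hasDerivAt_log (show r ≠ 0 by linarith)).sqrt hlog.ne'
    have h2 := h1.const_mul (2 * c)
    have hs : √(Real.log r) ≠ 0 := (Real.sqrt_pos.mpr hlog).ne'
    have hr0 : r ≠ 0 := by linarith
    have h3 : 2 * c * (r⁻¹ / (2 * √(Real.log r))) = c / (r * √(Real.log r)) := by
      field_simp
    rw [h3] at h2
    exact h2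
  have hcont : ContinuousOn (fun r : ℝ => c / (r * √(Real.log r))) (Set.uIcc a R) := by
    intro r hr
    rw [Set.uIcc_of_le haR] at hr
    have hr3 : 3 ≤ r := ha.trans hr.1
    have hlog : 0 < Real.log r := Real.log_pos (by linarith)
    have hs : √(Real.log r) ≠ 0 := (Real.sqrt_pos.mpr hlog).ne'
    have hr0 : r ≠ 0 := by linarith
    apply ContinuousAt.continuousWithinAt
    refine ContinuousAt.div continuousAt_const ?_ (mul_ne_zero hr0 hs)
    exact continuousAt_id.mul ((Real.continuousAt_log hr0).sqrt)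
  have hii : IntervalIntegrable (fun r : ℝ => c / (r * √(Real.log r))) volume a R :=
    hcont.intervalIntegrable
  have hint := intervalIntegral.integral_eq_sub_of_hasDerivAt hderiv hii
  have hio : IntegrableOn (fun r : ℝ => c / (r * √(Real.log r))) (Set.Ioc a R) volume :=
    (intervalIntegrable_iff_integrableOn_Ioc_of_le haR).mp hii
  rw [← ofReal_integral_eq_lintegral_ofReal hio]
  · rw [← intervalIntegral.integral_of_le haR, hint]
    apply ENNReal.ofReal_le_ofReal
    have : 0 ≤ 2 * c * √(Real.log a) := by positivity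
    linarith
  · rw [Filter.EventuallyLE, ae_restrict_iff' measurableSet_Ioc]
    refine Filter.Eventually.of_forall fun r hr => ?_
    have hr3 : 3 ≤ r := ha.trans hr.1.le
    have : 0 ≤ r * √(Real.log r) := mul_nonneg (by linarith) (Real.sqrt_nonneg _)
    exact div_nonneg hc this

theorem fin : S_FIN := by
  intro c1 hc1
  refine ⟨c1 / 16, max 4 (Real.exp (64 / c1 ^ 2)), by positivity, ?_⟩
  intro T hT h1 hK
  have hlow : ∀ R : ℝ, max 4 (Real.exp (64 / c1 ^ 2)) ≤ R →
      ENNReal.ofReal (c1 / 4 * √(Real.log R)) ≤ ∫⁻ r in Set.Ioc 0 R, T r := by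
    intro R hR
    have hR4 : 4 ≤ R := (le_max_left _ _).trans hR
    have hRe : Real.exp (64 / c1 ^ 2) ≤ R := (le_max_right _ _).trans hR
    refine fin_low c1 hc1 T hT h1 hK R hR4 ?_
    rw [Real.le_log_iff_exp_le (by linarith)]
    exact hRe
  have hfreq : ∃ᶠ r in atTop, ENNReal.ofReal (c1 / 16 / (r * √(Real.log r))) ≤ T r := by
    intro hcon
    simp only [not_le] at hcon
    obtain ⟨r1, hr1⟩ := Filter.eventually_atTop.mp hcon
    set a := max 3 r1 with ha
    have ha3 : 3 ≤ a := le_max_left _ _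
    -- choose R large
    have hev1 : ∀ᶠ R : ℝ in atTop, a / (c1 / 8) < √(Real.log R) :=
      fin_tendsto.eventually_gt_atTop _
    obtain ⟨R, hR1, hR2, hR3⟩ := (hev1.and ((eventually_ge_atTop a).and
      (eventually_ge_atTop (max 4 (Real.exp (64 / c1 ^ 2)))))).exists
    have hL := hlow R hR3
    have hun : Set.Ioc (0 : ℝ) R = Set.Ioc (0 : ℝ) a ∪ Set.Ioc a R := by
      rw [Set.Ioc_union_Ioc_eq_Ioc (by linarith) hR2]
    have hdis : Disjoint (Set.Ioc (0 : ℝ) a) (Set.Ioc a R) := by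
      rw [Set.disjoint_left]
      intro x hx hx'
      exact absurd hx.2 (not_le.mpr hx'.1)
    rw [hun, lintegral_union measurableSet_Ioc hdis] at hL
    have hA : ∫⁻ r in Set.Ioc (0 : ℝ) a, T r ≤ ENNReal.ofReal a := by
      calc ∫⁻ r in Set.Ioc (0 : ℝ) a, T r ≤ ∫⁻ _ in Set.Ioc (0 : ℝ) a, 1 :=
            setLIntegral_mono' measurableSet_Ioc fun x _ => h1 x
        _ = ENNReal.ofReal a := by
            rw [setLIntegral_const, Real.volume_Ioc]
            simp
    have hB : ∫⁻ r in Set.Ioc a R, T r ≤ ENNReal.ofReal (2 * (c1 / 16) * √(Real.log R)) := by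
      refine le_trans ?_ (fin_int (c1 / 16) a R (by positivity) ha3 hR2)
      refine setLIntegral_mono' measurableSet_Ioc fun x hx => ?_
      exact (hr1 x ((le_max_right _ _).trans hx.1.le)).le
    have hC : ENNReal.ofReal (c1 / 4 * √(Real.log R)) ≤
        ENNReal.ofReal (a + 2 * (c1 / 16) * √(Real.log R)) := by
      rw [ENNReal.ofReal_add (by linarith) (by positivity)]
      exact hL.trans (add_le_add hA hB)
    have hD : c1 / 4 * √(Real.log R) ≤ a + 2 * (c1 / 16) * √(Real.log R) := by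
      rwa [ENNReal.ofReal_le_ofReal_iff (by positivity)] at hC
    have hE : a < c1 / 8 * √(Real.log R) := by
      rw [div_lt_iff₀ (by positivity)] at hR1
      linarith
    linarith
  refine ⟨?_, hfreq, ?_⟩
  · intro R hR
    refine le_trans (ENNReal.ofReal_le_ofReal ?_) (hlow R hR)
    have : 0 ≤ c1 * √(Real.log R) := by positivity
    linarith
  · intro C
    have hev : ∀ᶠ r : ℝ in atTop, C / (r * Real.log r) ≤ c1 / 16 / (r * √(Real.log r)) := by
      have h2 : ∀ᶠ r : ℝ in atTop, C / (c1 / 16) ≤ √(Real.log r) :=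
        fin_tendsto.eventually_ge_atTop _
      filter_upwards [h2, eventually_ge_atTop 3] with r hr hr3
      have hlog : 0 < Real.log r := Real.log_pos (by linarith)
      have hs : 0 < √(Real.log r) := Real.sqrt_pos.mpr hlog
      have hr0 : 0 < r := by linarith
      have hsq : √(Real.log r) * √(Real.log r) = Real.log r := Real.mul_self_sqrt hlog.le
      rw [div_le_iff₀ (by positivity)] at hr
      rw [div_le_div_iff₀ (mul_pos hr0 hlog) (mul_pos hr0 hs)]
      calc C * (r * √(Real.log r)) ≤ (√(Real.log r) * (c1 / 16)) * (r * √(Real.log r)) :=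
            mul_le_mul_of_nonneg_right hr (by positivity)
        _ = c1 / 16 * (r * (√(Real.log r) * √(Real.log r))) := by ring
        _ = c1 / 16 * (r * Real.log r) := by rw [hsq]
    exact (hfreq.and_eventually hev).mono fun r h =>
      (ENNReal.ofReal_le_ofReal h.2).trans h.1

end Pool.Agent.R228.MM
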