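import Pool.Agent.R228.MM.Stm

/-! Project MM (helper228), piece GAIN by helper506: gain from one dyadic square. -/

set_option autoImplicit false

universe u

namespace Pool.Agent.R228.MM

open MeasureTheory ProbabilityTheory Filter Set
open scoped ENNReal Topology

namespace Gainpf

/-- the cells of a square -/
def sqr (N : ℕ) (p : ℕ × ℕ) : Finset (ℕ × ℕ) :=
  (Finset.range N ×ˢ Finset.range N).image fun ab => (N * p.1 + ab.1, N * p.2 + ab.2)

lemma sum_sqr (N : ℕ) (p : ℕ × ℕ) (g : ℕ → ℕ → ℝ) (Y : ℕ × ℕ → ℝ) :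
    ∑ z ∈ sqr N p, g (z.1 % N) (z.2 % N) * Y z =
      ∑ a ∈ Finset.range N, ∑ b ∈ Finset.range N, g a b * Y (N * p.1 + a, N * p.2 + b) := by
  unfold sqr
  rw [Finset.sum_image, Finset.sum_product]
  · refine Finset.sum_congr rfl fun a ha => Finset.sum_congr rfl fun b hb => ?_
    simp only [Nat.mul_add_mod, Nat.mod_eq_of_lt (Finset.mem_range.mp ha), Nat.mod_eq_of_lt (Finset.mem_range.mp hb)]
  · rintro ⟨a, b⟩ _ ⟨a', b'⟩ _ h
    simp only [Prod.mk.injEq] at h
    ext
    · simp only; omega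
    · simp only; omega

lemma psi_sq (k a : ℕ) : psi k a ^ 2 = 1 := by
  unfold psi
  split_ifs <;> norm_num

lemma int_pow4 {Ω : Type u} [MeasurableSpace Ω] {P : Measure Ω} [IsProbabilityMeasure P] {f : Ω → ℝ}
    (hf : MemLp f 4 P) : Integrable (fun ω => f ω ^ 4) P := by
  have h := hf.integrable_norm_pow (p := 4) (by norm_num)
  refine h.congr (ae_of_all _ fun ω => ?_)
  simp only [Real.norm_eq_abs]
  rw [show (4 : ℕ) = 2 * 2 from rfl, pow_mul, sq_abs, pow_mul]

end Gainpf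

open Gainpf

theorem gain (hP : S_PROB.{u}) (hM : S_MOM.{u}) (hG1 : S_GEO1) (hG2 : S_GEO2) (hMe : S_MEAS) : S_GAIN.{u} := by
  classical
  intro Ω _ P _ X s2 M4 hX hs2 c K k p hc hk hkK hsmall
  -- positivity of the fourth moment
  have hM4 : 0 < M4 := by
    have hi2 : Integrable (fun ω => X (0, 0) ω ^ 2) P := by
      by_contra hcon
      have := integral_undef hcon
      rw [hX.var] at this
      exact hs2.ne' this
    have h1 : ∫ ω, X (0, 0) ω ^ 2 ∂P ≤ ∫ ω, (1 / (2 * s2) * X (0, 0) ω ^ 4 + s2 / 2) ∂P := by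
      refine integral_mono hi2 ((hX.int4.const_mul _).add (integrable_const _)) fun ω => ?_
      have h2 : 0 ≤ (X (0, 0) ω ^ 2 - s2) ^ 2 / (2 * s2) := by positivity
      have h3 : (X (0, 0) ω ^ 2 - s2) ^ 2 / (2 * s2) =
          (1 / (2 * s2) * X (0, 0) ω ^ 4 + s2 / 2) - X (0, 0) ω ^ 2 := by
        field_simp
        ring
      simp only
      linarith
    rw [hX.var, integral_add (hX.int4.const_mul _) (integrable_const _), integral_const_mul, integral_const] at h1
    simp only [probReal_univ, smul_eq_mul, one_mul] at h1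
    have h4 : 1 / (2 * s2) * ∫ ω, X (0, 0) ω ^ 4 ∂P ≤ 1 / (2 * s2) * M4 :=
      mul_le_mul_of_nonneg_left hX.four (by positivity)
    have h5 : s2 / 2 ≤ 1 / (2 * s2) * M4 := by linarith
    have h6 : 0 < 1 / (2 * s2) * M4 := lt_of_lt_of_le (by positivity) h5
    exact (mul_pos_iff_of_pos_left (by positivity)).mp h6
  have hk1 : 1 ≤ k := by omega
  set z0 : ℕ × ℕ := (2 ^ k * p.1, 2 ^ k * p.2) with hz0
  set S := sqr (2 ^ k) p with hS
  set w : ℕ × ℕ → ℝ := fun z => psi k (z.1 % 2 ^ k) / 2 ^ k with hw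
  set w' : ℕ × ℕ → ℝ := fun z => prof k (z.1 % 2 ^ k) (z.2 % 2 ^ k) with hw'
  set A : Ω → ℝ := fun ω => co (fun q => X q ω) k p with hA
  set Φ : Ω → ℝ := fun ω => ∑ a ∈ Finset.range (2 ^ k), ∑ b ∈ Finset.range (2 ^ k),
    prof k a b * X (2 ^ k * p.1 + a, 2 ^ k * p.2 + b) ω with hΦ
  have hAe : A = fun ω => ∑ z ∈ S, w z * X z ω := by
    funext ω
    have h := sum_sqr (2 ^ k) p (fun a _ => psi k a / 2 ^ k) (fun z => X z ω)
    simp only [hA, hw, hS]
    rw [h, co, Finset.sum_div]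
    refine Finset.sum_congr rfl fun a _ => ?_
    rw [Finset.sum_div]
    refine Finset.sum_congr rfl fun b _ => ?_
    ring
  have hΦe : Φ = fun ω => ∑ z ∈ S, w' z * X z ω := by
    funext ω
    exact (sum_sqr (2 ^ k) p (fun a b => prof k a b) (fun z => X z ω)).symm
  obtain ⟨a1, a2, a3⟩ := hM P X s2 M4 hX S w w'
  obtain ⟨b1, b2, -⟩ := hM P X s2 M4 hX S w' w
  rw [← hAe] at a1
  rw [← hΦe] at b1
  have eA : ∀ ω, ∑ z ∈ S, w z * X z ω = A ω := fun ω => (congrFun hAe ω).symm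
  have eΦ : ∀ ω, ∑ z ∈ S, w' z * X z ω = Φ ω := fun ω => (congrFun hΦe ω).symm
  simp only [eA] at a2
  simp only [eA, eΦ] at a3
  simp only [eΦ] at b2
  -- sums of the weights
  have hNR : ((2 ^ k : ℕ) : ℝ) = 2 ^ k := by push_cast; rfl
  have hww : ∑ z ∈ S, w z ^ 2 = 1 := by
    have h := sum_sqr (2 ^ k) p (fun a _ => (psi k a / 2 ^ k) ^ 2) (fun _ => 1)
    simp only [mul_one] at h
    simp only [hw, hS]
    rw [h]
    simp only [div_pow, psi_sq, Finset.sum_const, Finset.card_range, nsmul_eq_mul, hNR]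
    field_simp
  have hww' : ∑ z ∈ S, w' z ^ 2 ≤ 16 ^ k := by
    have h := sum_sqr (2 ^ k) p (fun a b => (prof k a b) ^ 2) (fun _ => 1)
    simp only [mul_one] at h
    simp only [hw', hS]
    rw [h]
    calc ∑ a ∈ Finset.range (2 ^ k), ∑ b ∈ Finset.range (2 ^ k), prof k a b ^ 2
        ≤ ∑ a ∈ Finset.range (2 ^ k), ∑ b ∈ Finset.range (2 ^ k), ((2 : ℝ) ^ k) ^ 2 := by
          refine Finset.sum_le_sum fun a ha => Finset.sum_le_sum fun b hb => ?_
          have h2 := hG1.2.1 k a b hk1 (Finset.mem_range.mp ha).le (Finset.mem_range.mp hb).le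
          exact sq_le_sq' (by linarith [(abs_le.mp h2).1]) (abs_le.mp h2).2
      _ = 16 ^ k := by
          simp only [Finset.sum_const, Finset.card_range, nsmul_eq_mul, hNR]
          rw [show (16 : ℝ) = 2 * (2 * (2 * 2)) by norm_num, mul_pow, mul_pow, mul_pow]
          ring
  have hcorr : 8 ^ k / 256 / 2 ^ k ≤ ∑ z ∈ S, w z * w' z := by
    have h := sum_sqr (2 ^ k) p (fun a b => psi k a / 2 ^ k * prof k a b) (fun _ => 1)
    simp only [mul_one] at h
    simp only [hw, hw', hS]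
    rw [h]
    have h2 : ∑ a ∈ Finset.range (2 ^ k), ∑ b ∈ Finset.range (2 ^ k), psi k a / 2 ^ k * prof k a b =
        (∑ a ∈ Finset.range (2 ^ k), ∑ b ∈ Finset.range (2 ^ k), psi k a * prof k a b) / 2 ^ k := by
      rw [Finset.sum_div]
      refine Finset.sum_congr rfl fun a _ => ?_
      rw [Finset.sum_div]
      refine Finset.sum_congr rfl fun b _ => ?_
      ring
    rw [h2]
    exact div_le_div_of_nonneg_right (hG2 k hk) (by positivity)
  have h48 : (8 : ℝ) ^ k / 2 ^ k = 4 ^ k := by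
    rw [← div_pow]
    norm_num
  -- moments
  have iA := int_pow4 a1
  have iΦ := int_pow4 b1
  have mA : ∫ ω, A ω ^ 4 ∂P ≤ 3 * M4 := by
    rw [hww] at a2
    linarith
  have mΦ : ∫ ω, Φ ω ^ 4 ∂P ≤ 3 * M4 * (16 ^ k) ^ 2 := by
    refine b2.trans (mul_le_mul_of_nonneg_left ?_ (by positivity))
    exact pow_le_pow_left₀ (Finset.sum_nonneg fun z _ => sq_nonneg _) hww' 2
  have mAΦ : s2 * (4 ^ k / 256) ≤ ∫ ω, A ω * Φ ω ∂P := by
    rw [a3]
    refine mul_le_mul_of_nonneg_left ?_ hs2.le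
    calc (4 : ℝ) ^ k / 256 = 8 ^ k / 256 / 2 ^ k := by rw [← h48]; ring
      _ ≤ _ := hcorr
  -- integrability of the product
  have A2 : MemLp A 2 P := a1.mono_exponent (by norm_num)
  have Φ2 : MemLp Φ 2 P := b1.mono_exponent (by norm_num)
  have iAΦ : Integrable (fun ω => A ω * Φ ω) P := by
    refine Integrable.mono' ((A2.integrable_sq.add Φ2.integrable_sq).div_const 2)
      (A2.aestronglyMeasurable.mul Φ2.aestronglyMeasurable) (ae_of_all _ fun ω => ?_)
    rw [Real.norm_eq_abs, abs_mul]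
    have := two_mul_le_add_sq |A ω| |Φ ω|
    simp only [sq_abs] at this
    simp only [Pi.add_apply]
    linarith
  -- the event
  have hmeasX : Measurable fun ω => (fun q => X q ω) := measurable_pi_lambda _ fun q => hX.meas q
  have hN : MeasurableSet {ω | Nst c K (fun q => X q ω) k z0} := hmeasX (hMe.2.1 c K k z0)
  set Bd : Set Ω := {ω | ¬ Nst c K (fun q => X q ω) k z0} with hBd
  have hBm : MeasurableSet Bd := hN.compl
  have hPB : P.real Bd ≤ 100 * c ^ 2 * K * s2 := hP P X s2 M4 hX c K k z0 hc hk1 hkK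
  have iF : Integrable (fun ω => if Nst c K (fun q => X q ω) k z0 then A ω * Φ ω else 0) P := by
    have e : (fun ω => if Nst c K (fun q => X q ω) k z0 then A ω * Φ ω else 0) =
        {ω | Nst c K (fun q => X q ω) k z0}.indicator (fun ω => A ω * Φ ω) := by
      funext ω
      by_cases h : Nst c K (fun q => X q ω) k z0
      · rw [if_pos h, Set.indicator_of_mem (by exact h)]
      · rw [if_neg h, Set.indicator_of_notMem (by exact h)]
    rw [e]
    exact iAΦ.indicator hN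
  refine ⟨iF, ?_⟩
  set G : ℝ := 4 ^ k * s2 / 512 with hG
  have hGpos : 0 < G := by positivity
  set lam : ℝ := 3 * M4 * 16 ^ k / G with hlam
  have hlampos : 0 < lam := by positivity
  have iB : Integrable (fun ω => Bd.indicator (fun _ => (1 : ℝ)) ω) P := (integrable_const (1 : ℝ)).indicator hBm
  have iR : Integrable (fun ω => lam / 2 * Bd.indicator (fun _ => (1 : ℝ)) ω +
      (16 ^ k / (4 * lam) * A ω ^ 4 + 1 / (4 * lam * 16 ^ k) * Φ ω ^ 4)) P :=
    (iB.const_mul _).add ((iA.const_mul _).add (iΦ.const_mul _))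
  have hpt : ∀ ω, A ω * Φ ω - (lam / 2 * Bd.indicator (fun _ => (1 : ℝ)) ω +
      (16 ^ k / (4 * lam) * A ω ^ 4 + 1 / (4 * lam * 16 ^ k) * Φ ω ^ 4)) ≤
      if Nst c K (fun q => X q ω) k z0 then A ω * Φ ω else 0 := by
    intro ω
    have hq : 0 ≤ 16 ^ k / (4 * lam) * A ω ^ 4 + 1 / (4 * lam * 16 ^ k) * Φ ω ^ 4 := by positivity
    by_cases h : Nst c K (fun q => X q ω) k z0
    · rw [if_pos h, Set.indicator_of_notMem (by rw [hBd]; simpa using h)]
      linarith
    · rw [if_neg h, Set.indicator_of_mem (by rw [hBd]; exact h)]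
      have e1 : 16 ^ k / (4 * lam) * A ω ^ 4 + 1 / (4 * lam * 16 ^ k) * Φ ω ^ 4 =
          (1 / (2 * lam)) * (A ω * Φ ω) ^ 2 + (1 / (4 * lam * 16 ^ k)) * (16 ^ k * A ω ^ 2 - Φ ω ^ 2) ^ 2 := by
        field_simp
        ring
      have e2 : 0 ≤ (1 / (4 * lam * 16 ^ k)) * (16 ^ k * A ω ^ 2 - Φ ω ^ 2) ^ 2 := by positivity
      have e3 : (A ω * Φ ω) - lam / 2 - (1 / (2 * lam)) * (A ω * Φ ω) ^ 2 =
          -(1 / (2 * lam)) * (A ω * Φ ω - lam) ^ 2 := by
        field_simp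
        ring
      have e4 : 0 ≤ (1 / (2 * lam)) * (A ω * Φ ω - lam) ^ 2 := by positivity
      rw [e1]
      linarith
  have hmain := integral_mono (iAΦ.sub iR) iF hpt
  simp only [Pi.sub_apply] at hmain
  have i1 : Integrable (fun ω => 16 ^ k / (4 * lam) * A ω ^ 4 + 1 / (4 * lam * 16 ^ k) * Φ ω ^ 4) P :=
    (iA.const_mul _).add (iΦ.const_mul _)
  rw [integral_sub iAΦ iR, integral_add (iB.const_mul _) i1,
    integral_add (iA.const_mul _) (iΦ.const_mul _), integral_const_mul, integral_const_mul, integral_const_mul,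
    integral_indicator_const _ hBm] at hmain
  simp only [smul_eq_mul, mul_one] at hmain
  have f1 : lam / 2 * P.real Bd ≤ G / 2 := by
    have g1 : lam * P.real Bd ≤ lam * (100 * c ^ 2 * K * s2) := mul_le_mul_of_nonneg_left hPB hlampos.le
    have g2 : lam * (100 * c ^ 2 * K * s2) = 16 ^ k * (300 * c ^ 2 * K * s2 * M4) / G := by
      rw [hlam]
      ring
    have g3 : 16 ^ k * (300 * c ^ 2 * K * s2 * M4) / G ≤ 16 ^ k * (s2 / 512) ^ 2 / G :=
      div_le_div_of_nonneg_right (mul_le_mul_of_nonneg_left hsmall (by positivity)) hGpos.le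
    have g4 : 16 ^ k * (s2 / 512) ^ 2 / G = G := by
      rw [div_eq_iff hGpos.ne', hG]
      rw [show (16 : ℝ) = 4 * 4 by norm_num, mul_pow]
      ring
    linarith
  have f2 : 16 ^ k / (4 * lam) * ∫ ω, A ω ^ 4 ∂P ≤ G / 4 := by
    have g1 : 16 ^ k / (4 * lam) * ∫ ω, A ω ^ 4 ∂P ≤ 16 ^ k / (4 * lam) * (3 * M4) :=
      mul_le_mul_of_nonneg_left mA (by positivity)
    have g2 : 16 ^ k / (4 * lam) * (3 * M4) = G / 4 := by
      rw [hlam]
      field_simp
    linarith
  have f3 : 1 / (4 * lam * 16 ^ k) * ∫ ω, Φ ω ^ 4 ∂P ≤ G / 4 := by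
    have g1 : 1 / (4 * lam * 16 ^ k) * ∫ ω, Φ ω ^ 4 ∂P ≤ 1 / (4 * lam * 16 ^ k) * (3 * M4 * (16 ^ k) ^ 2) :=
      mul_le_mul_of_nonneg_left mΦ (by positivity)
    have g2 : 1 / (4 * lam * 16 ^ k) * (3 * M4 * (16 ^ k) ^ 2) = G / 4 := by
      rw [hlam]
      field_simp
    linarith
  have f4 : s2 * (4 ^ k / 256) = 2 * G := by rw [hG]; ring
  linarith

end Pool.Agent.R228.MM
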