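import Pool.Agent.R228.MM.Stm

namespace Pool.Agent.R228.MM

open MeasureTheory ProbabilityTheory Filter Set
open scoped ENNReal Topology

namespace Geo1x

lemma pow_k {k : ℕ} (hk : 1 ≤ k) : (2:ℝ) ^ k = 2 * 2 ^ (k - 1) := by
  obtain ⟨m, rfl⟩ : ∃ m, k = m + 1 := ⟨k - 1, by omega⟩
  rw [Nat.add_sub_cancel, pow_succ]; ring

lemma pow8 {k : ℕ} (hk : 1 ≤ k) : (8:ℝ) ^ k = 8 * (2 ^ (k - 1)) ^ 3 := by
  obtain ⟨m, rfl⟩ : ∃ m, k = m + 1 := ⟨k - 1, by omega⟩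
  rw [Nat.add_sub_cancel, pow_succ, ← pow_mul, mul_comm m 3, pow_mul]
  norm_num
  ring

lemma du_eq {k : ℕ} (hk : 1 ≤ k) (a : ℕ) :
    uu k (a + 1) - uu k a = |2 * (a:ℝ) - 2 * 2 ^ (k - 1) + 1| - 2 ^ (k - 1) := by
  unfold uu
  rw [pow_k hk]
  have hW : ((2 ^ (k - 1) : ℕ) : ℝ) = (2:ℝ) ^ (k - 1) := by push_cast; rfl
  set W : ℕ := 2 ^ (k - 1) with hWd
  set w : ℝ := (2:ℝ) ^ (k - 1) with hwd
  by_cases h1 : a + 1 ≤ W
  · rw [if_pos h1, if_pos (by omega)]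
    have h : (a:ℝ) + 1 ≤ w := by rw [← hW]; exact_mod_cast h1
    rw [abs_of_nonpos (by linarith)]
    push_cast
    ring
  · by_cases h2 : a ≤ W
    · have h3 : a = W := by omega
      rw [if_neg h1, if_pos h2]
      have h : (a:ℝ) = w := by rw [← hW]; exact_mod_cast h3
      push_cast
      rw [h, abs_of_nonneg (by linarith)]
      ring
    · rw [if_neg h1, if_neg h2]
      have h : w ≤ (a:ℝ) := by rw [← hW]; exact_mod_cast (by omega : W ≤ a)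
      rw [abs_of_nonneg (by linarith)]
      push_cast
      ring

lemma dv_eq {k : ℕ} (b : ℕ) : vv k (b + 1) - vv k b = 2 ^ k - 2 * (b:ℝ) - 1 := by
  unfold vv
  push_cast
  ring

lemma uu_bd {k : ℕ} (hk : 1 ≤ k) {a : ℕ} (ha : a ≤ 2 ^ k) :
    |uu k a| ≤ (2 ^ (k - 1)) ^ 2 / 4 := by
  unfold uu
  rw [pow_k hk]
  have hW : ((2 ^ (k - 1) : ℕ) : ℝ) = (2:ℝ) ^ (k - 1) := by push_cast; rfl
  have ha' : (a:ℝ) ≤ 2 * 2 ^ (k - 1) := by
    rw [← pow_k hk]; exact_mod_cast ha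
  have h0 : (0:ℝ) ≤ a := Nat.cast_nonneg a
  set w : ℝ := (2:ℝ) ^ (k - 1) with hwd
  split_ifs with h
  · have h' : (a:ℝ) ≤ w := by rw [← hW]; exact_mod_cast h
    rw [abs_of_nonneg (mul_nonneg h0 (by linarith))]
    nlinarith [sq_nonneg ((a:ℝ) - w / 2)]
  · have h' : w ≤ (a:ℝ) := by
      rw [← hW]; exact_mod_cast (not_le.mp h).le
    rw [abs_neg, abs_of_nonneg (mul_nonneg (by linarith) (by linarith))]
    nlinarith [sq_nonneg ((a:ℝ) - 3 * w / 2)]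

lemma uu_lip {k : ℕ} (hk : 1 ≤ k) {a a' : ℕ} (ha : a ≤ 2 ^ k) (ha2 : a' ≤ 2 ^ k) :
    |uu k a - uu k a'| ≤ 2 ^ (k - 1) * |(a:ℝ) - a'| := by
  wlog hle : a ≤ a' generalizing a a'
  · have := this ha2 ha (by omega)
    rw [abs_sub_comm, abs_sub_comm (a:ℝ)]
    exact this
  unfold uu
  rw [pow_k hk]
  have hW : ((2 ^ (k - 1) : ℕ) : ℝ) = (2:ℝ) ^ (k - 1) := by push_cast; rfl
  have hb : (a:ℝ) ≤ 2 * 2 ^ (k - 1) := by
    rw [← pow_k hk]; exact_mod_cast ha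
  have hb2 : (a':ℝ) ≤ 2 * 2 ^ (k - 1) := by
    rw [← pow_k hk]; exact_mod_cast ha2
  have h0 : (0:ℝ) ≤ a := Nat.cast_nonneg a
  have hle' : (a:ℝ) ≤ a' := by exact_mod_cast hle
  set w : ℝ := (2:ℝ) ^ (k - 1) with hwd
  have hw : 0 < w := by positivity
  rw [abs_sub_comm (a:ℝ), abs_of_nonneg (show (0:ℝ) ≤ (a':ℝ) - a by linarith)]
  split_ifs with h1 h2 h2
  · have h1' : (a:ℝ) ≤ w := by rw [← hW]; exact_mod_cast h1
    have h2' : (a':ℝ) ≤ w := by rw [← hW]; exact_mod_cast h2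
    rw [abs_le]
    constructor
    · nlinarith [mul_nonneg (sub_nonneg.mpr hle') (by linarith : (0:ℝ) ≤ 2 * w - a - a')]
    · nlinarith [mul_nonneg (sub_nonneg.mpr hle') (by linarith : (0:ℝ) ≤ a + a')]
  · have h1' : (a:ℝ) ≤ w := by rw [← hW]; exact_mod_cast h1
    have h2' : w ≤ (a':ℝ) := by rw [← hW]; exact_mod_cast (not_le.mp h2).le
    rw [abs_le]
    have e1 : 0 ≤ (a:ℝ) * (w - a) := mul_nonneg h0 (by linarith)
    have e2 : 0 ≤ ((a':ℝ) - w) * (2 * w - a') := mul_nonneg (by linarith) (by linarith)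
    have e3 : (a:ℝ) * (w - a) ≤ w * (w - a) := mul_le_mul_of_nonneg_right h1' (by linarith)
    have e4 : ((a':ℝ) - w) * (2 * w - a') ≤ (a' - w) * w :=
      mul_le_mul_of_nonneg_left (by linarith) (by linarith)
    constructor <;> nlinarith
  · exfalso
    exact h1 (hle.trans h2)
  · have h1' : w ≤ (a:ℝ) := by rw [← hW]; exact_mod_cast (not_le.mp h1).le
    have h2' : w ≤ (a':ℝ) := by rw [← hW]; exact_mod_cast (not_le.mp h2).le
    rw [abs_le]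
    constructor
    · nlinarith [mul_nonneg (sub_nonneg.mpr hle') (by linarith : (0:ℝ) ≤ 4 * w - a - a')]
    · nlinarith [mul_nonneg (sub_nonneg.mpr hle') (by linarith : (0:ℝ) ≤ a + a' - 2 * w)]

lemma vv_bd {k : ℕ} (hk : 1 ≤ k) {b : ℕ} (hb : b ≤ 2 ^ k) :
    0 ≤ vv k b ∧ vv k b ≤ (2 ^ (k - 1)) ^ 2 := by
  unfold vv
  rw [pow_k hk]
  have hb' : (b:ℝ) ≤ 2 * 2 ^ (k - 1) := by
    rw [← pow_k hk]; exact_mod_cast hb
  have h0 : (0:ℝ) ≤ b := Nat.cast_nonneg b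
  set w : ℝ := (2:ℝ) ^ (k - 1) with hwd
  constructor
  · exact mul_nonneg h0 (by linarith)
  · nlinarith [sq_nonneg ((b:ℝ) - w)]

lemma vv_lip {k : ℕ} (hk : 1 ≤ k) {b b' : ℕ} (hb : b ≤ 2 ^ k) (hb2 : b' ≤ 2 ^ k) :
    |vv k b - vv k b'| ≤ 2 * 2 ^ (k - 1) * |(b:ℝ) - b'| := by
  unfold vv
  rw [pow_k hk]
  have hb' : (b:ℝ) ≤ 2 * 2 ^ (k - 1) := by
    rw [← pow_k hk]; exact_mod_cast hb
  have hb2' : (b':ℝ) ≤ 2 * 2 ^ (k - 1) := by
    rw [← pow_k hk]; exact_mod_cast hb2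
  have h0 : (0:ℝ) ≤ b := Nat.cast_nonneg b
  have h0' : (0:ℝ) ≤ b' := Nat.cast_nonneg b'
  set w : ℝ := (2:ℝ) ^ (k - 1) with hwd
  have e : (b:ℝ) * (2 * w - b) - b' * (2 * w - b') = (2 * w - b - b') * (b - b') := by ring
  rw [e, abs_mul]
  apply mul_le_mul_of_nonneg_right _ (abs_nonneg _)
  rw [abs_le]
  constructor <;> linarith

lemma du_bd {k : ℕ} (hk : 1 ≤ k) {a : ℕ} (ha : a < 2 ^ k) :
    |uu k (a + 1) - uu k a| ≤ 2 ^ (k - 1) := by
  rw [du_eq hk]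
  have ha' : (a:ℝ) + 1 ≤ 2 * 2 ^ (k - 1) := by
    rw [← pow_k hk]; exact_mod_cast ha
  have h0 : (0:ℝ) ≤ a := Nat.cast_nonneg a
  set w : ℝ := (2:ℝ) ^ (k - 1) with hwd
  have h1 : |2 * (a:ℝ) - 2 * w + 1| ≤ 2 * w := by
    rw [abs_le]; constructor <;> linarith
  rw [abs_le]
  constructor
  · linarith [abs_nonneg (2 * (a:ℝ) - 2 * w + 1)]
  · linarith

lemma du_lip {k : ℕ} (hk : 1 ≤ k) (a a' : ℕ) :
    |(uu k (a + 1) - uu k a) - (uu k (a' + 1) - uu k a')| ≤ 2 * |(a:ℝ) - a'| := by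
  rw [du_eq hk, du_eq hk]
  have e : |2 * (a:ℝ) - 2 * 2 ^ (k - 1) + 1| - 2 ^ (k - 1) -
      (|2 * (a':ℝ) - 2 * 2 ^ (k - 1) + 1| - 2 ^ (k - 1)) =
      |2 * (a:ℝ) - 2 * 2 ^ (k - 1) + 1| - |2 * (a':ℝ) - 2 * 2 ^ (k - 1) + 1| := by ring
  rw [e]
  refine (abs_abs_sub_abs_le_abs_sub _ _).trans ?_
  have e2 : 2 * (a:ℝ) - 2 * 2 ^ (k - 1) + 1 - (2 * (a':ℝ) - 2 * 2 ^ (k - 1) + 1) =
      2 * ((a:ℝ) - a') := by ring
  rw [e2, abs_mul, abs_of_pos (by norm_num : (0:ℝ) < 2)]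

lemma dv_bd {k : ℕ} (hk : 1 ≤ k) {b : ℕ} (hb : b < 2 ^ k) :
    |vv k (b + 1) - vv k b| ≤ 2 * 2 ^ (k - 1) := by
  rw [dv_eq, pow_k hk]
  have hb' : (b:ℝ) + 1 ≤ 2 * 2 ^ (k - 1) := by
    rw [← pow_k hk]; exact_mod_cast hb
  have h0 : (0:ℝ) ≤ b := Nat.cast_nonneg b
  have hw : (0:ℝ) < 2 ^ (k - 1) := by positivity
  rw [abs_le]; constructor <;> linarith

lemma dv_lip {k : ℕ} (b b' : ℕ) :
    |(vv k (b + 1) - vv k b) - (vv k (b' + 1) - vv k b')| ≤ 2 * |(b:ℝ) - b'| := by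
  rw [dv_eq, dv_eq]
  have e2 : (2:ℝ) ^ k - 2 * (b:ℝ) - 1 - (2 ^ k - 2 * (b':ℝ) - 1) = 2 * ((b':ℝ) - b) := by ring
  rw [e2, abs_mul, abs_of_pos (by norm_num : (0:ℝ) < 2), abs_sub_comm]

lemma local_bd {k' j : ℕ} (h : k' ≤ j) {x y : ℕ} (hxy : x / 2 ^ k' = y / 2 ^ k') :
    |((x % 2 ^ j : ℕ) : ℝ) - ((y % 2 ^ j : ℕ) : ℝ)| ≤ 2 ^ k' := by
  have e : 2 ^ j = 2 ^ k' * 2 ^ (j - k') := by rw [← pow_add]; congr 1; omega
  have h1 : (x % 2 ^ j) / 2 ^ k' = (y % 2 ^ j) / 2 ^ k' := by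
    rw [e, Nat.mod_mul_right_div_self, Nat.mod_mul_right_div_self, hxy]
  set a := x % 2 ^ j
  set b := y % 2 ^ j
  have hp : 0 < 2 ^ k' := by positivity
  have ha := Nat.div_add_mod a (2 ^ k')
  have hb := Nat.div_add_mod b (2 ^ k')
  have ha2 := Nat.mod_lt a hp
  have hb2 := Nat.mod_lt b hp
  rw [h1] at ha
  have e1 : (a:ℝ) ≤ b + 2 ^ k' := by
    have : a ≤ b + 2 ^ k' := by omega
    exact_mod_cast this
  have e2 : (b:ℝ) ≤ a + 2 ^ k' := by
    have : b ≤ a + 2 ^ k' := by omega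
    exact_mod_cast this
  rw [abs_le]; constructor <;> linarith

end Geo1x

open Geo1x

theorem geo1 : S_GEO1 := by
  refine ⟨?_, ?_, ?_, ?_, ?_⟩
  · intro k a b hk ha hb
    have hw : (0:ℝ) < 2 ^ (k - 1) := by positivity
    have hw1 : (1:ℝ) ≤ 2 ^ (k - 1) := one_le_pow₀ (by norm_num)
    have d1 := du_bd hk ha
    have d2 := dv_bd hk hb
    have d3 := uu_bd hk ha.le
    have d4 := vv_bd hk hb.le
    unfold prof
    rw [pow8 hk]
    set w : ℝ := (2:ℝ) ^ (k - 1)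
    have h8 : 0 < 8 * w ^ 3 := by positivity
    constructor
    · rw [← sub_div, ← sub_mul, abs_div, abs_of_pos h8, div_le_one h8, abs_mul,
        abs_of_nonneg d4.1]
      calc |uu k (a + 1) - uu k a| * vv k b ≤ w * w ^ 2 :=
            mul_le_mul d1 d4.2 d4.1 hw.le
        _ ≤ 8 * w ^ 3 := by nlinarith [pow_pos hw 3]
    · rw [← sub_div, ← mul_sub, abs_div, abs_of_pos h8, div_le_one h8, abs_mul]
      calc |uu k a| * |vv k (b + 1) - vv k b| ≤ (w ^ 2 / 4) * (2 * w) :=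
            mul_le_mul d3 d2 (abs_nonneg _) (by positivity)
        _ ≤ 8 * w ^ 3 := by nlinarith [pow_pos hw 3]
  · intro k a b hk ha hb
    have hw : (0:ℝ) < 2 ^ (k - 1) := by positivity
    have d3 := uu_bd hk ha
    have d4 := vv_bd hk hb
    unfold prof
    rw [pow8 hk, pow_k hk]
    set w : ℝ := (2:ℝ) ^ (k - 1)
    have h8 : 0 < 8 * w ^ 3 := by positivity
    rw [abs_div, abs_of_pos h8, div_le_iff₀ h8, abs_mul, abs_of_nonneg d4.1]
    calc |uu k a| * vv k b ≤ (w ^ 2 / 4) * w ^ 2 := mul_le_mul d3 d4.2 d4.1 (by positivity)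
      _ ≤ 2 * w * (8 * w ^ 3) := by nlinarith [pow_pos hw 4]
  · intro k b hk
    have h1 : (1:ℕ) ≤ 2 ^ (k - 1) := Nat.one_le_two_pow
    have h2 : ¬ (2 ^ k ≤ 2 ^ (k - 1)) := by
      have : 2 ^ k = 2 * 2 ^ (k - 1) := by
        obtain ⟨m, rfl⟩ : ∃ m, k = m + 1 := ⟨k - 1, by omega⟩
        rw [Nat.add_sub_cancel, pow_succ]; ring
      omega
    constructor
    · unfold prof uu
      simp
    · unfold prof uu
      rw [if_neg h2]
      simp
  · intro k a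
    constructor
    · unfold prof vv; simp
    · unfold prof vv; simp
  · intro k' j hkj w z hidx
    have hj : 1 ≤ j := by omega
    unfold idx at hidx
    have hi1 : w.1 / 2 ^ k' = z.1 / 2 ^ k' := congrArg Prod.fst hidx
    have hi2 : w.2 / 2 ^ k' = z.2 / 2 ^ k' := congrArg Prod.snd hidx
    have hA := local_bd hkj.le hi1
    have hB := local_bd hkj.le hi2
    have hp : 0 < 2 ^ j := by positivity
    have a1 := Nat.mod_lt w.1 hp
    have a2 := Nat.mod_lt z.1 hp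
    have b1 := Nat.mod_lt w.2 hp
    have b2 := Nat.mod_lt z.2 hp
    unfold dx dy prof
    rw [pow8 hj, pow_k hj]
    set a := w.1 % 2 ^ j
    set a' := z.1 % 2 ^ j
    set b := w.2 % 2 ^ j
    set b' := z.2 % 2 ^ j
    set W : ℝ := (2:ℝ) ^ (j - 1) with hW
    have hWp : 0 < W := by positivity
    have h8 : 0 < 8 * W ^ 3 := by positivity
    have hd : 0 ≤ (2:ℝ) ^ k' := by positivity
    set δ : ℝ := (2:ℝ) ^ k'
    have du1 := du_bd hj a1
    have du2 := du_bd hj a2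
    have dul := du_lip hj a a'
    have dvl := dv_lip (k := j) b b'
    have dv1 := dv_bd hj b1
    have dv2 := dv_bd hj b2
    have u1 := uu_bd hj a2.le
    have ul := uu_lip hj a1.le a2.le
    have v1 := vv_bd hj b1.le
    have vl := vv_lip hj b1.le b2.le
    have hAn := abs_nonneg ((a:ℝ) - a')
    have hBn := abs_nonneg ((b:ℝ) - b')
    have fin : 4 * δ / (2 * W) = (16 * δ * W ^ 2) / (8 * W ^ 3) := by
      field_simp
      ring
    constructor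
    · have e : uu j (a + 1) * vv j b / (8 * W ^ 3) - uu j a * vv j b / (8 * W ^ 3) -
          (uu j (a' + 1) * vv j b' / (8 * W ^ 3) - uu j a' * vv j b' / (8 * W ^ 3)) =
          (((uu j (a + 1) - uu j a) - (uu j (a' + 1) - uu j a')) * vv j b +
            (uu j (a' + 1) - uu j a') * (vv j b - vv j b')) / (8 * W ^ 3) := by ring
      rw [e, fin, abs_div, abs_of_pos h8]
      apply div_le_div_of_nonneg_right _ h8.le
      refine (abs_add_le _ _).trans ?_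
      rw [abs_mul, abs_mul, abs_of_nonneg v1.1]
      have t1 : |uu j (a + 1) - uu j a - (uu j (a' + 1) - uu j a')| * vv j b ≤
          (2 * δ) * W ^ 2 := mul_le_mul (by linarith) v1.2 v1.1 (by positivity)
      have t2 : |uu j (a' + 1) - uu j a'| * |vv j b - vv j b'| ≤ W * (2 * W * δ) :=
        mul_le_mul du2 (vl.trans (mul_le_mul_of_nonneg_left hB (by positivity)))
          (abs_nonneg _) hWp.le
      have : 0 ≤ δ * W ^ 2 := by positivity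
      nlinarith
    · have e : uu j a * vv j (b + 1) / (8 * W ^ 3) - uu j a * vv j b / (8 * W ^ 3) -
          (uu j a' * vv j (b' + 1) / (8 * W ^ 3) - uu j a' * vv j b' / (8 * W ^ 3)) =
          ((uu j a - uu j a') * (vv j (b + 1) - vv j b) +
            uu j a' * ((vv j (b + 1) - vv j b) - (vv j (b' + 1) - vv j b'))) /
            (8 * W ^ 3) := by ring
      rw [e, fin, abs_div, abs_of_pos h8]
      apply div_le_div_of_nonneg_right _ h8.le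
      refine (abs_add_le _ _).trans ?_
      rw [abs_mul, abs_mul]
      have t1 : |uu j a - uu j a'| * |vv j (b + 1) - vv j b| ≤ (W * δ) * (2 * W) :=
        mul_le_mul (ul.trans (mul_le_mul_of_nonneg_left hA hWp.le)) dv1 (abs_nonneg _)
          (by positivity)
      have t2 : |uu j a'| * |vv j (b + 1) - vv j b - (vv j (b' + 1) - vv j b')| ≤
          (W ^ 2 / 4) * (2 * δ) :=
        mul_le_mul u1 (by linarith) (abs_nonneg _) (by positivity)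
      have : 0 ≤ δ * W ^ 2 := by positivity
      nlinarith

end Pool.Agent.R228.MM
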