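import Pool.Agent.R228.MM.Stm

/-! # MM-GEO2: correlation of the sign pattern with the profile -/

set_option autoImplicit false

namespace Pool.Agent.R228.MM

namespace Geo2Aux

theorem sum_quad (c : ℝ) (n : ℕ) : ∑ a ∈ Finset.range n, (a : ℝ) * (c - a) =
    c * (n * (n - 1)) / 2 - (n - 1) * n * (2 * n - 1) / 6 := by
  induction n with
  | zero => simp
  | succ n ih =>
    rw [Finset.sum_range_succ, ih]
    push_cast
    ring

theorem sum_psi_uu (m : ℕ) : ∑ a ∈ Finset.range (2 ^ (m + 1)), psi (m + 1) a * uu (m + 1) a =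
    (((2 : ℝ) ^ m) ^ 3 - 2 ^ m) / 3 := by
  have h2 : 2 ^ (m + 1) = 2 ^ m + 2 ^ m := by ring
  rw [h2, Finset.sum_range_add]
  have e1 : ∀ a ∈ Finset.range (2 ^ m), psi (m + 1) a * uu (m + 1) a =
      (a : ℝ) * (((2 ^ m : ℕ) : ℝ) - a) := by
    intro a ha
    have ha' := Finset.mem_range.mp ha
    unfold psi uu
    rw [Nat.add_sub_cancel, if_pos ha', if_pos ha'.le]
    push_cast
    ring
  have e2 : ∀ a ∈ Finset.range (2 ^ m), psi (m + 1) (2 ^ m + a) * uu (m + 1) (2 ^ m + a) =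
      (a : ℝ) * (((2 ^ m : ℕ) : ℝ) - a) := by
    intro a _
    unfold psi uu
    rw [Nat.add_sub_cancel, if_neg (by omega)]
    by_cases h : a = 0
    · subst h
      simp
    · rw [if_neg (by omega)]
      push_cast
      ring
  rw [Finset.sum_congr rfl e1, Finset.sum_congr rfl e2, sum_quad]
  push_cast
  ring

theorem sum_vv (m : ℕ) : ∑ b ∈ Finset.range (2 ^ (m + 1)), vv (m + 1) b =
    ((2 * (2 : ℝ) ^ m) ^ 3 - 2 * 2 ^ m) / 6 := by
  have e1 : ∀ b ∈ Finset.range (2 ^ (m + 1)), vv (m + 1) b =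
      (b : ℝ) * (((2 ^ (m + 1) : ℕ) : ℝ) - b) := by
    intro b _
    unfold vv
    push_cast
    ring
  rw [Finset.sum_congr rfl e1, sum_quad]
  push_cast
  ring

end Geo2Aux

open Geo2Aux in
theorem geo2 : S_GEO2 := by
  intro k hk
  obtain ⟨m, rfl⟩ : ∃ m, k = m + 1 := ⟨k - 1, by omega⟩
  have hm : 1 ≤ m := by omega
  have e : ∑ a ∈ Finset.range (2 ^ (m + 1)), ∑ b ∈ Finset.range (2 ^ (m + 1)),
      psi (m + 1) a * prof (m + 1) a b =
      (∑ a ∈ Finset.range (2 ^ (m + 1)), psi (m + 1) a * uu (m + 1) a) *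
        (∑ b ∈ Finset.range (2 ^ (m + 1)), vv (m + 1) b) / 8 ^ (m + 1) := by
    rw [Finset.sum_mul_sum, Finset.sum_div]
    refine Finset.sum_congr rfl fun a _ => ?_
    rw [Finset.sum_div]
    refine Finset.sum_congr rfl fun b _ => ?_
    unfold prof
    ring
  rw [e, sum_psi_uu, sum_vv]
  set w : ℝ := (2 : ℝ) ^ m with hw
  have hw2 : 2 ≤ w := by
    calc (2 : ℝ) = 2 ^ 1 := by norm_num
      _ ≤ 2 ^ m := pow_le_pow_right₀ (by norm_num) hm
  have h8 : (8 : ℝ) ^ (m + 1) = 8 * w ^ 3 := by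
    rw [hw, ← pow_mul, mul_comm m 3, pow_mul, pow_succ]
    norm_num
    ring
  rw [h8, le_div_iff₀ (by positivity)]
  have h1 : 3 / 4 * w ^ 3 ≤ w ^ 3 - w := by nlinarith [mul_nonneg (by linarith : 0 ≤ w) (by nlinarith : 0 ≤ w ^ 2 - 4)]
  have h2 : 15 / 16 * (2 * w) ^ 3 ≤ (2 * w) ^ 3 - 2 * w := by
    nlinarith [mul_nonneg (by linarith : 0 ≤ w) (by nlinarith : 0 ≤ w ^ 2 - 4)]
  have h3 : (3 / 4 * w ^ 3 / 3) * (15 / 16 * (2 * w) ^ 3 / 6) ≤
      (w ^ 3 - w) / 3 * (((2 * w) ^ 3 - 2 * w) / 6) := by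
    apply mul_le_mul
    · linarith
    · linarith
    · positivity
    · have : 0 ≤ 3 / 4 * w ^ 3 := by positivity
      linarith
  refine le_trans ?_ h3
  have h6 : 0 ≤ w ^ 3 * w ^ 3 := by positivity
  nlinarith

end Pool.Agent.R228.MM
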