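import Pool.Agent.R228.MM.Stm

/-! MM-HH (helper164). -/

namespace Pool.Agent.R228.MM

theorem hhs : S_HH := by
  intro K f hf
  set N : ℕ := 2 ^ K with hN
  -- bounds
  have b1 : ∀ x y : ℕ, |f (x, y)| ≤ 2 * x := by
    intro x y
    induction x with
    | zero =>
      rw [(hf (0, y)).2.2 (Or.inl rfl)]
      simp
    | succ x ih =>
      have h := (hf (x, y)).1
      have h2 : |f (x + 1, y)| ≤ |f (x + 1, y) - f (x, y)| + |f (x, y)| := by
        have := abs_add_le (f (x + 1, y) - f (x, y)) (f (x, y))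
        rwa [sub_add_cancel] at this
      push_cast
      have h' : |f (x + 1, y) - f (x, y)| ≤ 2 := h
      linarith
  have b2 : ∀ x y : ℕ, |f (x, y)| ≤ 2 * y := by
    intro x y
    induction y with
    | zero =>
      rw [(hf (x, 0)).2.2 (Or.inr (Or.inl rfl))]
      simp
    | succ y ih =>
      have h' : |f (x, y + 1) - f (x, y)| ≤ 2 := (hf (x, y)).2.1
      have h2 : |f (x, y + 1)| ≤ |f (x, y + 1) - f (x, y)| + |f (x, y)| := by
        have := abs_add_le (f (x, y + 1) - f (x, y)) (f (x, y))
        rwa [sub_add_cancel] at this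
      push_cast
      linarith
  have b3 : ∀ d x y : ℕ, N ≤ x + d → |f (x, y)| ≤ 2 * d := by
    intro d
    induction d with
    | zero =>
      intro x y h
      rw [(hf (x, y)).2.2 (Or.inr (Or.inr (Or.inl h)))]
      simp
    | succ d ih =>
      intro x y h
      have h1 := ih (x + 1) y (by omega)
      have h' : |f (x + 1, y) - f (x, y)| ≤ 2 := (hf (x, y)).1
      have h2 : |f (x, y)| ≤ |f (x + 1, y) - f (x, y)| + |f (x + 1, y)| := by
        have := abs_sub (f (x + 1, y)) (f (x + 1, y) - f (x, y))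
        rw [sub_sub_cancel] at this
        linarith
      push_cast
      linarith
  have b4 : ∀ d x y : ℕ, N ≤ y + d → |f (x, y)| ≤ 2 * d := by
    intro d
    induction d with
    | zero =>
      intro x y h
      rw [(hf (x, y)).2.2 (Or.inr (Or.inr (Or.inr h)))]
      simp
    | succ d ih =>
      intro x y h
      have h1 := ih x (y + 1) (by omega)
      have h' : |f (x, y + 1) - f (x, y)| ≤ 2 := (hf (x, y)).2.1
      have h2 : |f (x, y)| ≤ |f (x, y + 1) - f (x, y)| + |f (x, y + 1)| := by
        have := abs_sub (f (x, y + 1)) (f (x, y + 1) - f (x, y))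
        rw [sub_sub_cancel] at this
        linarith
      push_cast
      linarith
  have bh : ∀ x y : ℕ, |f (x, y)| ≤ hh K (x, y) := by
    intro x y
    unfold hh
    have h1 := b1 x y
    have h2 := b2 x y
    have h3 := b3 (N - x) x y (by omega)
    have h4 := b4 (N - y) x y (by omega)
    rcases min_choice (min x (N - x)) (min y (N - y)) with h | h
    · show |f (x, y)| ≤ 2 * ((min (min x (N - x)) (min y (N - y)) : ℕ) : ℝ)
      rw [h]
      rcases min_choice x (N - x) with h' | h'
      · rw [h']; exact h1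
      · rw [h']; exact h3
    · show |f (x, y)| ≤ 2 * ((min (min x (N - x)) (min y (N - y)) : ℕ) : ℝ)
      rw [h]
      rcases min_choice y (N - y) with h' | h'
      · rw [h']; exact h2
      · rw [h']; exact h4
  have ix : ∀ x y : ℕ, |hh K (x + 1, y) - hh K (x, y)| ≤ 2 := by
    intro x y
    unfold hh
    show |2 * ((min (min (x + 1) (N - (x + 1))) (min y (N - y)) : ℕ) : ℝ) -
      2 * ((min (min x (N - x)) (min y (N - y)) : ℕ) : ℝ)| ≤ 2
    generalize ha : min (min (x + 1) (N - (x + 1))) (min y (N - y)) = a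
    generalize hb : min (min x (N - x)) (min y (N - y)) = b
    have h1 : a ≤ b + 1 := by omega
    have h2 : b ≤ a + 1 := by omega
    have h1' : (a : ℝ) ≤ b + 1 := by exact_mod_cast h1
    have h2' : (b : ℝ) ≤ a + 1 := by exact_mod_cast h2
    rw [abs_le]
    constructor <;> linarith
  have iy : ∀ x y : ℕ, |hh K (x, y + 1) - hh K (x, y)| ≤ 2 := by
    intro x y
    unfold hh
    show |2 * ((min (min x (N - x)) (min (y + 1) (N - (y + 1))) : ℕ) : ℝ) -
      2 * ((min (min x (N - x)) (min y (N - y)) : ℕ) : ℝ)| ≤ 2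
    generalize ha : min (min x (N - x)) (min (y + 1) (N - (y + 1))) = a
    generalize hb : min (min x (N - x)) (min y (N - y)) = b
    have h1 : a ≤ b + 1 := by omega
    have h2 : b ≤ a + 1 := by omega
    have h1' : (a : ℝ) ≤ b + 1 := by exact_mod_cast h1
    have h2' : (b : ℝ) ≤ a + 1 := by exact_mod_cast h2
    rw [abs_le]
    constructor <;> linarith
  rintro ⟨x, y⟩
  refine ⟨?_, ?_, ?_, ?_⟩
  · have := (abs_le.mp (bh x y)).2
    linarith
  · have h1 := ix x y
    have h2 : |f (x + 1, y) - f (x, y)| ≤ 2 := (hf (x, y)).1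
    show |hh K (x + 1, y) - f (x + 1, y) - (hh K (x, y) - f (x, y))| ≤ 4
    rw [abs_le] at h1 h2 ⊢
    constructor <;> linarith [h1.1, h1.2, h2.1, h2.2]
  · have h1 := iy x y
    have h2 : |f (x, y + 1) - f (x, y)| ≤ 2 := (hf (x, y)).2.1
    show |hh K (x, y + 1) - f (x, y + 1) - (hh K (x, y) - f (x, y))| ≤ 4
    rw [abs_le] at h1 h2 ⊢
    constructor <;> linarith [h1.1, h1.2, h2.1, h2.2]
  · intro h
    rw [(hf (x, y)).2.2 h, sub_zero]
    have h' : x = 0 ∨ y = 0 ∨ N ≤ x ∨ N ≤ y := h
    unfold hh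
    show 2 * ((min (min x (N - x)) (min y (N - y)) : ℕ) : ℝ) = 0
    have : min (min x (N - x)) (min y (N - y)) = 0 := by omega
    rw [this]
    simp

end Pool.Agent.R228.MM
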