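import Pool.Agent.R228.MM.Stm

/-!
# MM-INV: invariance of the mean number of points with long families
-/

set_option autoImplicit false

universe u

namespace Pool.Agent.R228.MM

open MeasureTheory ProbabilityTheory Filter Set
open scoped ENNReal Topology

namespace InvAux

/-- translation of finite sets -/
noncomputable def sh (t : Pt) (F : Finset Pt) : Finset Pt := F.map (addRightEmbedding t)

theorem sh_inj (t : Pt) : Function.Injective (sh t) := Finset.map_injective _

theorem coe_sh (t : Pt) (F : Finset Pt) :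
    ((sh t F : Finset Pt) : Set Pt) = (fun x => x + t) '' (F : Set Pt) := by
  unfold sh
  rw [Finset.coe_map]
  rfl

/-- the translation vector -/
noncomputable def tv (m : ℕ × ℕ) : Pt := WithLp.toLp 2 ![(m.1 : ℝ), (m.2 : ℝ)]

theorem shift_cell (m : ℕ × ℕ) : (fun x => x + tv m) ⁻¹' cell m = cell (0, 0) := by
  ext x
  have e0 : (x + tv m) 0 = x 0 + m.1 := by simp [tv]
  have e1 : (x + tv m) 1 = x 1 + m.2 := by simp [tv]
  simp only [cell, Set.mem_preimage, Set.mem_ofPred_eq, e0, e1, Nat.cast_zero]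
  constructor
  · rintro ⟨h1, h2, h3, h4⟩
    refine ⟨?_, ?_, ?_, ?_⟩ <;> linarith
  · rintro ⟨h1, h2, h3, h4⟩
    refine ⟨?_, ?_, ?_, ?_⟩ <;> linarith

/-- the classes -/
def A (r : ℝ) (m : ℕ × ℕ) (k : ℕ) : Set (Finset Pt) :=
  {F | r < Metric.diam (F : Set Pt) ∧ (k : ℕ∞) < ((F : Set Pt) ∩ cell m).encard}

theorem A_meas (hD : S_DIAM) (hc : ∀ m, MeasurableSet (cell m)) (r : ℝ) (m : ℕ × ℕ) (k : ℕ) :
    MeasurableSet[famSpace] (A r m k) := by
  have h1 := hD r
  have h2 : MeasurableSet[famSpace] {F : Finset Pt | (k : ℕ∞) < ((F : Set Pt) ∩ cell m).encard} := by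
    have h3 : MeasurableSpace.comap
        (fun F : Finset Pt => ((F : Set Pt) ∩ cell m).encard) ⊤ ≤ famSpace :=
      le_iSup (fun B : {B : Set Pt // MeasurableSet B} =>
        MeasurableSpace.comap (fun F : Finset Pt => ((F : Set Pt) ∩ B.1).encard) ⊤) ⟨cell m, hc m⟩
    exact h3 _ ⟨{n | (k : ℕ∞) < n}, trivial, rfl⟩
  exact @MeasurableSet.inter _ famSpace _ _ h1 h2

theorem pre_A (r : ℝ) (m : ℕ × ℕ) (k : ℕ) : sh (tv m) ⁻¹' (A r m k) = A r (0, 0) k := by
  ext F
  have e1 : Metric.diam ((sh (tv m) F : Finset Pt) : Set Pt) = Metric.diam (F : Set Pt) := by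
    rw [coe_sh]
    exact (isometry_add_right (tv m)).diam_image _
  have e2 : (((sh (tv m) F : Finset Pt) : Set Pt) ∩ cell m).encard =
      ((F : Set Pt) ∩ cell (0, 0)).encard := by
    rw [coe_sh, ← Set.image_inter_preimage, (add_left_injective (tv m)).encard_image, shift_cell]
  simp only [A, Set.mem_preimage, Set.mem_ofPred_eq, e1, e2]

theorem enc {α : Type*} (s : Set α) :
    (s.encard : ℝ≥0∞) = ∑' x, s.indicator (fun _ => (1 : ℝ≥0∞)) x := by
  rw [← ENNReal.tsum_set_one]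
  exact tsum_subtype s fun _ => (1 : ℝ≥0∞)

theorem enc' {α : Type*} (s : Set α) [∀ x, Decidable (x ∈ s)] :
    (s.encard : ℝ≥0∞) = ∑' x, if x ∈ s then (1 : ℝ≥0∞) else 0 := by
  rw [enc]
  refine tsum_congr fun x => ?_
  by_cases hx : x ∈ s
  · rw [if_pos hx, Set.indicator_of_mem hx]
  · rw [if_neg hx, Set.indicator_of_notMem hx]

theorem cnt {α : Type*} {s : Set α} (hs : s.Finite) :
    ∑' k : ℕ, (if (k : ℕ∞) < s.encard then (1 : ℝ≥0∞) else 0) = (s.encard : ℝ≥0∞) := by
  obtain ⟨n, hn⟩ : ∃ n : ℕ, s.encard = n := ⟨s.ncard, hs.cast_ncard_eq.symm⟩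
  rw [hn]
  rw [tsum_eq_sum (s := Finset.range n)]
  · have e : ∀ k ∈ Finset.range n, (if (k : ℕ∞) < (n : ℕ∞) then (1 : ℝ≥0∞) else 0) = 1 := by
      intro k hk
      rw [if_pos]
      exact_mod_cast Finset.mem_range.1 hk
    rw [Finset.sum_congr rfl e]
    simp
  · intro k hk
    rw [if_neg]
    intro h
    exact hk (Finset.mem_range.2 (by exact_mod_cast h))

theorem count {q : ℕ} (S : Fin q → Set Pt) (M : Set (Finset Pt))
    (hsub : ∀ F ∈ M, F.Nonempty ∧ (F : Set Pt) ⊆ ⋃ i, S i)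
    (hdisj : ∀ F ∈ M, ∀ G ∈ M, F ≠ G → Disjoint (F : Set Pt) (G : Set Pt)) (m : ℕ × ℕ) (r : ℝ) :
    ((longPts S M m r).encard : ℝ≥0∞) = ∑' k : ℕ, ((M ∩ A r m k).encard : ℝ≥0∞) := by
  classical
  rw [enc']
  have h1 : ∀ x : Pt, (if x ∈ longPts S M m r then (1 : ℝ≥0∞) else 0) =
      ∑' F : Finset Pt, if F ∈ M ∧ r < Metric.diam (F : Set Pt) ∧ x ∈ F ∧ x ∈ cell m then
        (1 : ℝ≥0∞) else 0 := by
    intro x
    by_cases hx : x ∈ longPts S M m r
    · rw [if_pos hx]
      obtain ⟨hc, -, F0, hF0, hxF, hr⟩ := hx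
      rw [tsum_eq_single F0]
      · rw [if_pos ⟨hF0, hr, hxF, hc⟩]
      · intro F hF
        rw [if_neg]
        rintro ⟨hFM, -, hxF', -⟩
        exact Set.disjoint_left.1 (hdisj F hFM F0 hF0 hF) (Finset.mem_coe.2 hxF')
          (Finset.mem_coe.2 hxF)
    · rw [if_neg hx]
      symm
      rw [ENNReal.tsum_eq_zero]
      intro F
      rw [if_neg]
      rintro ⟨hFM, hr, hxF, hc⟩
      exact hx ⟨hc, (hsub F hFM).2 (Finset.mem_coe.2 hxF), F, hFM, hxF, hr⟩
  have h2 : ∀ F : Finset Pt,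
      (∑' x : Pt, if F ∈ M ∧ r < Metric.diam (F : Set Pt) ∧ x ∈ F ∧ x ∈ cell m then
        (1 : ℝ≥0∞) else 0) =
      ∑' k : ℕ, if F ∈ M ∩ A r m k then (1 : ℝ≥0∞) else 0 := by
    intro F
    by_cases hF : F ∈ M ∧ r < Metric.diam (F : Set Pt)
    · have e1 : ∀ x : Pt, (if F ∈ M ∧ r < Metric.diam (F : Set Pt) ∧ x ∈ F ∧ x ∈ cell m then
          (1 : ℝ≥0∞) else 0) = if x ∈ (F : Set Pt) ∩ cell m then 1 else 0 := by
        intro x
        refine if_congr ?_ rfl rfl
        constructor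
        · rintro ⟨_, _, h3, h4⟩
          exact ⟨Finset.mem_coe.2 h3, h4⟩
        · rintro ⟨h3, h4⟩
          exact ⟨hF.1, hF.2, Finset.mem_coe.1 h3, h4⟩
      have e2 : ∀ k : ℕ, (if F ∈ M ∩ A r m k then (1 : ℝ≥0∞) else 0) =
          if (k : ℕ∞) < ((F : Set Pt) ∩ cell m).encard then 1 else 0 := by
        intro k
        refine if_congr ?_ rfl rfl
        constructor
        · rintro ⟨_, _, h3⟩
          exact h3
        · intro h3
          exact ⟨hF.1, hF.2, h3⟩
      simp_rw [e1, e2]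
      rw [← enc', cnt (F.finite_toSet.inter_of_left _)]
    · have e1 : ∀ x : Pt, (if F ∈ M ∧ r < Metric.diam (F : Set Pt) ∧ x ∈ F ∧ x ∈ cell m then
          (1 : ℝ≥0∞) else 0) = 0 := by
        intro x
        rw [if_neg]
        rintro ⟨h3, h4, -⟩
        exact hF ⟨h3, h4⟩
      have e2 : ∀ k : ℕ, (if F ∈ M ∩ A r m k then (1 : ℝ≥0∞) else 0) = 0 := by
        intro k
        rw [if_neg]
        rintro ⟨h3, h4, -⟩
        exact hF ⟨h3, h4⟩
      simp_rw [e1, e2]
      simp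
  simp_rw [h1]
  rw [ENNReal.tsum_comm]
  simp_rw [h2]
  rw [ENNReal.tsum_comm]
  exact tsum_congr fun k => (enc' _).symm

end InvAux

open InvAux

theorem inv (hD : S_DIAM) (hc : ∀ m, MeasurableSet (cell m)) : S_INV.{u} := by
  intro Ω _ P _ q lam V Pi M hPi hM r m
  have hcount : ∀ m : ℕ × ℕ,
      (fun ω => ((longPts (fun i => Pi i ω) (M ω) m r).encard : ℝ≥0∞)) =ᵐ[P]
      fun ω => ∑' k : ℕ, ((M ω ∩ A r m k).encard : ℝ≥0∞) := by
    intro m
    filter_upwards [hM.sub, hM.disj] with ω h1 h2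
    exact count _ _ h1 h2 m r
  have hcoe : Measurable (fun n : ℕ∞ => (n : ℝ≥0∞)) := Measurable.of_discrete
  have hmeas : ∀ (m : ℕ × ℕ) (k : ℕ), Measurable fun ω => ((M ω ∩ A r m k).encard : ℝ≥0∞) :=
    fun m k => hcoe.comp (hM.meas _ (A_meas hD hc r m k))
  refine ⟨?_, ?_⟩
  · exact (Measurable.tsum fun k => hmeas m k).aemeasurable.congr (hcount m).symm
  · rw [lintegral_congr_ae (hcount m), lintegral_congr_ae (hcount (0, 0)),
      lintegral_tsum fun k => (hmeas m k).aemeasurable,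
      lintegral_tsum fun k => (hmeas (0, 0) k).aemeasurable]
    refine tsum_congr fun k => ?_
    have hinv := hM.inv (tv m)
    set f : Ω → (Fin q × {B : Set Pt // MeasurableSet B} → ℕ∞) ×
      ({A : Set (Finset Pt) // MeasurableSet[famSpace] A} → ℕ∞) :=
      fun ω => stat (fun i => Pi i ω) (M ω) with hf
    set g : Ω → (Fin q × {B : Set Pt // MeasurableSet B} → ℕ∞) ×
      ({A : Set (Finset Pt) // MeasurableSet[famSpace] A} → ℕ∞) :=
      fun ω => stat (fun i => (fun x => x + tv m) '' Pi i ω)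
        ((fun F => F.map (addRightEmbedding (tv m))) '' M ω) with hg
    have hfm : Measurable f := by
      refine Measurable.prodMk ?_ ?_
      · exact measurable_pi_lambda _ fun p => hPi.meas p.1 p.2.1 p.2.2
      · exact measurable_pi_lambda _ fun A => hM.meas A.1 A.2
    have hgm : AEMeasurable g P := by
      by_contra hcon
      rw [Measure.map_of_not_aemeasurable hcon] at hinv
      have h1 : P.map f Set.univ = 1 := by
        rw [Measure.map_apply hfm MeasurableSet.univ, Set.preimage_univ, measure_univ]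
      rw [hinv] at h1
      simp at h1
    have hev : Measurable fun z : (Fin q × {B : Set Pt // MeasurableSet B} → ℕ∞) ×
        ({A : Set (Finset Pt) // MeasurableSet[famSpace] A} → ℕ∞) =>
        ((z.2 ⟨A r m k, A_meas hD hc r m k⟩ : ℕ∞) : ℝ≥0∞) :=
      hcoe.comp ((measurable_pi_apply _).comp measurable_snd)
    have e1 := lintegral_map hev hfm (μ := P)
    have e2 := lintegral_map' (μ := P) (f := fun z : (Fin q × {B : Set Pt // MeasurableSet B} → ℕ∞) ×
        ({A : Set (Finset Pt) // MeasurableSet[famSpace] A} → ℕ∞) =>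
        ((z.2 ⟨A r m k, A_meas hD hc r m k⟩ : ℕ∞) : ℝ≥0∞)) hev.aemeasurable hgm
    rw [← hinv] at e2
    have e3 := e1.symm.trans e2
    refine e3.trans ?_
    refine lintegral_congr fun ω => ?_
    have e4 : ((fun F : Finset Pt => F.map (addRightEmbedding (tv m))) '' M ω) ∩ A r m k =
        sh (tv m) '' (M ω ∩ A r (0, 0) k) := by
      rw [← pre_A r m k, Set.image_inter_preimage]
      rfl
    show ((((fun F : Finset Pt => F.map (addRightEmbedding (tv m))) '' M ω) ∩ A r m k).encard :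
      ℝ≥0∞) = _
    rw [e4, (sh_inj _).encard_image]

end Pool.Agent.R228.MM
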