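import Pool.Agent.R228.MM.Stm

/-!
Project MM (helper228, MP_47e84d_pr), piece KOL by helper744: the maximal inequality of Kolmogorov for
sign symmetric increments (through the stopped sum).
-/

universe u

namespace Pool.Agent.R228.MM

open MeasureTheory ProbabilityTheory Filter Set
open scoped ENNReal Topology

namespace Kol

/-- partial sums -/
def T (m : ℕ) (y : ℕ → ℝ) : ℝ := ∑ i ∈ Finset.range m, y i

/-- not yet stopped before the increment number `j` -/
def Nn (t : ℝ) (j : ℕ) (y : ℕ → ℝ) : Prop := ∀ i ∈ Finset.range (j + 1), |T i y| ≤ t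

open scoped Classical in
/-- indicator of `Nn` -/
noncomputable def I1 (t : ℝ) (j : ℕ) (y : ℕ → ℝ) : ℝ := if Nn t j y then 1 else 0

/-- the stopped sum -/
noncomputable def R (t : ℝ) (m : ℕ) (y : ℕ → ℝ) : ℝ := ∑ j ∈ Finset.range m, I1 t j y * y j

lemma I1_pos {t : ℝ} {j : ℕ} {y : ℕ → ℝ} (h : Nn t j y) : I1 t j y = 1 := by
  unfold I1; rw [if_pos h]

lemma I1_neg {t : ℝ} {j : ℕ} {y : ℕ → ℝ} (h : ¬ Nn t j y) : I1 t j y = 0 := by
  unfold I1; rw [if_neg h]

lemma I1_abs (t : ℝ) (j : ℕ) (y : ℕ → ℝ) : |I1 t j y| ≤ 1 := by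
  by_cases h : Nn t j y
  · rw [I1_pos h]; simp
  · rw [I1_neg h]; simp

lemma Nn_succ {t : ℝ} {j : ℕ} {y : ℕ → ℝ} (h : Nn t (j + 1) y) : Nn t j y :=
  fun i hi => h i (Finset.mem_range.2 (by have := Finset.mem_range.1 hi; omega))

lemma R_eq_T {t : ℝ} {y : ℕ → ℝ} : ∀ n : ℕ, Nn t n y → R t n y = T n y
  | 0, _ => by simp [R, T]
  | n + 1, h => by
    have h1 := Nn_succ h
    have ih := R_eq_T n h1
    unfold R T at *
    rw [Finset.sum_range_succ, Finset.sum_range_succ, ih, I1_pos h1, one_mul]

lemma R_big {t : ℝ} {y : ℕ → ℝ} : ∀ n : ℕ, (∃ m ≤ n, t < |T m y|) → t < |R t n y|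
  | 0, ⟨m, hm, h⟩ => by
    have : m = 0 := by omega
    subst this
    simpa [R, T] using h
  | n + 1, ⟨m, hm, h⟩ => by
    have e : R t (n + 1) y = R t n y + I1 t n y * y n := by
      unfold R; rw [Finset.sum_range_succ]
    by_cases h1 : Nn t n y
    · have hmn : m = n + 1 := by
        by_contra hne
        have := h1 m (Finset.mem_range.2 (by omega))
        linarith
      subst hmn
      rw [e, R_eq_T n h1, I1_pos h1, one_mul]
      unfold T at *
      rwa [Finset.sum_range_succ] at h
    · rw [e, I1_neg h1, zero_mul, add_zero]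
      refine R_big n ?_
      unfold Nn at h1
      push Not at h1
      obtain ⟨i, hi, hi2⟩ := h1
      exact ⟨i, by have := Finset.mem_range.1 hi; omega, hi2⟩

lemma T_congr {m : ℕ} {y z : ℕ → ℝ} (h : ∀ i < m, y i = z i) : T m y = T m z :=
  Finset.sum_congr rfl fun i hi => h i (Finset.mem_range.1 hi)

lemma Nn_congr {t : ℝ} {m : ℕ} {y z : ℕ → ℝ} (h : ∀ i < m, y i = z i) : Nn t m y ↔ Nn t m z := by
  unfold Nn
  refine forall₂_congr fun i hi => ?_
  rw [T_congr (y := y) (z := z) fun k hk => h k (by have := Finset.mem_range.1 hi; omega)]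

lemma I1_congr {t : ℝ} {m : ℕ} {y z : ℕ → ℝ} (h : ∀ i < m, y i = z i) : I1 t m y = I1 t m z := by
  by_cases h1 : Nn t m y
  · rw [I1_pos h1, I1_pos ((Nn_congr h).1 h1)]
  · rw [I1_neg h1, I1_neg fun h2 => h1 ((Nn_congr h).2 h2)]

lemma R_congr {t : ℝ} {m : ℕ} {y z : ℕ → ℝ} (h : ∀ i < m, y i = z i) : R t m y = R t m z :=
  Finset.sum_congr rfl fun i hi => by
    have hi' := Finset.mem_range.1 hi
    rw [h i hi', I1_congr fun k hk => h k (hk.trans hi')]

lemma T_meas (m : ℕ) : Measurable (T m) :=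
  Finset.measurable_sum _ fun i _ => measurable_pi_apply i

lemma I1_meas (t : ℝ) (m : ℕ) : Measurable (I1 t m) := by
  unfold I1
  refine Measurable.ite ?_ measurable_const measurable_const
  have e : {y : ℕ → ℝ | Nn t m y} = ⋂ i ∈ Finset.range (m + 1), {y | |T i y| ≤ t} := by
    ext y
    simp [Nn]
  rw [e]
  exact Finset.measurableSet_biInter _ fun i _ => measurableSet_le (T_meas i).abs measurable_const

lemma R_meas (t : ℝ) (m : ℕ) : Measurable (R t m) :=
  Finset.measurable_sum _ fun i _ => (I1_meas t i).mul (measurable_pi_apply i)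

/-- extension of a finite vector by zero -/
def ext {j : ℕ} (x : Fin j → ℝ) (i : ℕ) : ℝ := if h : i < j then x ⟨i, h⟩ else 0

lemma ext_meas (j : ℕ) : Measurable (ext : (Fin j → ℝ) → ℕ → ℝ) := by
  refine measurable_pi_lambda _ fun i => ?_
  unfold ext
  by_cases h : i < j
  · simp only [h, dif_pos]
    exact measurable_pi_apply _
  · simp only [h, dif_neg, not_false_iff]
    exact measurable_const

end Kol

open Kol

theorem kol : S_KOL.{u} := by
  intro Ω _ P _ n d hd hL2 hsym t ht
  have hdm : Measurable fun ω : Ω => fun i : ℕ => d i ω := measurable_pi_lambda _ fun i => hd i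
  have hI : ∀ j, Measurable fun ω => I1 t j (fun i => d i ω) := fun j => (I1_meas t j).comp hdm
  have hR : ∀ j, Measurable fun ω => R t j (fun i => d i ω) := fun j => (R_meas t j).comp hdm
  -- orthogonality
  have horth : ∀ j < n, ∫ ω, R t j (fun i => d i ω) * (I1 t j (fun i => d i ω) * d j ω) ∂P = 0 := by
    intro j hj
    have hc := (hsym j hj).comp (u := fun p : (Fin j → ℝ) × ℝ =>
      R t j (Kol.ext p.1) * (I1 t j (Kol.ext p.1) * p.2))
      ((((R_meas t j).comp (Kol.ext_meas j)).comp measurable_fst).mul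
        ((((I1_meas t j).comp (Kol.ext_meas j)).comp measurable_fst).mul measurable_snd))
    have hi := hc.integral_eq
    simp only [Function.comp_def] at hi
    have e1 : ∀ ω, R t j (Kol.ext fun i : Fin j => d i ω) = R t j (fun i => d i ω) := fun ω =>
      R_congr fun i hi => by simp [Kol.ext, hi]
    have e2 : ∀ ω, I1 t j (Kol.ext fun i : Fin j => d i ω) = I1 t j (fun i => d i ω) := fun ω =>
      I1_congr fun i hi => by simp [Kol.ext, hi]
    simp only [e1, e2, mul_neg, integral_neg] at hi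
    linarith
  -- square integrability
  have he2 : ∀ j, MemLp (fun ω => I1 t j (fun i => d i ω) * d j ω) 2 P := fun j =>
    MemLp.mono (hL2 j) ((hI j).mul (hd j)).aestronglyMeasurable (ae_of_all _ fun ω => by
      rw [Real.norm_eq_abs, Real.norm_eq_abs, abs_mul]
      calc |I1 t j fun i => d i ω| * |d j ω| ≤ 1 * |d j ω| :=
            mul_le_mul_of_nonneg_right (I1_abs _ _ _) (abs_nonneg _)
        _ = |d j ω| := one_mul _)
  have hR2 : ∀ j, MemLp (fun ω => R t j (fun i => d i ω)) 2 P := fun j => by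
    unfold R
    exact memLp_finsetSum _ fun i _ => he2 i
  have hvar : ∀ m ≤ n, ∫ ω, R t m (fun i => d i ω) ^ 2 ∂P ≤ ∑ j ∈ Finset.range m, ∫ ω, d j ω ^ 2 ∂P := by
    intro m
    induction m with
    | zero => intro _; simp [R]
    | succ m ih =>
      intro hm
      have e : ∀ ω, R t (m + 1) (fun i => d i ω) ^ 2 = R t m (fun i => d i ω) ^ 2 +
          (2 * (R t m (fun i => d i ω) * (I1 t m (fun i => d i ω) * d m ω)) +
            (I1 t m (fun i => d i ω) * d m ω) ^ 2) := fun ω => by
        have : R t (m + 1) (fun i => d i ω) = R t m (fun i => d i ω) + I1 t m (fun i => d i ω) * d m ω := by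
          unfold R; rw [Finset.sum_range_succ]
        rw [this]; ring
      simp only [e]
      have i1 := (hR2 m).integrable_sq
      have i2 := (he2 m).integrable_sq
      have i3 : Integrable (fun ω => R t m (fun i => d i ω) * (I1 t m (fun i => d i ω) * d m ω)) P :=
        (hR2 m).integrable_mul (he2 m)
      have i4 : Integrable (fun ω => 2 * (R t m (fun i => d i ω) * (I1 t m (fun i => d i ω) * d m ω)) +
          (I1 t m (fun i => d i ω) * d m ω) ^ 2) P := (i3.const_mul 2).add i2
      rw [integral_add i1 i4, integral_add (i3.const_mul 2) i2, integral_const_mul,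
        horth m (by omega), mul_zero, zero_add, Finset.sum_range_succ]
      refine add_le_add (ih (by omega)) (integral_mono i2 (hL2 m).integrable_sq fun ω => ?_)
      rw [mul_pow]
      calc (I1 t m fun i => d i ω) ^ 2 * d m ω ^ 2 ≤ 1 * d m ω ^ 2 :=
            mul_le_mul_of_nonneg_right ((sq_le_one_iff_abs_le_one _).2 (I1_abs _ _ _)) (sq_nonneg _)
        _ = d m ω ^ 2 := one_mul _
  have hcheb := mul_meas_ge_le_integral_of_nonneg (μ := P) (f := fun ω => R t n (fun i => d i ω) ^ 2)
    (ae_of_all _ fun ω => sq_nonneg _) (hR2 n).integrable_sq (t ^ 2)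
  rw [le_div_iff₀ (by positivity), mul_comm]
  refine le_trans (mul_le_mul_of_nonneg_left ?_ (by positivity)) (hcheb.trans (hvar n le_rfl))
  refine measureReal_mono fun ω hω => ?_
  have h := R_big (t := t) (y := fun i => d i ω) n hω
  show t ^ 2 ≤ R t n (fun i => d i ω) ^ 2
  rw [← sq_abs (R t n _)]
  exact pow_le_pow_left₀ ht.le h.le 2

end Pool.Agent.R228.MM
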