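import Pool.Agent.R228.MM.Defs

/-!
# Critical multicolour Poisson matchings: exact statements of the pieces
-/

universe u

namespace Pool.Agent.R228.MM

open MeasureTheory ProbabilityTheory Filter Set
open scoped ENNReal Topology

/-- MM-GEO1: bounds for the profiles -/
def S_GEO1 : Prop :=
  (∀ k a b : ℕ, 1 ≤ k → a < 2 ^ k → b < 2 ^ k →
    |prof k (a + 1) b - prof k a b| ≤ 1 ∧ |prof k a (b + 1) - prof k a b| ≤ 1) ∧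
  (∀ k a b : ℕ, 1 ≤ k → a ≤ 2 ^ k → b ≤ 2 ^ k → |prof k a b| ≤ 2 ^ k) ∧
  (∀ k b : ℕ, 1 ≤ k → prof k 0 b = 0 ∧ prof k (2 ^ k) b = 0) ∧
  (∀ k a : ℕ, prof k a 0 = 0 ∧ prof k a (2 ^ k) = 0) ∧
  (∀ k' j : ℕ, k' < j → ∀ w z : ℕ × ℕ, idx k' w = idx k' z →
    |dx j w - dx j z| ≤ 4 * 2 ^ k' / 2 ^ j ∧ |dy j w - dy j z| ≤ 4 * 2 ^ k' / 2 ^ j)

/-- MM-GEO2: correlation of the sign pattern with the profile -/
def S_GEO2 : Prop :=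
  ∀ k : ℕ, 2 ≤ k → (8 : ℝ) ^ k / 256 ≤
    ∑ a ∈ Finset.range (2 ^ k), ∑ b ∈ Finset.range (2 ^ k), psi k a * prof k a b

/-- MM-LIP: the test function is Lipschitz and vanishes on the boundary of the box -/
def S_LIP : Prop :=
  ∀ (c : ℝ) (K : ℕ) (ξ : ℕ × ℕ → ℝ) (z : ℕ × ℕ),
    |testf c K ξ (z.1 + 1, z.2) - testf c K ξ z| ≤ 2 ∧
    |testf c K ξ (z.1, z.2 + 1) - testf c K ξ z| ≤ 2 ∧
    (z.1 = 0 ∨ z.2 = 0 ∨ 2 ^ K ≤ z.1 ∨ 2 ^ K ≤ z.2 → testf c K ξ z = 0)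

/-- MM-MEAS: measurability and boundedness of the test function -/
def S_MEAS : Prop :=
  (∀ (c : ℝ) (K : ℕ) (z : ℕ × ℕ), Measurable fun ξ : ℕ × ℕ → ℝ => testf c K ξ z) ∧
  (∀ (c : ℝ) (K k : ℕ) (z : ℕ × ℕ), MeasurableSet {ξ : ℕ × ℕ → ℝ | Nst c K ξ k z}) ∧
  (∀ (k : ℕ) (p : ℕ × ℕ), Measurable fun ξ : ℕ × ℕ → ℝ => co ξ k p)

/-- MM-MOM: moments of weighted sums of the array -/
def S_MOM : Prop :=
  ∀ {Ω : Type u} [MeasurableSpace Ω] (P : Measure Ω) [IsProbabilityMeasure P]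
    (X : ℕ × ℕ → Ω → ℝ) (s2 M4 : ℝ), IsArr P X s2 M4 →
    ∀ (s : Finset (ℕ × ℕ)) (w w' : ℕ × ℕ → ℝ),
      MemLp (fun ω => ∑ z ∈ s, w z * X z ω) 4 P ∧
      ∫ ω, (∑ z ∈ s, w z * X z ω) ^ 4 ∂P ≤ 3 * M4 * (∑ z ∈ s, w z ^ 2) ^ 2 ∧
      ∫ ω, (∑ z ∈ s, w z * X z ω) * (∑ z ∈ s, w' z * X z ω) ∂P = s2 * ∑ z ∈ s, w z * w' z

/-- MM-KOL: Kolmogorov's maximal inequality for sequences with sign symmetric increments -/
def S_KOL : Prop :=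
  ∀ {Ω : Type u} [MeasurableSpace Ω] (P : Measure Ω) [IsProbabilityMeasure P]
    (n : ℕ) (d : ℕ → Ω → ℝ), (∀ j, Measurable (d j)) → (∀ j, MemLp (d j) 2 P) →
    (∀ j < n, IdentDistrib (fun ω => ((fun i : Fin j => d i ω), d j ω))
      (fun ω => ((fun i : Fin j => d i ω), -d j ω)) P P) →
    ∀ t : ℝ, 0 < t →
      P.real {ω | ∃ m ≤ n, t < |∑ j ∈ Finset.range m, d j ω|} ≤
        (∑ j ∈ Finset.range n, ∫ ω, d j ω ^ 2 ∂P) / t ^ 2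

/-- MM-SYM: sign symmetry of the coefficients along a chain of dyadic squares -/
def S_SYM : Prop :=
  ∀ {Ω : Type u} [MeasurableSpace Ω] (P : Measure Ω) [IsProbabilityMeasure P]
    (X : ℕ × ℕ → Ω → ℝ) (s2 M4 : ℝ), IsArr P X s2 M4 →
    ∀ (K k : ℕ) (z : ℕ × ℕ), 1 ≤ k → k ≤ K →
      IdentDistrib
        (fun ω => ((fun i : Fin (K - k) => co (fun q => X q ω) (K - i) (idx (K - i) z)),
          co (fun q => X q ω) k (idx k z)))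
        (fun ω => ((fun i : Fin (K - k) => co (fun q => X q ω) (K - i) (idx (K - i) z)),
          -co (fun q => X q ω) k (idx k z))) P P

/-- MM-PROB: a square is stopped with small probability -/
def S_PROB : Prop :=
  ∀ {Ω : Type u} [MeasurableSpace Ω] (P : Measure Ω) [IsProbabilityMeasure P]
    (X : ℕ × ℕ → Ω → ℝ) (s2 M4 : ℝ), IsArr P X s2 M4 →
    ∀ (c : ℝ) (K k : ℕ) (z : ℕ × ℕ), 0 ≤ c → 1 ≤ k → k ≤ K →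
      P.real {ω | ¬ Nst c K (fun q => X q ω) k z} ≤ 100 * c ^ 2 * K * s2

open scoped Classical in
/-- MM-GAIN: gain from one square -/
def S_GAIN : Prop :=
  ∀ {Ω : Type u} [MeasurableSpace Ω] (P : Measure Ω) [IsProbabilityMeasure P]
    (X : ℕ × ℕ → Ω → ℝ) (s2 M4 : ℝ), IsArr P X s2 M4 → 0 < s2 →
    ∀ (c : ℝ) (K k : ℕ) (p : ℕ × ℕ), 0 ≤ c → 2 ≤ k → k ≤ K →
      300 * c ^ 2 * K * s2 * M4 ≤ (s2 / 512) ^ 2 →
      Integrable (fun ω => if Nst c K (fun q => X q ω) k (2 ^ k * p.1, 2 ^ k * p.2) then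
        co (fun q => X q ω) k p * ∑ a ∈ Finset.range (2 ^ k), ∑ b ∈ Finset.range (2 ^ k),
          prof k a b * X (2 ^ k * p.1 + a, 2 ^ k * p.2 + b) ω else 0) P ∧
      4 ^ k * s2 / 512 ≤ ∫ ω, (if Nst c K (fun q => X q ω) k (2 ^ k * p.1, 2 ^ k * p.2) then
        co (fun q => X q ω) k p * ∑ a ∈ Finset.range (2 ^ k), ∑ b ∈ Finset.range (2 ^ k),
          prof k a b * X (2 ^ k * p.1 + a, 2 ^ k * p.2 + b) ω else 0) ∂P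

open scoped Classical in
/-- MM-RE: rearrangement of the sum of the test function by scales and squares -/
def S_RE : Prop :=
  ∀ (c : ℝ) (K : ℕ) (ξ : ℕ × ℕ → ℝ),
    ∑ z ∈ Finset.range (2 ^ K) ×ˢ Finset.range (2 ^ K), ξ z * testf c K ξ z =
      ∑ k ∈ Finset.Icc 2 K,
        ∑ p ∈ Finset.range (2 ^ (K - k)) ×ˢ Finset.range (2 ^ (K - k)),
          c * (if Nst c K ξ k (2 ^ k * p.1, 2 ^ k * p.2) then
            co ξ k p * ∑ a ∈ Finset.range (2 ^ k), ∑ b ∈ Finset.range (2 ^ k),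
              prof k a b * ξ (2 ^ k * p.1 + a, 2 ^ k * p.2 + b) else 0)

/-- MM-AKT: the lower bound for arrays -/
def S_AKT : Prop :=
  ∀ s2 M4 : ℝ, 0 < s2 → 0 < M4 → ∃ c : ℝ, 0 < c ∧ ∀ K : ℕ, 2 ≤ K → ∃ cK : ℝ,
    ∀ {Ω : Type u} [MeasurableSpace Ω] (P : Measure Ω) [IsProbabilityMeasure P]
      (X : ℕ × ℕ → Ω → ℝ), IsArr P X s2 M4 →
      Integrable (fun ω => ∑ z ∈ Finset.range (2 ^ K) ×ˢ Finset.range (2 ^ K),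
        X z ω * testf cK K (fun q => X q ω) z) P ∧
      c * √K * 4 ^ K ≤ ∫ ω, ∑ z ∈ Finset.range (2 ^ K) ×ˢ Finset.range (2 ^ K),
        X z ω * testf cK K (fun q => X q ω) z ∂P

/-- distance to the boundary of the box, times two -/
noncomputable def hh (K : ℕ) (z : ℕ × ℕ) : ℝ :=
  2 * ((min (min z.1 (2 ^ K - z.1)) (min z.2 (2 ^ K - z.2)) : ℕ) : ℝ)

/-- MM-HH: adding `hh` makes a Lipschitz function nonnegative -/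
def S_HH : Prop :=
  ∀ (K : ℕ) (f : ℕ × ℕ → ℝ),
    (∀ z : ℕ × ℕ, |f (z.1 + 1, z.2) - f z| ≤ 2 ∧ |f (z.1, z.2 + 1) - f z| ≤ 2 ∧
      (z.1 = 0 ∨ z.2 = 0 ∨ 2 ^ K ≤ z.1 ∨ 2 ^ K ≤ z.2 → f z = 0)) →
    ∀ z : ℕ × ℕ, 0 ≤ hh K z - f z ∧
      |(hh K (z.1 + 1, z.2) - f (z.1 + 1, z.2)) - (hh K z - f z)| ≤ 4 ∧
      |(hh K (z.1, z.2 + 1) - f (z.1, z.2 + 1)) - (hh K z - f z)| ≤ 4 ∧
      (z.1 = 0 ∨ z.2 = 0 ∨ 2 ^ K ≤ z.1 ∨ 2 ^ K ≤ z.2 → hh K z - f z = 0)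

/-- MM-SUPP: a supporting functional at a critical point of the cone -/
def S_SUPP : Prop :=
  ∀ {q : ℕ} (lam : Fin q → ℝ) (V : Finset (Fin q → ℕ)), lam ∈ frontier (coneV V) →
    ∃ l : Fin q → ℝ, l ≠ 0 ∧ ∑ i, l i * lam i = 0 ∧ ∀ v ∈ V, 0 ≤ ∑ i, l i * (v i : ℝ)

/-- MM-CNT: mean number of points in a cell -/
def S_CNT : Prop :=
  ∀ {Ω : Type u} [MeasurableSpace Ω] (P : Measure Ω) [IsProbabilityMeasure P] {q : ℕ}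
    (lam : Fin q → ℝ) (Pi : Fin q → Ω → Set Pt), (∀ i, 0 < lam i) → IsPoisson P lam Pi →
    ∀ i m, ∫⁻ ω, ((Pi i ω ∩ cell m).encard : ℝ≥0∞) ∂P = ENNReal.ofReal (lam i)

/-- MM-ARR: the array of a Poisson process -/
def S_ARR : Prop :=
  ∀ {q : ℕ} (lam l : Fin q → ℝ), (∀ i, 0 < lam i) → l ≠ 0 → ∑ i, l i * lam i = 0 →
    ∃ s2 M4 : ℝ, 0 < s2 ∧ 0 < M4 ∧
      ∀ {Ω : Type u} [MeasurableSpace Ω] (P : Measure Ω) [IsProbabilityMeasure P]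
        (Pi : Fin q → Ω → Set Pt), IsPoisson P lam Pi → IsArr P (arr l Pi) s2 M4

/-- MM-DET: the deterministic inequality -/
def S_DET : Prop :=
  ∀ {q : ℕ} (l : Fin q → ℝ) (V : Finset (Fin q → ℕ)),
    (∀ v ∈ V, 0 ≤ ∑ i, l i * (v i : ℝ)) → ∃ C1 : ℝ, 0 < C1 ∧
    ∀ (S : Fin q → Set Pt) (M : Set (Finset Pt)) (K : ℕ) (g : ℕ × ℕ → ℝ),
      (∀ i, ∀ m : ℕ × ℕ, m.1 < 2 ^ K → m.2 < 2 ^ K → (S i ∩ cell m).Finite) →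
      (∀ F ∈ M, F.Nonempty ∧ (F : Set Pt) ⊆ ⋃ i, S i) →
      (∀ F ∈ M, ∀ G ∈ M, F ≠ G → Disjoint (F : Set Pt) (G : Set Pt)) →
      (∀ x ∈ ⋃ i, S i, ∃ F ∈ M, x ∈ F) →
      (∀ F ∈ M, ∃ v ∈ V, ∀ i, ((F : Set Pt) ∩ S i).ncard = v i) →
      (∀ z, 0 ≤ g z) →
      (∀ z : ℕ × ℕ, |g (z.1 + 1, z.2) - g z| ≤ 4) →
      (∀ z : ℕ × ℕ, |g (z.1, z.2 + 1) - g z| ≤ 4) →
      (∀ z : ℕ × ℕ, z.1 = 0 ∨ z.2 = 0 ∨ 2 ^ K ≤ z.1 ∨ 2 ^ K ≤ z.2 → g z = 0) →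
      -∑ m ∈ Finset.range (2 ^ K) ×ˢ Finset.range (2 ^ K),
          (∑ i, l i * (((S i ∩ cell m).encard.toNat : ℕ) : ℝ)) * g m ≤
        C1 * ∑ m ∈ Finset.range (2 ^ K) ×ˢ Finset.range (2 ^ K),
          (((((⋃ i, S i) ∩ cell m).encard.toNat : ℕ) : ℝ) +
            ∑ j ∈ Finset.range (2 ^ K), (((longPts S M m j).encard.toNat : ℕ) : ℝ))

/-- MM-DIAM: measurability of the diameter -/
def S_DIAM : Prop :=
  ∀ r : ℝ, MeasurableSet[famSpace] {F : Finset Pt | r < Metric.diam (F : Set Pt)}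

/-- MM-INV: invariance of the mean number of points with long families -/
def S_INV : Prop :=
  ∀ {Ω : Type u} [MeasurableSpace Ω] (P : Measure Ω) [IsProbabilityMeasure P] {q : ℕ}
    (lam : Fin q → ℝ) (V : Finset (Fin q → ℕ)) (Pi : Fin q → Ω → Set Pt)
    (M : Ω → Set (Finset Pt)), IsPoisson P lam Pi → IsScheme P V Pi M →
    ∀ (r : ℝ) (m : ℕ × ℕ),
      AEMeasurable (fun ω => ((longPts (fun i => Pi i ω) (M ω) m r).encard : ℝ≥0∞)) P ∧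
      ∫⁻ ω, ((longPts (fun i => Pi i ω) (M ω) m r).encard : ℝ≥0∞) ∂P =
        ∫⁻ ω, ((longPts (fun i => Pi i ω) (M ω) (0, 0) r).encard : ℝ≥0∞) ∂P

/-- MM-FIN: final calculus -/
def S_FIN : Prop :=
  ∀ c1 : ℝ, 0 < c1 → ∃ c R0 : ℝ, 0 < c ∧ ∀ T : ℝ → ℝ≥0∞, Antitone T → (∀ r, T r ≤ 1) →
    (∀ K : ℕ, 2 ≤ K →
      ENNReal.ofReal (c1 * √K) ≤ (∑ j ∈ Finset.range (2 ^ K), T j) + 1) →
    (∀ R : ℝ, R0 ≤ R → ENNReal.ofReal (c * √(Real.log R)) ≤ ∫⁻ r in Set.Ioc 0 R, T r) ∧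
    (∃ᶠ r in atTop, ENNReal.ofReal (c / (r * √(Real.log r))) ≤ T r) ∧
    (∀ C : ℝ, ∃ᶠ r in atTop, ENNReal.ofReal (C / (r * Real.log r)) ≤ T r)

end Pool.Agent.R228.MM
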