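import Mathlib
import Pool.Agent.R228.MM.Defs
import Pool.Agent.R228.MM.Stm

/-!
MM-LIP (MP_47e84d_pr): the multiscale test function is Lipschitz.
-/

namespace Pool.Agent.R228.MM

namespace Lipx

open Finset

/-- squares of a larger scale -/
theorem idx_le {k k' : ℕ} (hk : k ≤ k') {w z : ℕ × ℕ} (h : idx k w = idx k z) :
    idx k' w = idx k' z := by
  unfold idx at h ⊢
  rw [Prod.mk.injEq] at h
  obtain ⟨h1, h2⟩ := h
  obtain ⟨d, rfl⟩ := Nat.exists_eq_add_of_le hk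
  rw [pow_add, ← Nat.div_div_eq_div_mul, ← Nat.div_div_eq_div_mul, ← Nat.div_div_eq_div_mul,
    ← Nat.div_div_eq_div_mul, h1, h2]

theorem nst_imp {c : ℝ} {K : ℕ} {ξ : ℕ × ℕ → ℝ} {k : ℕ} {w z : ℕ × ℕ} (h : idx k w = idx k z)
    (hn : Nst c K ξ k z) : Nst c K ξ k w := by
  refine ⟨fun k' hk' v hv => hn.1 k' hk' v (hv.trans (idx_le (mem_Icc.1 hk').1 h)),
    fun j hj => ?_⟩
  rw [idx_le (mem_Icc.1 hj).1 h]
  exact hn.2 j hj

theorem nst_iff {c : ℝ} {K : ℕ} {ξ : ℕ × ℕ → ℝ} {k : ℕ} {w z : ℕ × ℕ} (h : idx k w = idx k z) :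
    Nst c K ξ k w ↔ Nst c K ξ k z :=
  ⟨nst_imp h.symm, nst_imp h⟩

theorem nst_mono {c : ℝ} {K : ℕ} {ξ : ℕ × ℕ → ℝ} {k k1 : ℕ} {z : ℕ × ℕ} (hk : k ≤ k1)
    (hn : Nst c K ξ k z) : Nst c K ξ k1 z := by
  refine ⟨fun k' hk' => hn.1 k' ?_, fun j hj => hn.2 j ?_⟩
  · rw [mem_Icc] at hk' ⊢
    exact ⟨hk.trans hk'.1, hk'.2⟩
  · rw [mem_Icc] at hj ⊢
    exact ⟨hk.trans hj.1, hj.2⟩

theorem bound (K : ℕ) (p : ℕ → Prop) [DecidablePred p] (hp : ∀ k k1, k ≤ k1 → p k → p k1)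
    (a D : ℕ → ℝ) (hD : ∀ k, 1 ≤ k → |D k| ≤ 1)
    (hU : ∀ k, 2 ≤ k → k ≤ K → p k → |∑ j ∈ Icc (k + 1) K, a j * D j| ≤ 1 ∧ |a k| ≤ 1) :
    |∑ k ∈ Icc 2 K, (if p k then a k * D k else 0)| ≤ 2 := by
  by_cases h : ∃ k, 2 ≤ k ∧ k ≤ K ∧ p k
  · classical
    obtain ⟨h2, hK, hpk⟩ := Nat.find_spec h
    have hmin : ∀ k, k < Nat.find h → ¬ (2 ≤ k ∧ k ≤ K ∧ p k) := fun k hk => Nat.find_min h hk
    set k0 := Nat.find h
    have e1 : (Icc 2 K).filter p = Icc k0 K := by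
      ext k
      rw [mem_filter, mem_Icc, mem_Icc]
      constructor
      · rintro ⟨⟨h3, h4⟩, h5⟩
        refine ⟨?_, h4⟩
        by_contra h6
        exact hmin k (not_le.1 h6) ⟨h3, h4, h5⟩
      · rintro ⟨h3, h4⟩
        exact ⟨⟨h2.trans h3, h4⟩, hp _ _ h3 hpk⟩
    rw [← sum_filter, e1, ← Finset.insert_Icc_add_one_left_eq_Icc hK,
      sum_insert (by rw [mem_Icc]; omega)]
    obtain ⟨h3, h4⟩ := hU k0 h2 hK hpk
    have h5 : |a k0 * D k0| ≤ 1 := by
      rw [abs_mul]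
      exact mul_le_one₀ h4 (abs_nonneg _) (hD k0 (by omega))
    exact (abs_add_le _ _).trans (by linarith)
  · have e : ∑ k ∈ Icc 2 K, (if p k then a k * D k else 0) = 0 := by
      refine sum_eq_zero fun k hk => ?_
      rw [mem_Icc] at hk
      rw [if_neg]
      exact fun h1 => h ⟨k, hk.1, hk.2, h1⟩
    rw [e, abs_zero]
    norm_num

open scoped Classical in
theorem step (c : ℝ) (K : ℕ) (ξ : ℕ × ℕ → ℝ) (z z' : ℕ × ℕ) (D : ℕ → ℝ)
    (hz : z.1 < 2 ^ K ∧ z.2 < 2 ^ K)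
    (H : ∀ k ∈ Icc 2 K, ((z'.1 < 2 ^ K ∧ z'.2 < 2 ^ K) ∧ idx k z' = idx k z ∧
      bmp k z' = bmp k z + D k) ∨
      (bmp k z + D k = 0 ∧ ((z'.1 < 2 ^ K ∧ z'.2 < 2 ^ K) → bmp k z' = 0))) :
    testf c K ξ z' - testf c K ξ z =
      ∑ k ∈ Icc 2 K, (if Nst c K ξ k z then (c * co ξ k (idx k z)) * D k else 0) := by
  unfold testf
  rw [if_pos hz]
  by_cases hz' : z'.1 < 2 ^ K ∧ z'.2 < 2 ^ K
  · rw [if_pos hz', ← sum_sub_distrib]
    refine sum_congr rfl fun k hk => ?_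
    rcases H k hk with ⟨-, h2, h3⟩ | ⟨h1, h2⟩
    · rw [h3, h2]
      by_cases hn : Nst c K ξ k z
      · rw [if_pos hn, if_pos hn, if_pos ((nst_iff h2).2 hn)]
        ring
      · rw [if_neg hn, if_neg hn, if_neg (fun h => hn ((nst_iff h2).1 h)), sub_zero]
    · rw [h2 hz', mul_zero, ite_self, zero_sub]
      have e : D k = - bmp k z := by linarith
      rw [e]
      split_ifs
      · ring
      · exact neg_zero
  · rw [if_neg hz', zero_sub, ← sum_neg_distrib]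
    refine sum_congr rfl fun k hk => ?_
    rcases H k hk with ⟨h0, -, -⟩ | ⟨h1, -⟩
    · exact absurd h0 hz'
    · have e : D k = - bmp k z := by linarith
      rw [e]
      split_ifs
      · ring
      · exact neg_zero

theorem nat_step (a k K : ℕ) (hk : k ≤ K) (ha : a < 2 ^ K) :
    (a % 2 ^ k + 1 < 2 ^ k ∧ a + 1 < 2 ^ K ∧ (a + 1) / 2 ^ k = a / 2 ^ k ∧
      (a + 1) % 2 ^ k = a % 2 ^ k + 1) ∨ (a % 2 ^ k + 1 = 2 ^ k ∧ (a + 1) % 2 ^ k = 0) := by
  have hpos : 0 < 2 ^ k := by positivity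
  have hlt := Nat.mod_lt a hpos
  have hdm := Nat.div_add_mod a (2 ^ k)
  rcases Nat.lt_or_ge (a % 2 ^ k + 1) (2 ^ k) with h | h
  · left
    have e1 : a + 1 = (a % 2 ^ k + 1) + 2 ^ k * (a / 2 ^ k) := by omega
    have h1 : (a + 1) / 2 ^ k = a / 2 ^ k := by
      rw [e1, Nat.add_mul_div_left _ _ hpos, Nat.div_eq_of_lt h, zero_add]
    have h2 : (a + 1) % 2 ^ k = a % 2 ^ k + 1 := by
      rw [e1, Nat.add_mul_mod_self_left, Nat.mod_eq_of_lt h]
    refine ⟨h, ?_, h1, h2⟩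
    rcases Nat.lt_or_ge (a + 1) (2 ^ K) with h3 | h3
    · exact h3
    · exfalso
      have h4 : a + 1 = 2 ^ K := by omega
      have h5 : (a + 1) % 2 ^ k = 0 := by
        rw [h4]
        exact Nat.mod_eq_zero_of_dvd (pow_dvd_pow 2 hk)
      omega
  · right
    have h1 : a % 2 ^ k + 1 = 2 ^ k := by omega
    refine ⟨h1, ?_⟩
    have e1 : a + 1 = 2 ^ k + 2 ^ k * (a / 2 ^ k) := by omega
    rw [e1, Nat.add_mul_mod_self_left, Nat.mod_self]

end Lipx

open Lipx in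
theorem lip (h : S_GEO1) : S_LIP := by
  classical
  obtain ⟨g1, -, g3, g4, -⟩ := h
  intro c K ξ z
  have hpos : ∀ k : ℕ, 0 < 2 ^ k := fun k => by positivity
  refine ⟨?_, ?_, ?_⟩
  · by_cases hz : z.1 < 2 ^ K ∧ z.2 < 2 ^ K
    · rw [step c K ξ z (z.1 + 1, z.2) (fun k => dx k z) hz ?_]
      · refine bound K (fun k => Nst c K ξ k z) (fun k k1 hk hn => nst_mono hk hn)
          (fun k => c * co ξ k (idx k z)) (fun k => dx k z)
          (fun k hk => (g1 k _ _ hk (Nat.mod_lt _ (hpos k)) (Nat.mod_lt _ (hpos k))).1)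
          fun k h2 hK hn => ?_
        exact ⟨(hn.1 k (Finset.mem_Icc.2 ⟨le_rfl, hK⟩) z rfl).1,
          hn.2 k (Finset.mem_Icc.2 ⟨le_rfl, hK⟩)⟩
      · intro k hk
        rw [Finset.mem_Icc] at hk
        rcases nat_step z.1 k K hk.2 hz.1 with ⟨h1, h2, h3, h4⟩ | ⟨h1, h2⟩
        · left
          refine ⟨⟨h2, hz.2⟩, ?_, ?_⟩
          · unfold idx
            rw [h3]
          · unfold bmp dx
            rw [h4]
            ring
        · right
          refine ⟨?_, fun _ => ?_⟩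
          · unfold bmp dx
            rw [h1, (g3 k _ (by omega)).2]
            ring
          · unfold bmp
            rw [h2]
            exact (g3 k _ (by omega)).1
    · have e1 : testf c K ξ z = 0 := by
        unfold testf
        rw [if_neg hz]
      have e2 : testf c K ξ (z.1 + 1, z.2) = 0 := by
        unfold testf
        rw [if_neg]
        rintro ⟨h1, h2⟩
        exact hz ⟨lt_of_le_of_lt (Nat.le_succ _) h1, h2⟩
      rw [e1, e2, sub_zero, abs_zero]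
      norm_num
  · by_cases hz : z.1 < 2 ^ K ∧ z.2 < 2 ^ K
    · rw [step c K ξ z (z.1, z.2 + 1) (fun k => dy k z) hz ?_]
      · refine bound K (fun k => Nst c K ξ k z) (fun k k1 hk hn => nst_mono hk hn)
          (fun k => c * co ξ k (idx k z)) (fun k => dy k z)
          (fun k hk => (g1 k _ _ hk (Nat.mod_lt _ (hpos k)) (Nat.mod_lt _ (hpos k))).2)
          fun k h2 hK hn => ?_
        exact ⟨(hn.1 k (Finset.mem_Icc.2 ⟨le_rfl, hK⟩) z rfl).2,
          hn.2 k (Finset.mem_Icc.2 ⟨le_rfl, hK⟩)⟩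
      · intro k hk
        rw [Finset.mem_Icc] at hk
        rcases nat_step z.2 k K hk.2 hz.2 with ⟨h1, h2, h3, h4⟩ | ⟨h1, h2⟩
        · left
          refine ⟨⟨hz.1, h2⟩, ?_, ?_⟩
          · unfold idx
            rw [h3]
          · unfold bmp dy
            rw [h4]
            ring
        · right
          refine ⟨?_, fun _ => ?_⟩
          · unfold bmp dy
            rw [h1, (g4 k _).2]
            ring
          · unfold bmp
            rw [h2]
            exact (g4 k _).1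
    · have e1 : testf c K ξ z = 0 := by
        unfold testf
        rw [if_neg hz]
      have e2 : testf c K ξ (z.1, z.2 + 1) = 0 := by
        unfold testf
        rw [if_neg]
        rintro ⟨h1, h2⟩
        exact hz ⟨h1, lt_of_le_of_lt (Nat.le_succ _) h2⟩
      rw [e1, e2, sub_zero, abs_zero]
      norm_num
  · intro hb
    unfold testf
    split_ifs with hz
    · refine Finset.sum_eq_zero fun k hk => ?_
      rw [Finset.mem_Icc] at hk
      have e : bmp k z = 0 := by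
        unfold bmp
        rcases hb with h1 | h1 | h1 | h1
        · rw [h1, Nat.zero_mod]
          exact (g3 k _ (by omega)).1
        · rw [h1, Nat.zero_mod]
          exact (g4 k _).1
        · exact absurd hz.1 (not_lt.2 h1)
        · exact absurd hz.2 (not_lt.2 h1)
      rw [e, mul_zero, ite_self]
    · rfl

end Pool.Agent.R228.MM
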