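import Pool.Agent.R228.MM.Stm

/-!
# Critical multicolour Poisson matchings: assembly
-/

universe u

namespace Pool.Agent.R228.MM

open MeasureTheory ProbabilityTheory Filter Set
open scoped ENNReal Topology

theorem ofReal_integral_le {Ω : Type*} [MeasurableSpace Ω] {P : Measure Ω} {f : Ω → ℝ}
    (hf : Integrable f P) : ENNReal.ofReal (∫ ω, f ω ∂P) ≤ ∫⁻ ω, ENNReal.ofReal (f ω) ∂P := by
  have h1 : ∫ ω, f ω ∂P ≤ ∫ ω, max (f ω) 0 ∂P :=
    integral_mono hf hf.pos_part (fun ω => le_max_left _ _)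
  refine (ENNReal.ofReal_le_ofReal h1).trans ?_
  rw [ofReal_integral_eq_lintegral_ofReal hf.pos_part (Eventually.of_forall fun ω => le_max_right _ _)]
  refine lintegral_mono fun ω => ?_
  rcases le_total (f ω) 0 with h | h
  · simp [max_eq_right h]
  · simp [max_eq_left h]

theorem ofReal_toNat_le (a : ℕ∞) : ENNReal.ofReal ((a.toNat : ℕ) : ℝ) ≤ (a : ℝ≥0∞) := by
  rw [ENNReal.ofReal_natCast]
  induction a using ENat.recTopCoe with
  | top => simp
  | coe a => simp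

theorem palm_antitone {Ω : Type*} [MeasurableSpace Ω] (P : Measure Ω) {q : ℕ} (lam : Fin q → ℝ)
    (Pi : Fin q → Ω → Set Pt) (M : Ω → Set (Finset Pt)) : Antitone (palmTail P lam Pi M) := by
  intro r r' hr
  unfold palmTail
  gcongr with ω
  rintro x ⟨h1, h2, F, hF, hx, hd⟩
  exact ⟨h1, h2, F, hF, hx, lt_of_le_of_lt hr hd⟩

theorem encard_iUnion_le {q : ℕ} (S : Fin q → Set Pt) (B : Set Pt) :
    (((⋃ i, S i) ∩ B).encard : ℝ≥0∞) ≤ ∑ i, ((S i ∩ B).encard : ℝ≥0∞) := by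
  classical
  have h : ∀ s : Finset (Fin q), ((⋃ i ∈ s, (S i ∩ B)).encard : ℝ≥0∞) ≤
      ∑ i ∈ s, ((S i ∩ B).encard : ℝ≥0∞) := by
    intro s
    induction s using Finset.induction_on with
    | empty => simp
    | insert a s ha ih =>
      rw [Finset.sum_insert ha, Finset.set_biUnion_insert]
      calc (((S a ∩ B) ∪ ⋃ i ∈ s, S i ∩ B).encard : ℝ≥0∞)
          ≤ (((S a ∩ B).encard + (⋃ i ∈ s, S i ∩ B).encard : ℕ∞) : ℝ≥0∞) := by
            gcongr
            exact Set.encard_union_le _ _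
        _ = ((S a ∩ B).encard : ℝ≥0∞) + ((⋃ i ∈ s, S i ∩ B).encard : ℝ≥0∞) := by push_cast; rfl
        _ ≤ _ := by gcongr
  have := h Finset.univ
  simpa [Set.iUnion_inter] using this

theorem lint_union_le (hCnt : S_CNT.{u}) {Ω : Type u} [MeasurableSpace Ω] (P : Measure Ω)
    [IsProbabilityMeasure P] {q : ℕ} (lam : Fin q → ℝ) (Pi : Fin q → Ω → Set Pt)
    (hlam : ∀ i, 0 < lam i) (hP : IsPoisson P lam Pi)
    (hc : ∀ m, MeasurableSet (cell m)) (m : ℕ × ℕ) :
    ∫⁻ ω, ∑ i, ((Pi i ω ∩ cell m).encard : ℝ≥0∞) ∂P = ENNReal.ofReal (∑ i, lam i) := by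
  rw [lintegral_finsetSum]
  · rw [ENNReal.ofReal_sum_of_nonneg (fun i _ => (hlam i).le)]
    exact Finset.sum_congr rfl fun i _ => hCnt P lam Pi hlam hP i m
  · intro i _
    have : Measurable fun a : ℕ∞ => (a : ℝ≥0∞) := measurable_from_top
    exact this.comp (hP.meas i _ (hc m))


/-- the number of long points, as an extended nonnegative real -/
noncomputable def lng {Ω : Type*} {q : ℕ} (Pi : Fin q → Ω → Set Pt) (M : Ω → Set (Finset Pt))
    (m : ℕ × ℕ) (r : ℝ) (ω : Ω) : ℝ≥0∞ :=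
  ((longPts (fun i => Pi i ω) (M ω) m r).encard : ℝ≥0∞)

theorem palm_le_one (hCnt : S_CNT.{u}) {Ω : Type u} [MeasurableSpace Ω] (P : Measure Ω)
    [IsProbabilityMeasure P] {q : ℕ} (lam : Fin q → ℝ) (Pi : Fin q → Ω → Set Pt)
    (M : Ω → Set (Finset Pt))
    (hlam : ∀ i, 0 < lam i) (hP : IsPoisson P lam Pi)
    (hc : ∀ m, MeasurableSet (cell m)) (r : ℝ) : palmTail P lam Pi M r ≤ 1 := by
  unfold palmTail
  refine ENNReal.div_le_of_le_mul ?_
  rw [one_mul, ← lint_union_le hCnt P lam Pi hlam hP hc (0, 0)]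
  refine lintegral_mono fun ω => ?_
  refine le_trans ?_ (encard_iUnion_le _ _)
  have : longPts (fun i => Pi i ω) (M ω) (0, 0) r ⊆ (⋃ i, Pi i ω) ∩ cell (0, 0) :=
    fun x hx => ⟨hx.2.1, hx.1⟩
  have h2 := Set.encard_le_encard this
  gcongr

theorem palm_eq {Ω : Type u} [MeasurableSpace Ω] (P : Measure Ω) {q : ℕ} (lam : Fin q → ℝ)
    (Pi : Fin q → Ω → Set Pt) (M : Ω → Set (Finset Pt)) (hL : 0 < ∑ i, lam i) (r : ℝ) :
    ∫⁻ ω, lng Pi M (0, 0) r ω ∂P = palmTail P lam Pi M r * ENNReal.ofReal (∑ i, lam i) := by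
  unfold palmTail lng
  rw [ENNReal.div_mul_cancel]
  · simpa using hL
  · exact ENNReal.ofReal_ne_top

/-- the key inequality -/
theorem key (hLip : S_LIP) (hHH : S_HH) (hCnt : S_CNT.{u})
    (hInv : S_INV.{u}) (hc : ∀ m, MeasurableSet (cell m))
    {q : ℕ} (lam l : Fin q → ℝ) (hlam : ∀ i, 0 < lam i) (hL : 0 < ∑ i, lam i)
    (V : Finset (Fin q → ℕ))
    (C1 : ℝ) (hC1 : 0 < C1)
    (hDet : ∀ (S : Fin q → Set Pt) (M : Set (Finset Pt)) (K : ℕ) (g : ℕ × ℕ → ℝ),
      (∀ i, ∀ m : ℕ × ℕ, m.1 < 2 ^ K → m.2 < 2 ^ K → (S i ∩ cell m).Finite) →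
      (∀ F ∈ M, F.Nonempty ∧ (F : Set Pt) ⊆ ⋃ i, S i) →
      (∀ F ∈ M, ∀ G ∈ M, F ≠ G → Disjoint (F : Set Pt) (G : Set Pt)) →
      (∀ x ∈ ⋃ i, S i, ∃ F ∈ M, x ∈ F) →
      (∀ F ∈ M, ∃ v ∈ V, ∀ i, ((F : Set Pt) ∩ S i).ncard = v i) →
      (∀ z, 0 ≤ g z) →
      (∀ z : ℕ × ℕ, |g (z.1 + 1, z.2) - g z| ≤ 4) →
      (∀ z : ℕ × ℕ, |g (z.1, z.2 + 1) - g z| ≤ 4) →
      (∀ z : ℕ × ℕ, z.1 = 0 ∨ z.2 = 0 ∨ 2 ^ K ≤ z.1 ∨ 2 ^ K ≤ z.2 → g z = 0) →
      -∑ m ∈ Finset.range (2 ^ K) ×ˢ Finset.range (2 ^ K),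
          (∑ i, l i * (((S i ∩ cell m).encard.toNat : ℕ) : ℝ)) * g m ≤
        C1 * ∑ m ∈ Finset.range (2 ^ K) ×ˢ Finset.range (2 ^ K),
          (((((⋃ i, S i) ∩ cell m).encard.toNat : ℕ) : ℝ) +
            ∑ j ∈ Finset.range (2 ^ K), (((longPts S M m j).encard.toNat : ℕ) : ℝ)))
    {Ω : Type u} [MeasurableSpace Ω] (P : Measure Ω) [IsProbabilityMeasure P]
    (Pi : Fin q → Ω → Set Pt) (M : Ω → Set (Finset Pt)) (hP : IsPoisson P lam Pi)
    (hM : IsScheme P V Pi M) (s2 M4 : ℝ) (hA : IsArr P (arr l Pi) s2 M4)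
    (K : ℕ) (cK a : ℝ)
    (hI : Integrable (fun ω => ∑ z ∈ Finset.range (2 ^ K) ×ˢ Finset.range (2 ^ K),
        arr l Pi z ω * testf cK K (fun q => arr l Pi q ω) z) P)
    (ha : a ≤ ∫ ω, ∑ z ∈ Finset.range (2 ^ K) ×ˢ Finset.range (2 ^ K),
        arr l Pi z ω * testf cK K (fun q => arr l Pi q ω) z ∂P) :
    ENNReal.ofReal a ≤ ENNReal.ofReal C1 * (4 ^ K * (ENNReal.ofReal (∑ i, lam i) *
      (1 + ∑ j ∈ Finset.range (2 ^ K), palmTail P lam Pi M j))) := by
  classical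
  set N := Finset.range (2 ^ K) ×ˢ Finset.range (2 ^ K) with hN
  have hcardN : N.card = 4 ^ K := by
    rw [hN, Finset.card_product, Finset.card_range, ← pow_two, ← pow_mul, mul_comm K 2, pow_mul]
    norm_num
  have hint1 : ∀ z, Integrable (arr l Pi z) P := by
    intro z
    have h0 : Integrable (arr l Pi (0, 0)) P := by
      have h4 : MemLp (arr l Pi (0, 0)) 4 P := by
        refine (integrable_norm_rpow_iff (hA.meas _).aestronglyMeasurable (by norm_num)
          (by norm_num)).1 ?_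
        refine hA.int4.congr (Eventually.of_forall fun ω => ?_)
        simp only [ENNReal.toReal_ofNat, Real.norm_eq_abs]
        rw [show (4 : ℝ) = ((4 : ℕ) : ℝ) by norm_num, Real.rpow_natCast]
        rw [Even.pow_abs ⟨2, rfl⟩]
      exact h4.integrable (by norm_num)
    exact (hA.ident z).symm.integrable_snd h0 |> fun h => by simpa using h
  have hmean : ∀ z, ∫ ω, arr l Pi z ω ∂P = 0 := by
    intro z
    rw [(hA.ident z).integral_eq]
    exact hA.mean
  set A : Ω → ℝ := fun ω => ∑ z ∈ N, arr l Pi z ω * testf cK K (fun q => arr l Pi q ω) z with hAdef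
  set H : Ω → ℝ := fun ω => ∑ z ∈ N, arr l Pi z ω * hh K z with hHdef
  have hHint : Integrable H P := integrable_finsetSum _ fun z _ => (hint1 z).mul_const _
  have hHmean : ∫ ω, H ω ∂P = 0 := by
    rw [hHdef, integral_finsetSum _ fun z _ => (hint1 z).mul_const _]
    refine Finset.sum_eq_zero fun z _ => ?_
    rw [integral_mul_const, hmean, zero_mul]
  -- almost sure finiteness
  have hfin : ∀ᵐ ω ∂P, ∀ m : ℕ × ℕ, ∀ i, (Pi i ω ∩ cell m).Finite := by
    rw [ae_all_iff]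
    intro m
    rw [ae_all_iff]
    intro i
    have hmeas : Measurable fun ω => ((Pi i ω ∩ cell m).encard : ℝ≥0∞) := by
      have : Measurable fun a : ℕ∞ => (a : ℝ≥0∞) := measurable_from_top
      exact this.comp (hP.meas i _ (hc m))
    have := ae_lt_top hmeas (by rw [hCnt P lam Pi hlam hP i m]; exact ENNReal.ofReal_ne_top)
    filter_upwards [this] with ω hω
    rw [← Set.encard_lt_top_iff]
    by_contra hcon
    rw [not_lt, top_le_iff] at hcon
    rw [hcon] at hω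
    simp at hω
  have hpt : ∀ᵐ ω ∂P, A ω - H ω ≤ C1 * ∑ m ∈ N,
          (((((⋃ i, Pi i ω) ∩ cell m).encard.toNat : ℕ) : ℝ) +
            ∑ j ∈ Finset.range (2 ^ K),
              (((longPts (fun i => Pi i ω) (M ω) m j).encard.toNat : ℕ) : ℝ)) := by
    filter_upwards [hfin, hM.sub, hM.disj, hM.cover, hM.type] with ω h1 h2 h3 h4 h5
    have hf := hHH K (testf cK K (fun q => arr l Pi q ω)) (hLip cK K _)
    have := hDet (fun i => Pi i ω) (M ω) K
      (fun z => hh K z - testf cK K (fun q => arr l Pi q ω) z)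
      (fun i m _ _ => h1 m i) h2 h3 h4 h5 (fun z => (hf z).1) (fun z => (hf z).2.1)
      (fun z => (hf z).2.2.1) (fun z => (hf z).2.2.2)
    refine le_trans (le_of_eq ?_) this
    rw [hAdef, hHdef]
    simp only
    rw [← Finset.sum_sub_distrib, ← Finset.sum_neg_distrib]
    refine Finset.sum_congr rfl fun z _ => ?_
    unfold arr
    ring
  have h1 : ENNReal.ofReal a ≤ ∫⁻ ω, ENNReal.ofReal (A ω - H ω) ∂P := by
    refine le_trans (ENNReal.ofReal_le_ofReal ?_) (ofReal_integral_le (hI.sub hHint))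
    have h3 : ∫ ω, (A ω - H ω) ∂P = ∫ ω, A ω ∂P := by
      have := integral_sub hI hHint
      rw [hHmean, sub_zero] at this
      exact this
    rw [h3]
    exact ha
  refine h1.trans ?_
  have hlngm : ∀ m (j : ℝ), AEMeasurable (lng Pi M m j) P := fun m j =>
    (hInv P lam V Pi M hP hM j m).1
  have hlngi : ∀ m (j : ℝ), ∫⁻ ω, lng Pi M m j ω ∂P =
      palmTail P lam Pi M j * ENNReal.ofReal (∑ i, lam i) := fun m j => by
    rw [← palm_eq P lam Pi M hL j]
    exact (hInv P lam V Pi M hP hM j m).2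
  have hDm : ∀ m, Measurable fun ω => ∑ i, ((Pi i ω ∩ cell m).encard : ℝ≥0∞) := by
    intro m
    refine Finset.measurable_sum _ fun i _ => ?_
    have : Measurable fun a : ℕ∞ => (a : ℝ≥0∞) := measurable_from_top
    exact this.comp (hP.meas i _ (hc m))
  calc ∫⁻ ω, ENNReal.ofReal (A ω - H ω) ∂P
      ≤ ∫⁻ ω, ENNReal.ofReal C1 * ∑ m ∈ N, (∑ i, ((Pi i ω ∩ cell m).encard : ℝ≥0∞) +
          ∑ j ∈ Finset.range (2 ^ K), lng Pi M m j ω) ∂P := by
        refine lintegral_mono_ae ?_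
        filter_upwards [hpt] with ω hω
        refine (ENNReal.ofReal_le_ofReal hω).trans ?_
        rw [ENNReal.ofReal_mul hC1.le]
        gcongr
        rw [ENNReal.ofReal_sum_of_nonneg (fun i _ => by positivity)]
        refine Finset.sum_le_sum fun m _ => ?_
        rw [ENNReal.ofReal_add (by positivity) (by positivity)]
        gcongr
        · exact (ofReal_toNat_le _).trans (encard_iUnion_le _ _)
        · rw [ENNReal.ofReal_sum_of_nonneg (fun i _ => by positivity)]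
          exact Finset.sum_le_sum fun j _ => ofReal_toNat_le _
    _ = ENNReal.ofReal C1 * ∑ m ∈ N, (∫⁻ ω, ∑ i, ((Pi i ω ∩ cell m).encard : ℝ≥0∞) ∂P +
          ∑ j ∈ Finset.range (2 ^ K), ∫⁻ ω, lng Pi M m j ω ∂P) := by
        rw [lintegral_const_mul' _ _ ENNReal.ofReal_ne_top]
        congr 1
        rw [lintegral_finsetSum']
        · refine Finset.sum_congr rfl fun m _ => ?_
          rw [lintegral_add_left (hDm m)]
          congr 1
          rw [lintegral_finsetSum']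
          exact fun j _ => hlngm m j
        · intro m _
          exact (hDm m).aemeasurable.add (Finset.aemeasurable_fun_sum _ fun j _ => hlngm m j)
    _ = ENNReal.ofReal C1 * ∑ m ∈ N, (ENNReal.ofReal (∑ i, lam i) *
      (1 + ∑ j ∈ Finset.range (2 ^ K), palmTail P lam Pi M j)) := by
        congr 1
        refine Finset.sum_congr rfl fun m _ => ?_
        rw [lint_union_le hCnt P lam Pi hlam hP hc m]
        simp only [hlngi]
        rw [← Finset.sum_mul]
        ring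
    _ = _ := by
        rw [Finset.sum_const, hcardN]
        simp

/-- the main theorem, from the pieces -/
theorem main_of (hAKT : S_AKT.{u}) (hLip : S_LIP) (hHH : S_HH) (hSupp : S_SUPP)
    (hCnt : S_CNT.{u}) (hArr : S_ARR.{u}) (hDet : S_DET) (hInv : S_INV.{u}) (hFin : S_FIN)
    (hc : ∀ m, MeasurableSet (cell m))
    {q : ℕ} (lam : Fin q → ℝ) (hlam : ∀ i, 0 < lam i) (V : Finset (Fin q → ℕ))
    (hcrit : lam ∈ frontier (coneV V)) :
    ∃ c R0 : ℝ, 0 < c ∧ ∀ (Ω : Type u) [MeasurableSpace Ω] (P : Measure Ω)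
      [IsProbabilityMeasure P] (Pi : Fin q → Ω → Set Pt) (M : Ω → Set (Finset Pt)),
      IsPoisson P lam Pi → IsScheme P V Pi M →
      (∀ R : ℝ, R0 ≤ R →
        ENNReal.ofReal (c * √(Real.log R)) ≤ ∫⁻ r in Set.Ioc 0 R, palmTail P lam Pi M r) ∧
      (∃ᶠ r in atTop, ENNReal.ofReal (c / (r * √(Real.log r))) ≤ palmTail P lam Pi M r) ∧
      (∀ C : ℝ, ∃ᶠ r in atTop,
        ENNReal.ofReal (C / (r * Real.log r)) ≤ palmTail P lam Pi M r) := by
  obtain ⟨l, hl0, hl1, hl2⟩ := hSupp lam V hcrit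
  have hq : Nonempty (Fin q) := by
    by_contra h
    rw [not_nonempty_iff] at h
    exact hl0 (Subsingleton.elim _ _)
  have hL : 0 < ∑ i, lam i := Finset.sum_pos (fun i _ => hlam i) Finset.univ_nonempty
  obtain ⟨s2, M4, hs2, hM4, hA⟩ := hArr lam l hlam hl0 hl1
  obtain ⟨c, hcpos, hK⟩ := hAKT s2 M4 hs2 hM4
  obtain ⟨C1, hC1, hD⟩ := hDet l V hl2
  obtain ⟨c', R0, hc', hF⟩ := hFin (c / (C1 * ∑ i, lam i)) (by positivity)
  refine ⟨c', R0, hc', fun Ω _ P _ Pi M hP hM => ?_⟩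
  refine hF _ (palm_antitone P lam Pi M)
    (fun r => palm_le_one hCnt P lam Pi M hlam hP hc r) fun K hK2 => ?_
  obtain ⟨cK, hcK⟩ := hK K hK2
  obtain ⟨hI, hle⟩ := hcK P (arr l Pi) (hA P Pi hP)
  have hk := key hLip hHH hCnt hInv hc lam l hlam hL V C1 hC1 hD P Pi M hP hM s2 M4
    (hA P Pi hP) K cK _ hI hle
  set Λ := ∑ i, lam i with hΛ
  have e1 : c * √K * 4 ^ K = (C1 * (4 ^ K * Λ)) * (c / (C1 * Λ) * √K) := by
    field_simp
  rw [e1, ENNReal.ofReal_mul (by positivity)] at hk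
  have e2 : ENNReal.ofReal C1 * (4 ^ K * (ENNReal.ofReal Λ *
      (1 + ∑ j ∈ Finset.range (2 ^ K), palmTail P lam Pi M j))) =
      ENNReal.ofReal (C1 * (4 ^ K * Λ)) *
        ((∑ j ∈ Finset.range (2 ^ K), palmTail P lam Pi M j) + 1) := by
    rw [ENNReal.ofReal_mul hC1.le, ENNReal.ofReal_mul (by positivity),
      ENNReal.ofReal_pow (by norm_num), ENNReal.ofReal_ofNat]
    ring
  rw [e2] at hk
  exact (ENNReal.mul_le_mul_iff_right (by
    have : 0 < C1 * (4 ^ K * Λ) := by positivity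
    simpa using this) ENNReal.ofReal_ne_top).1 hk

end Pool.Agent.R228.MM
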