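import Pool.Agent.R228.MM.Stm

/-! Project MM (helper228), piece MEAS by helper506: measurability of the test function. -/

set_option autoImplicit false

namespace Pool.Agent.R228.MM

open MeasureTheory ProbabilityTheory Filter Set
open scoped ENNReal Topology

namespace Measpf

lemma meas_co (k : ℕ) (p : ℕ × ℕ) : Measurable fun ξ : ℕ × ℕ → ℝ => co ξ k p := by
  unfold co
  refine Measurable.div_const ?_ _
  refine Finset.measurable_sum _ fun a _ => Finset.measurable_sum _ fun b _ => ?_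
  exact (measurable_pi_apply _).const_mul _

lemma meas_Ux (c : ℝ) (K k : ℕ) (z : ℕ × ℕ) : Measurable fun ξ : ℕ × ℕ → ℝ => Ux c K ξ k z := by
  unfold Ux
  exact Finset.measurable_sum _ fun j _ => ((meas_co _ _).const_mul _).mul_const _

lemma meas_Uy (c : ℝ) (K k : ℕ) (z : ℕ × ℕ) : Measurable fun ξ : ℕ × ℕ → ℝ => Uy c K ξ k z := by
  unfold Uy
  exact Finset.measurable_sum _ fun j _ => ((meas_co _ _).const_mul _).mul_const _

lemma meas_Nst (c : ℝ) (K k : ℕ) (z : ℕ × ℕ) : MeasurableSet {ξ : ℕ × ℕ → ℝ | Nst c K ξ k z} := by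
  have e : {ξ : ℕ × ℕ → ℝ | Nst c K ξ k z} =
      (⋂ k' : ℕ, ⋂ _ : k' ∈ Finset.Icc k K, ⋂ w : ℕ × ℕ, ⋂ _ : idx k' w = idx k' z,
        ({ξ : ℕ × ℕ → ℝ | |Ux c K ξ k' w| ≤ 1} ∩ {ξ : ℕ × ℕ → ℝ | |Uy c K ξ k' w| ≤ 1})) ∩
      ⋂ j : ℕ, ⋂ _ : j ∈ Finset.Icc k K, {ξ : ℕ × ℕ → ℝ | |c * co ξ j (idx j z)| ≤ 1} := by
    ext ξ
    simp only [Nst, Set.mem_inter_iff, Set.mem_iInter, Set.mem_setOf_eq]
  rw [e]
  refine MeasurableSet.inter ?_ ?_
  · refine MeasurableSet.iInter fun k' => MeasurableSet.iInter fun _ => MeasurableSet.iInter fun w =>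
      MeasurableSet.iInter fun _ => ?_
    exact (measurableSet_le (meas_Ux c K k' w).abs measurable_const).inter
      (measurableSet_le (meas_Uy c K k' w).abs measurable_const)
  · refine MeasurableSet.iInter fun j => MeasurableSet.iInter fun _ => ?_
    exact measurableSet_le ((meas_co j (idx j z)).const_mul c).abs measurable_const

end Measpf

open Measpf

theorem meas : S_MEAS := by
  classical
  refine ⟨fun c K z => ?_, meas_Nst, meas_co⟩
  unfold testf
  by_cases h : z.1 < 2 ^ K ∧ z.2 < 2 ^ K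
  · simp only [if_pos h]
    refine Finset.measurable_sum _ fun k _ => ?_
    exact Measurable.ite (meas_Nst c K k z) (((meas_co _ _).const_mul _).mul_const _) measurable_const
  · simp only [if_neg h]
    exact measurable_const

end Pool.Agent.R228.MM
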