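import Pool.Agent.R228.MM.Stm

/-!
# MM-MOM: moments of weighted sums of an i.i.d. centred array
-/

universe u

namespace Pool.Agent.R228.MM

open MeasureTheory ProbabilityTheory Filter Set
open scoped ENNReal Topology

section aux

variable {Ω : Type u} [MeasurableSpace Ω] {P : Measure Ω} [IsProbabilityMeasure P]

lemma mom_pow {S : Ω → ℝ} (hS : MemLp S 4 P) {k : ℕ} (hk : k ≤ 4) :
    Integrable (fun ω => S ω ^ k) P := by
  have h1 : MemLp S (k : ℝ≥0∞) P := hS.mono_exponent (by exact_mod_cast hk)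
  have h2 := h1.integrable_norm_pow'
  refine (integrable_norm_iff (hS.1.pow k)).1 ?_
  refine h2.congr ?_
  filter_upwards with ω
  simp [norm_pow]

lemma mom_indep {S Y : Ω → ℝ} (hS : MemLp S 4 P) (hY : MemLp Y 4 P) (hi : IndepFun S Y P)
    {i j : ℕ} (hi4 : i ≤ 4) (hj4 : j ≤ 4) :
    Integrable (fun ω => S ω ^ i * Y ω ^ j) P ∧
      ∫ ω, S ω ^ i * Y ω ^ j ∂P = (∫ ω, S ω ^ i ∂P) * ∫ ω, Y ω ^ j ∂P := by
  have h1 : IndepFun (fun ω => S ω ^ i) (fun ω => Y ω ^ j) P :=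
    hi.comp (φ := fun x => x ^ i) (ψ := fun x => x ^ j) (by fun_prop) (by fun_prop)
  have hSi := mom_pow hS hi4
  have hYj := mom_pow hY hj4
  exact ⟨h1.integrable_mul hSi hYj, h1.integral_fun_mul_eq_mul_integral hSi.1 hYj.1⟩

lemma mom_four {S Y : Ω → ℝ} (hS : MemLp S 4 P) (hY : MemLp Y 4 P) (hi : IndepFun S Y P)
    (hS1 : ∫ ω, S ω ∂P = 0) (hY1 : ∫ ω, Y ω ∂P = 0) :
    (∫ ω, (S ω + Y ω) ^ 2 ∂P = (∫ ω, S ω ^ 2 ∂P) + ∫ ω, Y ω ^ 2 ∂P) ∧
    ∫ ω, (S ω + Y ω) ^ 4 ∂P = (∫ ω, S ω ^ 4 ∂P) + 6 * ((∫ ω, S ω ^ 2 ∂P) * ∫ ω, Y ω ^ 2 ∂P) +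
      ∫ ω, Y ω ^ 4 ∂P := by
  have K := fun i j hi4 hj4 => mom_indep (i := i) (j := j) hS hY hi hi4 hj4
  have a11 := K 1 1 (by norm_num) (by norm_num)
  have a31 := K 3 1 (by norm_num) (by norm_num)
  have a22 := K 2 2 (by norm_num) (by norm_num)
  have a13 := K 1 3 (by norm_num) (by norm_num)
  have s2 := mom_pow hS (k := 2) (by norm_num)
  have s4 := mom_pow hS (k := 4) (by norm_num)
  have y2 := mom_pow hY (k := 2) (by norm_num)
  have y4 := mom_pow hY (k := 4) (by norm_num)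
  simp only [pow_one, hS1, hY1, mul_zero, zero_mul] at a11 a31 a13
  constructor
  · have h : ∀ ω, (S ω + Y ω) ^ 2 = S ω ^ 2 + (2 * (S ω * Y ω) + Y ω ^ 2) := fun ω => by ring
    simp_rw [h]
    have i2 : Integrable (fun ω => 2 * (S ω * Y ω) + Y ω ^ 2) P := (a11.1.const_mul 2).add y2
    rw [integral_add s2 i2, integral_add (a11.1.const_mul 2) y2,
      integral_const_mul, a11.2]
    ring
  · have h : ∀ ω, (S ω + Y ω) ^ 4 = S ω ^ 4 + (4 * (S ω ^ 3 * Y ω) + (6 * (S ω ^ 2 * Y ω ^ 2) +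
        (4 * (S ω * Y ω ^ 3) + Y ω ^ 4))) := fun ω => by ring
    simp_rw [h]
    have i4 : Integrable (fun ω => 4 * (S ω * Y ω ^ 3) + Y ω ^ 4) P := (a13.1.const_mul 4).add y4
    have i3 : Integrable (fun ω => 6 * (S ω ^ 2 * Y ω ^ 2) +
        (4 * (S ω * Y ω ^ 3) + Y ω ^ 4)) P := (a22.1.const_mul 6).add i4
    have i2 : Integrable (fun ω => 4 * (S ω ^ 3 * Y ω) + (6 * (S ω ^ 2 * Y ω ^ 2) +
        (4 * (S ω * Y ω ^ 3) + Y ω ^ 4))) P := (a31.1.const_mul 4).add i3
    rw [integral_add s4 i2, integral_add (a31.1.const_mul 4) i3,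
      integral_add (a22.1.const_mul 6) i4, integral_add (a13.1.const_mul 4) y4,
      integral_const_mul, integral_const_mul, integral_const_mul, a31.2, a22.2, a13.2]
    ring

end aux

theorem mom : S_MOM.{u} := by
  intro Ω _ P _ X s2 M4 hA s w w'
  classical
  -- one variable
  have h00 : MemLp (X (0, 0)) 4 P := by
    rw [← integrable_norm_rpow_iff (hA.meas _).aestronglyMeasurable (by norm_num) (by norm_num)]
    refine hA.int4.congr ?_
    filter_upwards with ω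
    have : ((4 : ℝ≥0∞)).toReal = ((4 : ℕ) : ℝ) := by norm_num
    rw [this, Real.rpow_natCast, Real.norm_eq_abs]
    exact (Even.pow_abs (by decide) _).symm
  have hX4 : ∀ z, MemLp (X z) 4 P := fun z => ((hA.ident z).memLp_iff).2 h00
  have hX1 : ∀ z, ∫ ω, X z ω ∂P = 0 := fun z => by rw [(hA.ident z).integral_eq, hA.mean]
  have hXp : ∀ z (k : ℕ), ∫ ω, X z ω ^ k ∂P = ∫ ω, X (0, 0) ω ^ k ∂P := fun z k =>
    ((hA.ident z).comp (u := fun x : ℝ => x ^ k) (by fun_prop)).integral_eq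
  have hX2 : ∀ z, ∫ ω, X z ω ^ 2 ∂P = s2 := fun z => by rw [hXp, hA.var]
  have hXM : ∀ z, ∫ ω, X z ω ^ 4 ∂P ≤ M4 := fun z => by rw [hXp]; exact hA.four
  have hs2 : 0 ≤ s2 := by
    rw [← hA.var]; exact integral_nonneg fun ω => by positivity
  have hs24 : s2 ^ 2 ≤ M4 := by
    have h1 : 0 ≤ ∫ ω, (X (0, 0) ω ^ 2 - s2) ^ 2 ∂P := integral_nonneg fun ω => by positivity
    have h2 : ∀ ω, (X (0, 0) ω ^ 2 - s2) ^ 2 =
        X (0, 0) ω ^ 4 + (-(2 * s2) * X (0, 0) ω ^ 2 + s2 ^ 2) := fun ω => by ring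
    simp_rw [h2] at h1
    have i4 := mom_pow h00 (k := 4) (by norm_num)
    have i2 := (mom_pow h00 (k := 2) (by norm_num)).const_mul (-(2 * s2))
    have i1 : Integrable (fun ω => -(2 * s2) * X (0, 0) ω ^ 2 + s2 ^ 2) P :=
      i2.add (integrable_const _)
    rw [integral_add i4 i1, integral_add i2 (integrable_const _),
      integral_const_mul, hA.var, integral_const] at h1
    have h3 : (P.real univ) • s2 ^ 2 = s2 ^ 2 := by simp
    rw [h3] at h1
    have := hA.four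
    nlinarith
  have hM4 : 0 ≤ M4 := le_trans (by positivity) hs24
  -- the weighted variables
  have hYi : iIndepFun (fun z ω => w z * X z ω) P :=
    hA.indep.comp (fun z x => w z * x) (fun z => by fun_prop)
  have hYm : ∀ z, Measurable fun ω => w z * X z ω := fun z => (hA.meas z).const_mul _
  have hY4 : ∀ z, MemLp (fun ω => w z * X z ω) 4 P := fun z => (hX4 z).const_mul (w z)
  have main : ∀ s : Finset (ℕ × ℕ), MemLp (fun ω => ∑ z ∈ s, w z * X z ω) 4 P ∧
      ∫ ω, (∑ z ∈ s, w z * X z ω) ∂P = 0 ∧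
      ∫ ω, (∑ z ∈ s, w z * X z ω) ^ 2 ∂P = s2 * ∑ z ∈ s, w z ^ 2 ∧
      ∫ ω, (∑ z ∈ s, w z * X z ω) ^ 4 ∂P ≤ 3 * M4 * (∑ z ∈ s, w z ^ 2) ^ 2 := by
    intro s
    induction s using Finset.induction_on with
    | empty => simp
    | insert z s hz ih =>
      obtain ⟨ih1, ih2, ih3, ih4⟩ := ih
      have hind : IndepFun (fun ω => ∑ z ∈ s, w z * X z ω) (fun ω => w z * X z ω) P := by
        have h := hYi.indepFun_finsetSum_of_notMem hYm hz
        have he : (∑ j ∈ s, fun ω => w j * X j ω) = fun ω => ∑ z ∈ s, w z * X z ω := by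
          ext ω; simp
        rwa [he] at h
      have hY1 : ∫ ω, w z * X z ω ∂P = 0 := by rw [integral_const_mul, hX1, mul_zero]
      have hY2 : ∫ ω, (w z * X z ω) ^ 2 ∂P = w z ^ 2 * s2 := by
        simp_rw [mul_pow]; rw [integral_const_mul, hX2]
      have hYf : ∫ ω, (w z * X z ω) ^ 4 ∂P ≤ w z ^ 4 * M4 := by
        simp_rw [mul_pow]; rw [integral_const_mul]
        exact mul_le_mul_of_nonneg_left (hXM z) (by positivity)
      have hsum : ∀ ω, ∑ x ∈ insert z s, w x * X x ω = (∑ x ∈ s, w x * X x ω) + w z * X z ω := by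
        intro ω; rw [Finset.sum_insert hz, add_comm]
      obtain ⟨f2, f4⟩ := mom_four ih1 (hY4 z) hind ih2 hY1
      have hw : ∑ x ∈ insert z s, w x ^ 2 = (∑ x ∈ s, w x ^ 2) + w z ^ 2 := by
        rw [Finset.sum_insert hz, add_comm]
      have hA0 : 0 ≤ ∑ x ∈ s, w x ^ 2 := Finset.sum_nonneg fun x _ => by positivity
      simp_rw [hsum, hw]
      refine ⟨ih1.add (hY4 z), ?_, ?_, ?_⟩
      · rw [integral_add (ih1.integrable (by norm_num)) ((hY4 z).integrable (by norm_num)), ih2,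
          hY1, add_zero]
      · rw [f2, ih3, hY2]; ring
      · rw [f4, ih3, hY2]
        set A := ∑ x ∈ s, w x ^ 2
        have h1 : s2 * A * (w z ^ 2 * s2) ≤ M4 * (A * w z ^ 2) := by
          have h2 : 0 ≤ A * w z ^ 2 := by positivity
          calc s2 * A * (w z ^ 2 * s2) = s2 ^ 2 * (A * w z ^ 2) := by ring
            _ ≤ M4 * (A * w z ^ 2) := mul_le_mul_of_nonneg_right hs24 h2
        have h3 : 0 ≤ w z ^ 4 * M4 := by positivity
        nlinarith
  refine ⟨(main s).1, (main s).2.2.2, ?_⟩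
  -- the bilinear form
  have hpair : ∀ z z', Integrable (fun ω => X z ω * X z' ω) P ∧
      ∫ ω, X z ω * X z' ω ∂P = if z = z' then s2 else 0 := by
    intro z z'
    by_cases h : z = z'
    · subst h
      have h1 : ∀ ω, X z ω * X z ω = X z ω ^ 2 := fun ω => by ring
      simp_rw [h1]
      simp only [if_true]
      exact ⟨mom_pow (hX4 z) (by norm_num), hX2 z⟩
    · rw [if_neg h]
      have hi := mom_indep (hX4 z) (hX4 z') (hA.indep.indepFun h) (i := 1) (j := 1)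
        (by norm_num) (by norm_num)
      simp only [pow_one] at hi
      refine ⟨hi.1, ?_⟩
      rw [hi.2, hX1, zero_mul]
  have hprod : ∀ ω, (∑ z ∈ s, w z * X z ω) * (∑ z ∈ s, w' z * X z ω) =
      ∑ z ∈ s, ∑ z' ∈ s, (w z * w' z') * (X z ω * X z' ω) := by
    intro ω
    rw [Finset.sum_mul_sum]
    refine Finset.sum_congr rfl fun z _ => Finset.sum_congr rfl fun z' _ => ?_
    ring
  simp_rw [hprod]
  rw [integral_finsetSum _ fun z _ => integrable_finsetSum _ fun z' _ =>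
    (hpair z z').1.const_mul _]
  rw [Finset.mul_sum]
  refine Finset.sum_congr rfl fun z hz => ?_
  rw [integral_finsetSum _ fun z' _ => (hpair z z').1.const_mul _]
  simp_rw [integral_const_mul]
  rw [Finset.sum_eq_single z]
  · rw [(hpair z z).2, if_pos rfl]; ring
  · intro z' _ hne
    rw [(hpair z z').2, if_neg (fun e => hne e.symm), mul_zero]
  · intro h; exact absurd hz h

end Pool.Agent.R228.MM
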