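import Pool.Agent.R228.MM.Stm

/-!
# MM-PROB: a dyadic square is stopped with small probability
-/

universe u

namespace Pool.Agent.R228.MM

open MeasureTheory ProbabilityTheory Filter Set
open scoped ENNReal Topology

namespace Prob

theorem psi_mul_self (k a : ℕ) : psi k a * psi k a = 1 := by
  unfold psi
  split_ifs <;> norm_num

/-- the cells of the square of scale `k` and index `p` -/
def cells (k : ℕ) (p : ℕ × ℕ) : Finset (ℕ × ℕ) :=
  (Finset.range (2 ^ k) ×ˢ Finset.range (2 ^ k)).image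
    (fun q : ℕ × ℕ => (2 ^ k * p.1 + q.1, 2 ^ k * p.2 + q.2))

theorem sum_cells (k : ℕ) (p : ℕ × ℕ) (f : ℕ × ℕ → ℝ) :
    ∑ z ∈ cells k p, f z =
      ∑ a ∈ Finset.range (2 ^ k), ∑ b ∈ Finset.range (2 ^ k), f (2 ^ k * p.1 + a, 2 ^ k * p.2 + b) := by
  unfold cells
  rw [Finset.sum_image, Finset.sum_product]
  rintro ⟨a, b⟩ _ ⟨a', b'⟩ _ h
  simp only [Prod.mk.injEq, Nat.add_left_cancel_iff] at h
  exact Prod.ext h.1 h.2

/-- the weights of `co` -/
noncomputable def wt (k : ℕ) (p : ℕ × ℕ) (z : ℕ × ℕ) : ℝ := psi k (z.1 - 2 ^ k * p.1) / 2 ^ k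

theorem co_eq (ξ : ℕ × ℕ → ℝ) (k : ℕ) (p : ℕ × ℕ) :
    co ξ k p = ∑ z ∈ cells k p, wt k p z * ξ z := by
  rw [sum_cells, co, Finset.sum_div]
  refine Finset.sum_congr rfl fun a _ => ?_
  rw [Finset.sum_div]
  refine Finset.sum_congr rfl fun b _ => ?_
  simp only [wt, Nat.add_sub_cancel_left]
  ring

theorem sum_wt (k : ℕ) (p : ℕ × ℕ) : ∑ z ∈ cells k p, wt k p z * wt k p z = 1 := by
  rw [sum_cells]
  have h : ∀ a b : ℕ, wt k p (2 ^ k * p.1 + a, 2 ^ k * p.2 + b) *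
      wt k p (2 ^ k * p.1 + a, 2 ^ k * p.2 + b) = 1 / (2 ^ k * 2 ^ k) := by
    intro a b
    unfold wt
    rw [div_mul_div_comm, psi_mul_self]
  simp only [h, Finset.sum_const, Finset.card_range, nsmul_eq_mul]
  push_cast
  field_simp

theorem idx_of_le {k' j : ℕ} {w z : ℕ × ℕ} (h : idx k' w = idx k' z) (hj : k' ≤ j) :
    idx j w = idx j z := by
  obtain ⟨d, rfl⟩ := Nat.exists_eq_add_of_le hj
  unfold idx at h ⊢
  rw [Prod.mk.injEq] at h ⊢
  rw [pow_add, ← Nat.div_div_eq_div_mul, ← Nat.div_div_eq_div_mul, ← Nat.div_div_eq_div_mul,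
    ← Nat.div_div_eq_div_mul, h.1, h.2]
  exact ⟨rfl, rfl⟩

theorem reidx (f : ℕ → ℝ) (K k' : ℕ) :
    ∑ i ∈ Finset.range (K - k'), f (K - i) = ∑ j ∈ Finset.Icc (k' + 1) K, f j := by
  refine Finset.sum_nbij' (fun i => K - i) (fun j => K - j) ?_ ?_ ?_ ?_ ?_
  · intro i hi
    rw [Finset.mem_range] at hi
    rw [Finset.mem_Icc]
    omega
  · intro j hj
    rw [Finset.mem_Icc] at hj
    rw [Finset.mem_range]
    omega
  · intro i hi
    rw [Finset.mem_range] at hi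
    omega
  · intro j hj
    rw [Finset.mem_Icc] at hj
    omega
  · intro i _
    rfl

theorem geom (k' n : ℕ) :
    ∑ j ∈ Finset.Icc (k' + 1) (k' + n), (2 ^ k' / 2 ^ j : ℝ) = 1 - 1 / 2 ^ n := by
  induction n with
  | zero => simp
  | succ n ih =>
    rw [← add_assoc, Finset.sum_Icc_succ_top (by omega), ih, pow_succ, pow_succ, pow_add]
    field_simp
    ring

theorem geom_le (k' K : ℕ) : ∑ j ∈ Finset.Icc (k' + 1) K, (2 ^ k' / 2 ^ j : ℝ) ≤ 1 := by
  rcases le_or_gt k' K with h | h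
  · obtain ⟨n, rfl⟩ := Nat.exists_eq_add_of_le h
    rw [geom]
    have : (0 : ℝ) ≤ 1 / 2 ^ n := by positivity
    linarith
  · rw [Finset.Icc_eq_empty (by omega), Finset.sum_empty]
    exact zero_le_one

/-- the deterministic part -/
theorem nst_of (hG : S_GEO1) (c : ℝ) (K k : ℕ) (z : ℕ × ℕ) (ξ : ℕ × ℕ → ℝ)
    (h1 : ∀ k' ∈ Finset.Icc k K,
      |∑ j ∈ Finset.Icc (k' + 1) K, c * co ξ j (idx j z) * dx j z| ≤ 1 / 2)
    (h2 : ∀ k' ∈ Finset.Icc k K,
      |∑ j ∈ Finset.Icc (k' + 1) K, c * co ξ j (idx j z) * dy j z| ≤ 1 / 2)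
    (h3 : ∀ k' ∈ Finset.Icc k K,
      ∑ j ∈ Finset.Icc (k' + 1) K, |c * co ξ j (idx j z)| * (4 * 2 ^ k' / 2 ^ j) ≤ 1 / 2)
    (h4 : ∀ j ∈ Finset.Icc k K, |c * co ξ j (idx j z)| ≤ 1) : Nst c K ξ k z := by
  have gen : ∀ (e : ℕ → ℕ × ℕ → ℝ) (k' : ℕ) (w : ℕ × ℕ), idx k' w = idx k' z →
      (∀ j, k' < j → |e j w - e j z| ≤ 4 * 2 ^ k' / 2 ^ j) →
      |∑ j ∈ Finset.Icc (k' + 1) K, c * co ξ j (idx j z) * e j z| ≤ 1 / 2 →
      ∑ j ∈ Finset.Icc (k' + 1) K, |c * co ξ j (idx j z)| * (4 * 2 ^ k' / 2 ^ j) ≤ 1 / 2 →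
      |∑ j ∈ Finset.Icc (k' + 1) K, c * co ξ j (idx j w) * e j w| ≤ 1 := by
    intro e k' w hw he ha hb
    have h5 : ∑ j ∈ Finset.Icc (k' + 1) K, c * co ξ j (idx j w) * e j w =
        ∑ j ∈ Finset.Icc (k' + 1) K, c * co ξ j (idx j z) * e j z +
        ∑ j ∈ Finset.Icc (k' + 1) K, c * co ξ j (idx j z) * (e j w - e j z) := by
      rw [← Finset.sum_add_distrib]
      refine Finset.sum_congr rfl fun j hj => ?_
      rw [Finset.mem_Icc] at hj
      rw [idx_of_le hw (show k' ≤ j by omega)]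
      ring
    have h6 : |∑ j ∈ Finset.Icc (k' + 1) K, c * co ξ j (idx j z) * (e j w - e j z)| ≤
        ∑ j ∈ Finset.Icc (k' + 1) K, |c * co ξ j (idx j z)| * (4 * 2 ^ k' / 2 ^ j) := by
      refine (Finset.abs_sum_le_sum_abs _ _).trans (Finset.sum_le_sum fun j hj => ?_)
      rw [Finset.mem_Icc] at hj
      rw [abs_mul (c * co ξ j (idx j z))]
      exact mul_le_mul_of_nonneg_left (he j (by omega)) (abs_nonneg _)
    rw [h5]
    refine (abs_add_le _ _).trans ?_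
    linarith
  refine ⟨fun k' hk' w hw => ⟨?_, ?_⟩, h4⟩
  · exact gen (fun j z => dx j z) k' w hw (fun j hj => (hG.2.2.2.2 k' j hj w z hw).1)
      (h1 k' hk') (h3 k' hk')
  · exact gen (fun j z => dy j z) k' w hw (fun j hj => (hG.2.2.2.2 k' j hj w z hw).2)
      (h2 k' hk') (h3 k' hk')

variable {Ω : Type u} [MeasurableSpace Ω] {P : Measure Ω} [IsProbabilityMeasure P]
  {X : ℕ × ℕ → Ω → ℝ} {s2 M4 : ℝ}

/-- Markov's inequality -/
theorem markov (s : Set Ω) (f : Ω → ℝ) (hf : Integrable f P) (h0 : ∀ ω, 0 ≤ f ω) (t : ℝ)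
    (ht : 0 < t) (hs : ∀ ω ∈ s, t ≤ f ω) : P.real s ≤ (∫ ω, f ω ∂P) / t := by
  rw [le_div_iff₀ ht, mul_comm]
  refine le_trans (mul_le_mul_of_nonneg_left (measureReal_mono (μ := P) ?_) ht.le)
    (mul_meas_ge_le_integral_of_nonneg (ae_of_all _ h0) hf t)
  exact hs

theorem co_mom (hM : S_MOM.{u}) (hX : IsArr P X s2 M4) (k : ℕ) (p : ℕ × ℕ) :
    MemLp (fun ω => co (fun q => X q ω) k p) 2 P ∧
      ∫ ω, co (fun q => X q ω) k p ^ 2 ∂P = s2 := by
  obtain ⟨h1, -, h3⟩ := hM P X s2 M4 hX (cells k p) (wt k p) (wt k p)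
  have e : (fun ω => co (fun q => X q ω) k p) = fun ω => ∑ z ∈ cells k p, wt k p z * X z ω :=
    funext fun ω => co_eq _ k p
  constructor
  · rw [e]
    exact h1.mono_exponent (by norm_num)
  · rw [sum_wt, mul_one] at h3
    rw [← h3]
    refine integral_congr_ae (ae_of_all _ fun ω => ?_)
    change co (fun q => X q ω) k p ^ 2 = _
    rw [co_eq, pow_two]

omit [IsProbabilityMeasure P] in
theorem s2_nonneg (hX : IsArr P X s2 M4) : 0 ≤ s2 := by
  rw [← hX.var]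
  exact integral_nonneg fun ω => sq_nonneg _

/-- the coefficients along the chain of the squares containing `z` -/
noncomputable def AA (X : ℕ × ℕ → Ω → ℝ) (z : ℕ × ℕ) (j : ℕ) (ω : Ω) : ℝ :=
  co (fun q => X q ω) j (idx j z)

theorem AA_sym (hS : S_SYM.{u}) (hX : IsArr P X s2 M4) (K : ℕ) (z : ℕ × ℕ) (j : ℕ) (hj : j < K) :
    IdentDistrib (fun ω => ((fun i : Fin j => AA X z (K - i) ω), AA X z (K - j) ω))
        (fun ω => ((fun i : Fin j => AA X z (K - i) ω), -AA X z (K - j) ω)) P P := by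
  obtain ⟨k', rfl⟩ : ∃ k', K = k' + j := ⟨K - j, by omega⟩
  have h3 := hS P X s2 M4 hX (k' + j) k' z (by omega) (by omega)
  have h4 : k' + j - k' = j := by omega
  have h5 : k' + j - j = k' := by omega
  rw [h4] at h3
  rw [h5]
  exact h3

/-- the increments -/
noncomputable def DD (X : ℕ × ℕ → Ω → ℝ) (z : ℕ × ℕ) (c : ℝ) (K : ℕ) (e : ℕ → ℝ) (i : ℕ)
    (ω : Ω) : ℝ :=
  c * AA X z (K - i) ω * e (K - i)

theorem DD_sym (hS : S_SYM.{u}) (hX : IsArr P X s2 M4) (c : ℝ) (K : ℕ) (z : ℕ × ℕ)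
    (e : ℕ → ℝ) (j : ℕ) (hj : j < K) :
    IdentDistrib (fun ω => ((fun i : Fin j => DD X z c K e i ω), DD X z c K e j ω))
        (fun ω => ((fun i : Fin j => DD X z c K e i ω), -DD X z c K e j ω)) P P := by
  have h1 := AA_sym hS hX K z j hj
  have hu : Measurable (fun x : (Fin j → ℝ) × ℝ =>
      ((fun i : Fin j => c * x.1 i * e (K - i)), c * x.2 * e (K - j))) := by
    refine Measurable.prodMk (measurable_pi_lambda _ fun i => ?_) ?_
    · have hi : Measurable (fun x : (Fin j → ℝ) × ℝ => x.1 i) :=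
        (measurable_pi_apply i).comp measurable_fst
      exact (hi.const_mul c).mul_const _
    · exact (measurable_snd.const_mul c).mul_const _
  have h2 := h1.comp hu
  have h3 : (fun ω => ((fun i : Fin j => DD X z c K e i ω), -DD X z c K e j ω)) =
      (fun x : (Fin j → ℝ) × ℝ =>
        ((fun i : Fin j => c * x.1 i * e (K - i)), c * x.2 * e (K - j))) ∘
      (fun ω => ((fun i : Fin j => AA X z (K - i) ω), -AA X z (K - j) ω)) := by
    funext ω
    refine Prod.ext rfl ?_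
    change -(c * AA X z (K - j) ω * e (K - j)) = c * (-AA X z (K - j) ω) * e (K - j)
    ring
  rw [h3]
  exact h2

/-- the maximal inequality for the increments -/
theorem maxineq (hK : S_KOL.{u}) (hS : S_SYM.{u}) (hM : S_MOM.{u}) (hMe : S_MEAS)
    (hX : IsArr P X s2 M4) (c : ℝ) (K k : ℕ) (z : ℕ × ℕ) (hk : 1 ≤ k) (hkK : k ≤ K)
    (e : ℕ → ℝ) (he : ∀ j, 1 ≤ j → |e j| ≤ 1) :
    P.real {ω | ∃ k' ∈ Finset.Icc k K,
      1 / 2 < |∑ j ∈ Finset.Icc (k' + 1) K, c * co (fun q => X q ω) j (idx j z) * e j|} ≤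
      4 * c ^ 2 * K * s2 := by
  have hs2 := s2_nonneg hX
  have hAm : ∀ j, Measurable (AA X z j) := fun j =>
    (hMe.2.2 j (idx j z)).comp (measurable_pi_iff.2 hX.meas)
  have hA : ∀ j, MemLp (AA X z j) 2 P ∧ ∫ ω, AA X z j ω ^ 2 ∂P = s2 :=
    fun j => co_mom hM hX j (idx j z)
  have hm1 : ∀ i, Measurable (DD X z c K e i) := fun i =>
    ((hAm _).const_mul c).mul_const _
  have hm2 : ∀ i, MemLp (DD X z c K e i) 2 P := by
    intro i
    have h1 : MemLp (fun ω => (c * e (K - i)) * AA X z (K - i) ω) 2 P :=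
      (hA (K - i)).1.const_mul _
    have h2 : DD X z c K e i = fun ω => (c * e (K - i)) * AA X z (K - i) ω :=
      funext fun ω => by unfold DD; ring
    rw [h2]
    exact h1
  have key := hK P (K - k) (DD X z c K e) hm1 hm2
    (fun j hj => DD_sym hS hX c K z e j (by omega)) (1 / 2) (by norm_num)
  have hsub : {ω | ∃ k' ∈ Finset.Icc k K,
      1 / 2 < |∑ j ∈ Finset.Icc (k' + 1) K, c * co (fun q => X q ω) j (idx j z) * e j|} ⊆
      {ω | ∃ m ≤ K - k, 1 / 2 < |∑ j ∈ Finset.range m, DD X z c K e j ω|} := by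
    rintro ω ⟨k', hk', h⟩
    rw [Finset.mem_Icc] at hk'
    refine ⟨K - k', by omega, ?_⟩
    have h1 := reidx (fun j => c * AA X z j ω * e j) K k'
    unfold DD
    rw [h1]
    exact h
  refine le_trans (measureReal_mono (μ := P) hsub) (key.trans ?_)
  rw [div_le_iff₀ (by norm_num)]
  have h1 : ∀ j ∈ Finset.range (K - k), ∫ ω, DD X z c K e j ω ^ 2 ∂P ≤ c ^ 2 * s2 := by
    intro j hj
    rw [Finset.mem_range] at hj
    have h2 : (fun ω => DD X z c K e j ω ^ 2) =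
        fun ω => (c ^ 2 * e (K - j) ^ 2) * AA X z (K - j) ω ^ 2 :=
      funext fun ω => by unfold DD; ring
    rw [h2, integral_const_mul, (hA _).2]
    have h3 : e (K - j) ^ 2 ≤ 1 := by
      rw [← sq_abs]
      have := he (K - j) (by omega)
      have h4 := abs_nonneg (e (K - j))
      nlinarith
    have h5 : c ^ 2 * e (K - j) ^ 2 ≤ c ^ 2 * 1 := mul_le_mul_of_nonneg_left h3 (sq_nonneg c)
    nlinarith
  refine (Finset.sum_le_sum h1).trans ?_
  rw [Finset.sum_const, Finset.card_range, nsmul_eq_mul]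
  have h6 : ((K - k : ℕ) : ℝ) ≤ (K : ℝ) := by exact_mod_cast Nat.sub_le K k
  have h7 : 0 ≤ c ^ 2 * s2 := mul_nonneg (sq_nonneg c) hs2
  nlinarith

theorem osc (hM : S_MOM.{u}) (hX : IsArr P X s2 M4) (c : ℝ) (K k' : ℕ) (z : ℕ × ℕ) :
    P.real {ω | 1 / 2 < ∑ j ∈ Finset.Icc (k' + 1) K,
      |c * co (fun q => X q ω) j (idx j z)| * (4 * 2 ^ k' / 2 ^ j)} ≤ 64 * c ^ 2 * s2 := by
  have hs2 := s2_nonneg hX
  have hA : ∀ j, MemLp (fun ω => co (fun q => X q ω) j (idx j z)) 2 P ∧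
      ∫ ω, co (fun q => X q ω) j (idx j z) ^ 2 ∂P = s2 := fun j => co_mom hM hX j (idx j z)
  have hint : ∀ j ∈ Finset.Icc (k' + 1) K, Integrable (fun ω =>
      (16 * c ^ 2 * (2 ^ k' / 2 ^ j : ℝ)) * co (fun q => X q ω) j (idx j z) ^ 2) P :=
    fun j _ => ((hA j).1.integrable_sq).const_mul _
  have h1 := markov (P := P) {ω | 1 / 2 < ∑ j ∈ Finset.Icc (k' + 1) K,
      |c * co (fun q => X q ω) j (idx j z)| * (4 * 2 ^ k' / 2 ^ j)}
    (fun ω => ∑ j ∈ Finset.Icc (k' + 1) K,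
      (16 * c ^ 2 * (2 ^ k' / 2 ^ j : ℝ)) * co (fun q => X q ω) j (idx j z) ^ 2)
    (integrable_finsetSum _ hint)
    (fun ω => Finset.sum_nonneg fun j _ => by positivity) (1 / 4) (by norm_num) (by
      intro ω hω
      have hω' : (1 / 2 : ℝ) < ∑ j ∈ Finset.Icc (k' + 1) K,
        |c * co (fun q => X q ω) j (idx j z)| * (4 * 2 ^ k' / 2 ^ j) := hω
      have h2 := Finset.sum_sq_le_sum_mul_sum_of_sq_le_mul (Finset.Icc (k' + 1) K)
        (r := fun j => |c * co (fun q => X q ω) j (idx j z)| * (4 * 2 ^ k' / 2 ^ j))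
        (f := fun j => (2 ^ k' / 2 ^ j : ℝ))
        (g := fun j => (16 * c ^ 2 * (2 ^ k' / 2 ^ j : ℝ)) * co (fun q => X q ω) j (idx j z) ^ 2)
        (fun j _ => by positivity) (fun j _ => by positivity) (fun j _ => le_of_eq (by
          rw [mul_pow, sq_abs]
          ring))
      have h3 := geom_le k' K
      have h4 : 0 ≤ ∑ j ∈ Finset.Icc (k' + 1) K,
          (16 * c ^ 2 * (2 ^ k' / 2 ^ j : ℝ)) * co (fun q => X q ω) j (idx j z) ^ 2 :=
        Finset.sum_nonneg fun j _ => by positivity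
      have h5 := mul_le_mul_of_nonneg_right h3 h4
      nlinarith)
  refine h1.trans ?_
  rw [integral_finsetSum _ hint, div_le_iff₀ (by norm_num)]
  have h2 : ∀ j ∈ Finset.Icc (k' + 1) K,
      ∫ ω, (16 * c ^ 2 * (2 ^ k' / 2 ^ j : ℝ)) * co (fun q => X q ω) j (idx j z) ^ 2 ∂P =
        (2 ^ k' / 2 ^ j : ℝ) * (16 * c ^ 2 * s2) := by
    intro j _
    rw [integral_const_mul, (hA j).2]
    ring
  rw [Finset.sum_congr rfl h2, ← Finset.sum_mul]
  have h3 := geom_le k' K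
  have h4 : 0 ≤ 16 * c ^ 2 * s2 := by positivity
  have h5 := mul_le_mul_of_nonneg_right h3 h4
  linarith

theorem large (hM : S_MOM.{u}) (hX : IsArr P X s2 M4) (c : ℝ) (j : ℕ) (z : ℕ × ℕ) :
    P.real {ω | 1 < |c * co (fun q => X q ω) j (idx j z)|} ≤ c ^ 2 * s2 := by
  have hA := co_mom hM hX j (idx j z)
  have h1 := markov (P := P) {ω | 1 < |c * co (fun q => X q ω) j (idx j z)|}
    (fun ω => c ^ 2 * co (fun q => X q ω) j (idx j z) ^ 2)
    ((hA.1.integrable_sq).const_mul _) (fun ω => by positivity) 1 one_pos (by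
      intro ω hω
      have hω' : 1 < |c * co (fun q => X q ω) j (idx j z)| := hω
      rw [← mul_pow, ← sq_abs]
      nlinarith)
  rwa [integral_const_mul, hA.2, div_one] at h1

end Prob

theorem prob (hK : S_KOL.{u}) (hS : S_SYM.{u}) (hG : S_GEO1) (hM : S_MOM.{u}) (hMe : S_MEAS) :
    S_PROB.{u} := by
  intro Ω _ P _ X s2 M4 hX c K k z hc hk hkK
  have hs2 := Prob.s2_nonneg hX
  have hpow : ∀ j : ℕ, 0 < 2 ^ j := fun j => by positivity
  have hdx : ∀ j, 1 ≤ j → |dx j z| ≤ 1 := fun j hj =>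
    (hG.1 j _ _ hj (Nat.mod_lt _ (hpow j)) (Nat.mod_lt _ (hpow j))).1
  have hdy : ∀ j, 1 ≤ j → |dy j z| ≤ 1 := fun j hj =>
    (hG.1 j _ _ hj (Nat.mod_lt _ (hpow j)) (Nat.mod_lt _ (hpow j))).2
  have e1 := Prob.maxineq hK hS hM hMe hX c K k z hk hkK (fun j => dx j z) hdx
  have e2 := Prob.maxineq hK hS hM hMe hX c K k z hk hkK (fun j => dy j z) hdy
  have hcard : ((Finset.Icc k K).card : ℝ) ≤ K := by
    rw [Nat.card_Icc]
    exact_mod_cast (by omega : K + 1 - k ≤ K)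
  have e3 : P.real (⋃ k' ∈ Finset.Icc k K, {ω | 1 / 2 < ∑ j ∈ Finset.Icc (k' + 1) K,
      |c * co (fun q => X q ω) j (idx j z)| * (4 * 2 ^ k' / 2 ^ j)}) ≤ K * (64 * c ^ 2 * s2) := by
    refine (measureReal_biUnion_finset_le _ _).trans ?_
    refine (Finset.sum_le_sum fun k' _ => Prob.osc hM hX c K k' z).trans ?_
    rw [Finset.sum_const, nsmul_eq_mul]
    exact mul_le_mul_of_nonneg_right hcard (by positivity)
  have e4 : P.real (⋃ j ∈ Finset.Icc k K, {ω | 1 < |c * co (fun q => X q ω) j (idx j z)|}) ≤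
      K * (c ^ 2 * s2) := by
    refine (measureReal_biUnion_finset_le _ _).trans ?_
    refine (Finset.sum_le_sum fun j _ => Prob.large hM hX c j z).trans ?_
    rw [Finset.sum_const, nsmul_eq_mul]
    exact mul_le_mul_of_nonneg_right hcard (by positivity)
  have hsub : {ω | ¬ Nst c K (fun q => X q ω) k z} ⊆
      ({ω | ∃ k' ∈ Finset.Icc k K, 1 / 2 < |∑ j ∈ Finset.Icc (k' + 1) K,
          c * co (fun q => X q ω) j (idx j z) * dx j z|} ∪
        {ω | ∃ k' ∈ Finset.Icc k K, 1 / 2 < |∑ j ∈ Finset.Icc (k' + 1) K,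
          c * co (fun q => X q ω) j (idx j z) * dy j z|}) ∪
      ((⋃ k' ∈ Finset.Icc k K, {ω | 1 / 2 < ∑ j ∈ Finset.Icc (k' + 1) K,
          |c * co (fun q => X q ω) j (idx j z)| * (4 * 2 ^ k' / 2 ^ j)}) ∪
        ⋃ j ∈ Finset.Icc k K, {ω | 1 < |c * co (fun q => X q ω) j (idx j z)|}) := by
    intro ω hω
    by_contra hcon
    rw [Set.mem_union, Set.mem_union, Set.mem_union] at hcon
    push Not at hcon
    obtain ⟨⟨n1, n2⟩, n3, n4⟩ := hcon
    apply hω
    refine Prob.nst_of hG c K k z _ (fun k' hk' => ?_) (fun k' hk' => ?_) (fun k' hk' => ?_)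
      (fun j hj => ?_)
    · by_contra h
      exact n1 ⟨k', hk', not_le.1 h⟩
    · by_contra h
      exact n2 ⟨k', hk', not_le.1 h⟩
    · by_contra h
      exact n3 (Set.mem_biUnion hk' (not_le.1 h))
    · by_contra h
      exact n4 (Set.mem_biUnion hj (not_le.1 h))
  have htot : P.real {ω | ¬ Nst c K (fun q => X q ω) k z} ≤
      (4 * c ^ 2 * K * s2 + 4 * c ^ 2 * K * s2) + (K * (64 * c ^ 2 * s2) + K * (c ^ 2 * s2)) := by
    refine (measureReal_mono (μ := P) hsub).trans ?_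
    refine (measureReal_union_le _ _).trans (add_le_add ?_ ?_)
    · exact (measureReal_union_le _ _).trans (add_le_add e1 e2)
    · exact (measureReal_union_le _ _).trans (add_le_add e3 e4)
  refine htot.trans ?_
  have h1 : 0 ≤ c ^ 2 * K * s2 := by positivity
  nlinarith

end Pool.Agent.R228.MM
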