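import Pool.Agent.R228.MM.Stm

/-! MM-RE: rearrangement of the sum of the test function by scales and squares -/

set_option autoImplicit false

namespace Pool.Agent.R228.MM.Re

lemma idx_mono {k k' : ℕ} (h : k ≤ k') {z w : ℕ × ℕ} (e : idx k z = idx k w) :
    idx k' z = idx k' w := by
  have h2 : 2 ^ k' = 2 ^ k * 2 ^ (k' - k) := by
    rw [← pow_add]
    congr 1
    omega
  have e1 : z.1 / 2 ^ k = w.1 / 2 ^ k := congrArg Prod.fst e
  have e2 : z.2 / 2 ^ k = w.2 / 2 ^ k := congrArg Prod.snd e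
  unfold idx
  rw [h2, ← Nat.div_div_eq_div_mul, ← Nat.div_div_eq_div_mul, ← Nat.div_div_eq_div_mul,
    ← Nat.div_div_eq_div_mul, e1, e2]

lemma Nst_imp {c : ℝ} {K : ℕ} {ξ : ℕ × ℕ → ℝ} {k : ℕ} {z w : ℕ × ℕ} (e : idx k z = idx k w)
    (h : Nst c K ξ k z) : Nst c K ξ k w := by
  refine ⟨fun k' hk' v hv => h.1 k' hk' v ?_, fun j hj => ?_⟩
  · rw [hv]
    exact (idx_mono (Finset.mem_Icc.1 hk').1 e).symm
  · rw [← idx_mono (Finset.mem_Icc.1 hj).1 e]
    exact h.2 j hj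

lemma Nst_iff {c : ℝ} {K : ℕ} {ξ : ℕ × ℕ → ℝ} {k : ℕ} {z w : ℕ × ℕ} (e : idx k z = idx k w) :
    Nst c K ξ k z ↔ Nst c K ξ k w :=
  ⟨Nst_imp e, Nst_imp e.symm⟩

lemma sum_blocks (m n : ℕ) (f : ℕ → ℝ) : ∑ i ∈ Finset.range (m * n), f i =
    ∑ i ∈ Finset.range m, ∑ j ∈ Finset.range n, f (n * i + j) := by
  induction m with
  | zero => simp
  | succ m ih =>
    rw [Nat.succ_mul, Finset.sum_range_add, ih, Finset.sum_range_succ]
    congr 1
    refine Finset.sum_congr rfl fun j _ => ?_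
    rw [Nat.mul_comm]

lemma sum_blocks2 (m n : ℕ) (f : ℕ × ℕ → ℝ) :
    ∑ z ∈ Finset.range (m * n) ×ˢ Finset.range (m * n), f z =
    ∑ p ∈ Finset.range m ×ˢ Finset.range m, ∑ a ∈ Finset.range n, ∑ b ∈ Finset.range n,
      f (n * p.1 + a, n * p.2 + b) := by
  have e1 : ∑ z ∈ Finset.range (m * n) ×ˢ Finset.range (m * n), f z =
      ∑ x ∈ Finset.range (m * n), ∑ y ∈ Finset.range (m * n), f (x, y) :=
    Finset.sum_product _ _ _
  have e2 : ∑ p ∈ Finset.range m ×ˢ Finset.range m, ∑ a ∈ Finset.range n, ∑ b ∈ Finset.range n,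
      f (n * p.1 + a, n * p.2 + b) = ∑ i ∈ Finset.range m, ∑ j ∈ Finset.range m,
        ∑ a ∈ Finset.range n, ∑ b ∈ Finset.range n, f (n * i + a, n * j + b) :=
    Finset.sum_product _ _ _
  have e3 := sum_blocks m n (fun x => ∑ y ∈ Finset.range (m * n), f (x, y))
  rw [e1, e2, e3]
  refine Finset.sum_congr rfl fun i _ => ?_
  conv_rhs => rw [Finset.sum_comm]
  refine Finset.sum_congr rfl fun a _ => ?_
  rw [sum_blocks m n (fun y => f (n * i + a, y))]

end Pool.Agent.R228.MM.Re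

namespace Pool.Agent.R228.MM

open Re in
/-- piece MM-RE -/
theorem re : S_RE := by
  intro c K ξ
  classical
  have h1 : ∑ z ∈ Finset.range (2 ^ K) ×ˢ Finset.range (2 ^ K), ξ z * testf c K ξ z =
      ∑ k ∈ Finset.Icc 2 K, ∑ z ∈ Finset.range (2 ^ K) ×ˢ Finset.range (2 ^ K),
        ξ z * (if Nst c K ξ k z then c * co ξ k (idx k z) * bmp k z else 0) := by
    rw [Finset.sum_comm]
    refine Finset.sum_congr rfl fun z hz => ?_
    rw [Finset.mem_product, Finset.mem_range, Finset.mem_range] at hz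
    unfold testf
    rw [if_pos hz, Finset.mul_sum]
  rw [h1]
  refine Finset.sum_congr rfl fun k hk => ?_
  have hk2 : k ≤ K := (Finset.mem_Icc.1 hk).2
  have h2 : 2 ^ K = 2 ^ (K - k) * 2 ^ k := by
    rw [← pow_add]
    congr 1
    omega
  rw [h2, sum_blocks2]
  refine Finset.sum_congr rfl fun p _ => ?_
  have hpos : 0 < 2 ^ k := by positivity
  have hid : ∀ a b : ℕ, a < 2 ^ k → b < 2 ^ k →
      idx k (2 ^ k * p.1 + a, 2 ^ k * p.2 + b) = p := by
    intro a b ha hb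
    unfold idx
    ext
    · change (2 ^ k * p.1 + a) / 2 ^ k = p.1
      rw [Nat.mul_add_div hpos, Nat.div_eq_of_lt ha, Nat.add_zero]
    · change (2 ^ k * p.2 + b) / 2 ^ k = p.2
      rw [Nat.mul_add_div hpos, Nat.div_eq_of_lt hb, Nat.add_zero]
  have hid0 : idx k (2 ^ k * p.1, 2 ^ k * p.2) = p := by
    have := hid 0 0 hpos hpos
    simpa using this
  have hbm : ∀ a b : ℕ, a < 2 ^ k → b < 2 ^ k →
      bmp k (2 ^ k * p.1 + a, 2 ^ k * p.2 + b) = prof k a b := by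
    intro a b ha hb
    unfold bmp
    simp only
    rw [Nat.mul_add_mod, Nat.mul_add_mod, Nat.mod_eq_of_lt ha, Nat.mod_eq_of_lt hb]
  have h3 : ∀ a ∈ Finset.range (2 ^ k), ∀ b ∈ Finset.range (2 ^ k),
      ξ (2 ^ k * p.1 + a, 2 ^ k * p.2 + b) *
        (if Nst c K ξ k (2 ^ k * p.1 + a, 2 ^ k * p.2 + b) then
          c * co ξ k (idx k (2 ^ k * p.1 + a, 2 ^ k * p.2 + b)) *
            bmp k (2 ^ k * p.1 + a, 2 ^ k * p.2 + b) else 0) =
      (if Nst c K ξ k (2 ^ k * p.1, 2 ^ k * p.2) then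
        c * co ξ k p * (prof k a b * ξ (2 ^ k * p.1 + a, 2 ^ k * p.2 + b)) else 0) := by
    intro a ha b hb
    rw [Finset.mem_range] at ha hb
    have h4 := Nst_iff (c := c) (K := K) (ξ := ξ) ((hid a b ha hb).trans hid0.symm)
    rw [hid a b ha hb, hbm a b ha hb]
    by_cases h5 : Nst c K ξ k (2 ^ k * p.1, 2 ^ k * p.2)
    · rw [if_pos h5, if_pos (h4.2 h5)]
      ring
    · rw [if_neg h5, if_neg (fun h6 => h5 (h4.1 h6)), mul_zero]
  rw [Finset.sum_congr rfl fun a ha => Finset.sum_congr rfl fun b hb => h3 a ha b hb]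
  by_cases h5 : Nst c K ξ k (2 ^ k * p.1, 2 ^ k * p.2)
  · simp only [if_pos h5]
    rw [← mul_assoc, Finset.mul_sum]
    refine Finset.sum_congr rfl fun a _ => ?_
    rw [Finset.mul_sum]
  · simp only [if_neg h5, Finset.sum_const_zero, mul_zero]

end Pool.Agent.R228.MM
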