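import Pool.Agent.R228.MM.Stm

/-! # MP_47e84d_pr, piece MM-SUPP: supporting functional -/

set_option autoImplicit false

open Set Filter Topology

namespace Pool.Agent.R228.MM

namespace SuppAux

variable {q : ℕ}

lemma cone_convex (V : Finset (Fin q → ℕ)) : Convex ℝ (coneV V) := by
  rintro x ⟨a, ha, hx⟩ y ⟨b, hb, hy⟩ s t hs ht _
  refine ⟨fun v => s * a v + t * b v, fun v => ?_, fun i => ?_⟩
  · exact add_nonneg (mul_nonneg hs (ha v)) (mul_nonneg ht (hb v))
  · rw [Pi.add_apply, Pi.smul_apply, Pi.smul_apply, hx i, hy i, smul_eq_mul, smul_eq_mul,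
      Finset.mul_sum, Finset.mul_sum, ← Finset.sum_add_distrib]
    refine Finset.sum_congr rfl fun v _ => ?_
    ring

lemma zero_mem (V : Finset (Fin q → ℕ)) : (0 : Fin q → ℝ) ∈ coneV V :=
  ⟨fun _ => 0, fun _ => le_rfl, fun i => by simp⟩

lemma smul_v_mem {V : Finset (Fin q → ℕ)} {v : Fin q → ℕ} (hv : v ∈ V) {t : ℝ} (ht : 0 ≤ t) :
    (fun i => t * (v i : ℝ)) ∈ coneV V := by
  classical
  refine ⟨fun w => if w = v then t else 0, fun w => ?_, fun i => ?_⟩
  · beta_reduce
    split_ifs
    · exact ht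
    · exact le_rfl
  · rw [Finset.sum_eq_single v]
    · simp
    · intro w _ hw
      simp [hw]
    · intro h
      exact absurd hv h

lemma lin_eq (f : (Fin q → ℝ) →ₗ[ℝ] ℝ) (x : Fin q → ℝ) :
    f x = ∑ i, f (Pi.single i 1) * x i := by
  rw [f.pi_apply_eq_sum_univ x]
  refine Finset.sum_congr rfl fun i _ => ?_
  have e : (fun j => if i = j then (1 : ℝ) else 0) = Pi.single i 1 := by
    funext j
    by_cases h : i = j
    · subst h
      simp
    · rw [if_neg h, Pi.single_eq_of_ne (Ne.symm h)]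
  rw [smul_eq_mul, e, mul_comm]

lemma of_fun (lam : Fin q → ℝ) (V : Finset (Fin q → ℕ)) (f : (Fin q → ℝ) →ₗ[ℝ] ℝ) (hf : f ≠ 0)
    (h0 : f lam = 0) (hv : ∀ v ∈ V, f (fun i => (v i : ℝ)) ≤ 0) :
    ∃ l : Fin q → ℝ, l ≠ 0 ∧ ∑ i, l i * lam i = 0 ∧ ∀ v ∈ V, 0 ≤ ∑ i, l i * (v i : ℝ) := by
  have hneg : ∀ x : Fin q → ℝ, ∑ i, (-f (Pi.single i 1)) * x i = -f x := by
    intro x
    rw [lin_eq f x, ← Finset.sum_neg_distrib]
    refine Finset.sum_congr rfl fun i _ => ?_
    ring
  refine ⟨fun i => -f (Pi.single i 1), ?_, ?_, ?_⟩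
  · intro h
    apply hf
    apply LinearMap.ext
    intro x
    have h1 := hneg x
    have h2 : ∑ i, (-f (Pi.single i 1)) * x i = 0 := by
      refine Finset.sum_eq_zero fun i _ => ?_
      have := congrFun h i
      beta_reduce at this
      rw [this, Pi.zero_apply, zero_mul]
    rw [h2] at h1
    rw [LinearMap.zero_apply]
    linarith
  · rw [hneg lam, h0, neg_zero]
  · intro v hv'
    have h1 := hneg fun i => (v i : ℝ)
    rw [h1]
    linarith [hv v hv']

lemma cone_le {V : Finset (Fin q → ℕ)} (f : (Fin q → ℝ) →ₗ[ℝ] ℝ)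
    (hv : ∀ v ∈ V, f (fun i => (v i : ℝ)) ≤ 0) : ∀ x ∈ coneV V, f x ≤ 0 := by
  rintro x ⟨a, ha, hx⟩
  have e : x = ∑ v ∈ V, a v • (fun i => (v i : ℝ)) := by
    funext i
    rw [hx i, Finset.sum_apply]
    rfl
  rw [e, map_sum]
  refine Finset.sum_nonpos fun v hv' => ?_
  rw [map_smul, smul_eq_mul]
  exact mul_nonpos_of_nonneg_of_nonpos (ha v) (hv v hv')

end SuppAux

open SuppAux in
theorem supp : S_SUPP := by
  intro q lam V hlam
  have hcl : lam ∈ closure (coneV V) := frontier_subset_closure hlam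
  have hint : lam ∉ interior (coneV V) := hlam.2
  by_cases hne : (interior (coneV V)).Nonempty
  · obtain ⟨f, hf⟩ := geometric_hahn_banach_open_point (cone_convex V).interior isOpen_interior hint
    have h1 : ∀ x ∈ coneV V, f x ≤ f lam := by
      intro x hx
      have h2 : x ∈ closure (interior (coneV V)) := by
        rw [(cone_convex V).closure_interior_eq_closure_of_nonempty_interior hne]
        exact subset_closure hx
      have h3 : closure (interior (coneV V)) ⊆ {y | f y ≤ f lam} :=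
        closure_minimal (fun y hy => (hf y hy).le) (isClosed_le f.continuous continuous_const)
      exact h3 h2
    have hv : ∀ v ∈ V, f (fun i => (v i : ℝ)) ≤ 0 := by
      intro v hv
      by_contra hn
      push Not at hn
      have h2 : ∀ t : ℝ, 0 ≤ t → t * f (fun i => (v i : ℝ)) ≤ f lam := by
        intro t ht
        have h3 := h1 _ (smul_v_mem hv ht)
        have h4 : (fun i => t * (v i : ℝ)) = t • (fun i => (v i : ℝ)) := rfl
        rwa [h4, map_smul, smul_eq_mul] at h3
      have h0 := h2 0 le_rfl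
      rw [zero_mul] at h0
      have h5 := h2 (f lam / f (fun i => (v i : ℝ)) + 1) (by positivity)
      rw [add_mul, div_mul_cancel₀ _ hn.ne', one_mul] at h5
      linarith
    have h0 : 0 ≤ f lam := by
      have := h1 0 (zero_mem V)
      rwa [map_zero] at this
    have h0' : f lam ≤ 0 := by
      have h3 : closure (coneV V) ⊆ {y | f y ≤ 0} :=
        closure_minimal (fun y hy => cone_le (f : (Fin q → ℝ) →ₗ[ℝ] ℝ) hv y hy)
          (isClosed_le f.continuous continuous_const)
      exact h3 hcl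
    refine of_fun lam V (f : (Fin q → ℝ) →ₗ[ℝ] ℝ) ?_ (le_antisymm h0' h0) hv
    intro h
    obtain ⟨a, ha⟩ := hne
    have h2 := hf a ha
    have h3 : ∀ x, f x = 0 := fun x => by
      have := LinearMap.congr_fun h x
      simpa using this
    rw [h3, h3] at h2
    exact lt_irrefl _ h2
  · have hspan : Submodule.span ℝ (coneV V) ≠ ⊤ := by
      intro h
      apply hne
      rw [(cone_convex V).interior_nonempty_iff_affineSpan_eq_top]
      rw [AffineSubspace.affineSpan_eq_top_iff_vectorSpan_eq_top_of_nonempty ℝ (Fin q → ℝ)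
        (Fin q → ℝ) ⟨0, zero_mem V⟩]
      rw [vectorSpan_eq_span_vsub_set_right ℝ (zero_mem V)]
      have e : (fun x : Fin q → ℝ => x -ᵥ (0 : Fin q → ℝ)) '' coneV V = coneV V := by
        simp
      rw [e, h]
    obtain ⟨f, hf0, hf⟩ := Submodule.exists_le_ker_of_lt_top _ (lt_top_iff_ne_top.2 hspan)
    have hC : ∀ x ∈ coneV V, f x = 0 := fun x hx => hf (Submodule.subset_span hx)
    refine of_fun lam V f hf0 ?_ fun v hv => ?_
    · have h1 : closure (coneV V) ⊆ (Submodule.span ℝ (coneV V) : Set (Fin q → ℝ)) :=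
        closure_minimal Submodule.subset_span (Submodule.closed_of_finiteDimensional _)
      exact hf (h1 hcl)
    · have h1 := hC _ (smul_v_mem hv zero_le_one)
      simp only [one_mul] at h1
      exact h1.le

end Pool.Agent.R228.MM
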