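import Mathlib
import Pool.Agent.R228.MM.Defs
import Pool.Agent.R228.MM.Stm
import Pool.Agent.R228.MM.Lip

/-!
MM-SYM (MP_47e84d_pr): sign symmetry by swapping the halves of a dyadic square.
-/

universe u

namespace Pool.Agent.R228.MM

open MeasureTheory ProbabilityTheory

namespace Symx

/-- swap the halves of the dyadic square of scale `k` and index `p` -/
def rho (k : ℕ) (p q : ℕ × ℕ) : ℕ × ℕ :=
  if idx k q = p then
    (if q.1 % 2 ^ k < 2 ^ (k - 1) then (q.1 + 2 ^ (k - 1), q.2) else (q.1 - 2 ^ (k - 1), q.2))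
  else q

theorem rho_spec {k : ℕ} (hk : 1 ≤ k) {p q : ℕ × ℕ} (hq : idx k q = p) :
    idx k (rho k p q) = p ∧ ((q.1 % 2 ^ k < 2 ^ (k - 1) ∧
      (rho k p q).1 % 2 ^ k = q.1 % 2 ^ k + 2 ^ (k - 1) ∧ rho k p q = (q.1 + 2 ^ (k - 1), q.2)) ∨
      (2 ^ (k - 1) ≤ q.1 % 2 ^ k ∧ (rho k p q).1 % 2 ^ k = q.1 % 2 ^ k - 2 ^ (k - 1) ∧
      rho k p q = (q.1 - 2 ^ (k - 1), q.2))) := by
  have e2 : 2 ^ k = 2 ^ (k - 1) + 2 ^ (k - 1) := by
    obtain ⟨j, rfl⟩ := Nat.exists_eq_add_of_le hk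
    rw [Nat.add_sub_cancel_left, pow_add, pow_one, two_mul]
  have hpos : 0 < 2 ^ k := by positivity
  have hpos' : 0 < 2 ^ (k - 1) := by positivity
  have hlt := Nat.mod_lt q.1 hpos
  have hdm := Nat.div_add_mod q.1 (2 ^ k)
  unfold rho
  rw [if_pos hq]
  unfold idx at hq ⊢
  rcases Nat.lt_or_ge (q.1 % 2 ^ k) (2 ^ (k - 1)) with h | h
  · rw [if_pos h]
    have e1 : q.1 + 2 ^ (k - 1) = (q.1 % 2 ^ k + 2 ^ (k - 1)) + 2 ^ k * (q.1 / 2 ^ k) := by omega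
    have hl : q.1 % 2 ^ k + 2 ^ (k - 1) < 2 ^ k := by omega
    have h1 : (q.1 + 2 ^ (k - 1)) / 2 ^ k = q.1 / 2 ^ k := by
      conv_lhs => rw [e1]
      rw [Nat.add_mul_div_left _ _ hpos, Nat.div_eq_of_lt hl, zero_add]
    have h2 : (q.1 + 2 ^ (k - 1)) % 2 ^ k = q.1 % 2 ^ k + 2 ^ (k - 1) := by
      conv_lhs => rw [e1]
      rw [Nat.add_mul_mod_self_left, Nat.mod_eq_of_lt hl]
    refine ⟨?_, Or.inl ⟨h, h2, rfl⟩⟩
    show ((q.1 + 2 ^ (k - 1)) / 2 ^ k, q.2 / 2 ^ k) = p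
    rw [h1]
    exact hq
  · rw [if_neg (not_lt.2 h)]
    have e1 : q.1 - 2 ^ (k - 1) = (q.1 % 2 ^ k - 2 ^ (k - 1)) + 2 ^ k * (q.1 / 2 ^ k) := by omega
    have hl : q.1 % 2 ^ k - 2 ^ (k - 1) < 2 ^ k := by omega
    have h1 : (q.1 - 2 ^ (k - 1)) / 2 ^ k = q.1 / 2 ^ k := by
      conv_lhs => rw [e1]
      rw [Nat.add_mul_div_left _ _ hpos, Nat.div_eq_of_lt hl, zero_add]
    have h2 : (q.1 - 2 ^ (k - 1)) % 2 ^ k = q.1 % 2 ^ k - 2 ^ (k - 1) := by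
      conv_lhs => rw [e1]
      rw [Nat.add_mul_mod_self_left, Nat.mod_eq_of_lt hl]
    refine ⟨?_, Or.inr ⟨h, h2, rfl⟩⟩
    show ((q.1 - 2 ^ (k - 1)) / 2 ^ k, q.2 / 2 ^ k) = p
    rw [h1]
    exact hq

theorem rho_rho {k : ℕ} (hk : 1 ≤ k) (p q : ℕ × ℕ) : rho k p (rho k p q) = q := by
  by_cases hq : idx k q = p
  · have e2 : 2 ^ k = 2 ^ (k - 1) + 2 ^ (k - 1) := by
      obtain ⟨j, rfl⟩ := Nat.exists_eq_add_of_le hk
      rw [Nat.add_sub_cancel_left, pow_add, pow_one, two_mul]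
    have hpos : 0 < 2 ^ k := by positivity
    have hlt := Nat.mod_lt q.1 hpos
    obtain ⟨h1, h2⟩ := rho_spec hk hq
    obtain ⟨-, h4⟩ := rho_spec hk h1
    rcases h2 with ⟨ha, hb, hc⟩ | ⟨ha, hb, hc⟩
    · rcases h4 with ⟨hd, -, -⟩ | ⟨hd, -, hf⟩
      · omega
      · rw [hf, hc]
        show (q.1 + 2 ^ (k - 1) - 2 ^ (k - 1), q.2) = q
        rw [Nat.add_sub_cancel]
    · rcases h4 with ⟨hd, -, hf⟩ | ⟨hd, -, -⟩
      · rw [hf, hc]
        show (q.1 - 2 ^ (k - 1) + 2 ^ (k - 1), q.2) = q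
        rw [Nat.sub_add_cancel (ha.trans (Nat.mod_le _ _))]
      · omega
  · have h1 : rho k p q = q := by
      unfold rho
      rw [if_neg hq]
    rw [h1, h1]

theorem psi_val (k a : ℕ) : psi k a = if a < 2 ^ (k - 1) then 1 else -1 := rfl

/-- generic reindexing of the coefficients by an involution -/
theorem co_comp (ξ : ℕ × ℕ → ℝ) (j : ℕ) (p : ℕ × ℕ) (ρ : ℕ × ℕ → ℕ × ℕ)
    (hρ : ∀ q, ρ (ρ q) = q) (ε : ℝ)
    (H : ∀ q, idx j q = p → idx j (ρ q) = p ∧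
      psi j (q.1 % 2 ^ j) = ε * psi j ((ρ q).1 % 2 ^ j)) :
    co (fun q => ξ (ρ q)) j p = ε * co ξ j p := by
  unfold co
  rw [← mul_div_assoc]
  congr 1
  rw [← Finset.sum_product', ← Finset.sum_product', Finset.mul_sum]
  have hpos : 0 < 2 ^ j := by positivity
  set emb : ℕ × ℕ → ℕ × ℕ := fun x => (2 ^ j * p.1 + x.1, 2 ^ j * p.2 + x.2) with hemb
  set loc : ℕ × ℕ → ℕ × ℕ := fun q => (q.1 % 2 ^ j, q.2 % 2 ^ j) with hloc
  have h1 : ∀ x ∈ Finset.range (2 ^ j) ×ˢ Finset.range (2 ^ j), idx j (emb x) = p := by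
    intro x hx
    rw [Finset.mem_product, Finset.mem_range, Finset.mem_range] at hx
    unfold idx
    rw [hemb]
    show ((2 ^ j * p.1 + x.1) / 2 ^ j, (2 ^ j * p.2 + x.2) / 2 ^ j) = p
    rw [Nat.mul_add_div hpos, Nat.mul_add_div hpos, Nat.div_eq_of_lt hx.1, Nat.div_eq_of_lt hx.2,
      add_zero, add_zero]
  have h2 : ∀ x ∈ Finset.range (2 ^ j) ×ˢ Finset.range (2 ^ j), loc (emb x) = x := by
    intro x hx
    rw [Finset.mem_product, Finset.mem_range, Finset.mem_range] at hx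
    show ((2 ^ j * p.1 + x.1) % 2 ^ j, (2 ^ j * p.2 + x.2) % 2 ^ j) = x
    rw [Nat.mul_add_mod, Nat.mul_add_mod, Nat.mod_eq_of_lt hx.1, Nat.mod_eq_of_lt hx.2]
  have h3 : ∀ q, idx j q = p → emb (loc q) = q := by
    intro q hq
    unfold idx at hq
    show (2 ^ j * p.1 + q.1 % 2 ^ j, 2 ^ j * p.2 + q.2 % 2 ^ j) = q
    rw [← hq]
    show (2 ^ j * (q.1 / 2 ^ j) + q.1 % 2 ^ j, 2 ^ j * (q.2 / 2 ^ j) + q.2 % 2 ^ j) = q
    rw [Nat.div_add_mod, Nat.div_add_mod]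
  have h4 : ∀ q, loc q ∈ Finset.range (2 ^ j) ×ˢ Finset.range (2 ^ j) := by
    intro q
    rw [Finset.mem_product, Finset.mem_range, Finset.mem_range]
    exact ⟨Nat.mod_lt _ hpos, Nat.mod_lt _ hpos⟩
  refine Finset.sum_nbij' (fun x => loc (ρ (emb x))) (fun x => loc (ρ (emb x)))
    (fun x _ => h4 _) (fun x _ => h4 _) ?_ ?_ ?_
  · intro x hx
    show loc (ρ (emb (loc (ρ (emb x))))) = x
    rw [h3 _ (H _ (h1 x hx)).1, hρ, h2 x hx]
  · intro x hx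
    show loc (ρ (emb (loc (ρ (emb x))))) = x
    rw [h3 _ (H _ (h1 x hx)).1, hρ, h2 x hx]
  · intro x hx
    show psi j x.1 * ξ (ρ (emb x)) =
      ε * (psi j (loc (ρ (emb x))).1 * ξ (emb (loc (ρ (emb x)))))
    obtain ⟨h5, h6⟩ := H _ (h1 x hx)
    rw [h3 _ h5]
    have h7 : (emb x).1 % 2 ^ j = x.1 := congrArg Prod.fst (h2 x hx)
    rw [h7] at h6
    rw [h6]
    show ε * psi j ((ρ (emb x)).1 % 2 ^ j) * ξ (ρ (emb x)) =
      ε * (psi j ((ρ (emb x)).1 % 2 ^ j) * ξ (ρ (emb x)))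
    ring

theorem co_k (ξ : ℕ × ℕ → ℝ) (k : ℕ) (hk : 1 ≤ k) (p : ℕ × ℕ) :
    co (fun q => ξ (rho k p q)) k p = - co ξ k p := by
  rw [co_comp ξ k p (rho k p) (rho_rho hk p) (-1) ?_, neg_one_mul]
  intro q hq
  have e2 : 2 ^ k = 2 ^ (k - 1) + 2 ^ (k - 1) := by
    obtain ⟨j, rfl⟩ := Nat.exists_eq_add_of_le hk
    rw [Nat.add_sub_cancel_left, pow_add, pow_one, two_mul]
  have hlt := Nat.mod_lt q.1 (show 0 < 2 ^ k by positivity)
  obtain ⟨h1, h2⟩ := rho_spec hk hq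
  refine ⟨h1, ?_⟩
  rw [psi_val, psi_val]
  rcases h2 with ⟨ha, hb, -⟩ | ⟨ha, hb, -⟩
  · rw [if_pos ha, if_neg (by omega)]
    norm_num
  · rw [if_neg (by omega), if_pos (by omega)]
    norm_num

theorem psi_half {j x y : ℕ} (hj : 1 ≤ j) (h : x / 2 ^ (j - 1) = y / 2 ^ (j - 1)) :
    psi j (x % 2 ^ j) = psi j (y % 2 ^ j) := by
  have e2 : 2 ^ j = 2 ^ (j - 1) * 2 := by
    obtain ⟨i, rfl⟩ := Nat.exists_eq_add_of_le hj
    rw [Nat.add_sub_cancel_left, pow_add, pow_one, mul_comm]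
  have hpos : 0 < 2 ^ (j - 1) := by positivity
  have key : ∀ z : ℕ, z % 2 ^ j < 2 ^ (j - 1) ↔ z / 2 ^ (j - 1) % 2 = 0 := by
    intro z
    rw [← Nat.div_eq_zero_iff_lt hpos, e2, Nat.mod_mul_right_div_self]
  rw [psi_val, psi_val]
  by_cases h1 : x % 2 ^ j < 2 ^ (j - 1)
  · rw [if_pos h1, if_pos ((key y).2 (h ▸ (key x).1 h1))]
  · rw [if_neg h1, if_neg (fun h2 => h1 ((key x).2 (h ▸ (key y).1 h2)))]

theorem co_j (ξ : ℕ × ℕ → ℝ) (k j : ℕ) (hk : 1 ≤ k) (hj : k < j) (p p' : ℕ × ℕ) :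
    co (fun q => ξ (rho k p q)) j p' = co ξ j p' := by
  rw [co_comp ξ j p' (rho k p) (rho_rho hk p) 1 ?_, one_mul]
  intro q hq
  rw [one_mul]
  by_cases hqp : idx k q = p
  · obtain ⟨h1, -⟩ := rho_spec hk hqp
    have h2 : idx k (rho k p q) = idx k q := h1.trans hqp.symm
    refine ⟨(Lipx.idx_le hj.le h2).trans hq, ?_⟩
    refine psi_half (by omega) ?_
    have h3 := Lipx.idx_le (show k ≤ j - 1 by omega) h2
    exact (congrArg Prod.fst h3).symm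
  · have h1 : rho k p q = q := by
      unfold rho
      rw [if_neg hqp]
    rw [h1]
    exact ⟨hq, rfl⟩

theorem meas_co (k : ℕ) (p : ℕ × ℕ) : Measurable fun ξ : ℕ × ℕ → ℝ => co ξ k p := by
  unfold co
  refine Measurable.div_const ?_ _
  refine Finset.measurable_fun_sum _ fun a _ => Finset.measurable_fun_sum _ fun b _ => ?_
  exact (measurable_pi_apply _).const_mul _

end Symx

open Symx in
theorem sym : S_SYM.{u} := by
  intro Ω _ P _ X s2 M4 hX K k z hk hkK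
  set p := idx k z with hp
  set ρ := rho k p with hρdef
  have hρ : ∀ q, ρ (ρ q) = q := rho_rho hk p
  have hinj : Function.Injective ρ := fun a b h => by rw [← hρ a, h, hρ b]
  have hm : ∀ q, Measurable (X q) := hX.meas
  have hlaw : IdentDistrib (fun ω q => X q ω) (fun ω q => X (ρ q) ω) P P := by
    refine ⟨(measurable_pi_lambda _ fun q => hm q).aemeasurable,
      (measurable_pi_lambda _ fun q => hm (ρ q)).aemeasurable, ?_⟩
    have h1 := hX.indep.map_fun_eq_infinitePi_map hm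
    have h2 := (hX.indep.precomp hinj).map_fun_eq_infinitePi_map (fun q => hm (ρ q))
    rw [h1, h2]
    congr 1
    funext q
    rw [(hX.ident q).map_eq, (hX.ident (ρ q)).map_eq]
  have hT : Measurable (fun ξ : ℕ × ℕ → ℝ =>
      (((fun i : Fin (K - k) => co ξ (K - i) (idx (K - i) z)), co ξ k p) :
        (Fin (K - k) → ℝ) × ℝ)) :=
    (measurable_pi_lambda _ fun i => meas_co _ _).prodMk (meas_co _ _)
  have h1 := hlaw.comp hT
  have e1 : ((fun ξ : ℕ × ℕ → ℝ =>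
      (((fun i : Fin (K - k) => co ξ (K - i) (idx (K - i) z)), co ξ k p) :
        (Fin (K - k) → ℝ) × ℝ)) ∘ fun ω q => X (ρ q) ω) =
      (fun ω => ((fun i : Fin (K - k) => co (fun q => X q ω) (K - i) (idx (K - i) z)),
          -co (fun q => X q ω) k (idx k z))) := by
    funext ω
    show (((fun i : Fin (K - k) => co (fun q => X (ρ q) ω) (K - i) (idx (K - i) z)),
      co (fun q => X (ρ q) ω) k p) : (Fin (K - k) → ℝ) × ℝ) = _
    rw [co_k (fun q => X q ω) k hk p]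
    refine Prod.ext ?_ rfl
    funext i
    exact co_j (fun q => X q ω) k (K - i) hk (by have := i.2; omega) p _
  rw [e1] at h1
  exact h1

end Pool.Agent.R228.MM
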